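import Pool.Agent.Lib.MP_0430e4_lc.L2.Defs

/-!
# BES: Bessel's inequality for characters of low frequency on tuples of even words

PROOF. For `X, Y` with all `wt (X i), wt (Y i) ≤ c`, `2 c < n`: `∑_α ∏_i chw (X i) (α i) chw (Y i) (α i) = ∏_i ∑_{x even} chw (X i + Y i) x
= 2^{(n-1) card ι}` if `X = Y` and `0` otherwise (`Lin.EW_chw`: the sum over even words of `chw u` is 0 unless `u = 0` or `u = 1`, and
`wt (X i + Y i) ≤ 2 c < n` excludes `u = 1 = (1,...,1)`). Bessel: with `b X = ∑_α p α ∏ chw`, `N = 2^{(n-1) card ι}`: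
`0 ≤ ∑_α (p α - N⁻¹ ∑_{X ∈ S} b X ∏ chw (X i) (α i))^2 = ∑ p^2 - N⁻¹ ∑_{X ∈ S} b X ^ 2`.
-/

set_option autoImplicit false

namespace Pool.Agent.Lib.MP_0430e4_lc.L2

open Finset
open Lin (W wt chw evW EW al flat SymW)

variable {n : ℕ} {ι : Type*} [Fintype ι] [DecidableEq ι]

theorem card_Ev (hn : 0 < n) : (Fintype.card (Ev n) : ℝ) = 2 ^ (n - 1) := by
  rw [Fintype.card_coe]
  exact Lin.card_evW hn

theorem bes_wt_add (v w : W n) : wt (v + w) ≤ wt v + wt w := by
  classical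
  unfold wt
  refine le_trans (card_le_card ?_) (card_union_le _ _)
  intro i hi
  rw [mem_filter] at hi
  rw [mem_union, mem_filter, mem_filter]
  by_contra h
  push Not at h
  apply hi.2
  rw [Pi.add_apply, h.1 (mem_univ _), h.2 (mem_univ _), add_zero]

theorem bes_wt_one : wt (1 : W n) = n := by
  unfold wt
  rw [filter_true_of_mem (fun i _ => by simp)]
  simp

theorem bes_orth1 (hn : 0 < n) {c : ℕ} (hc : 2 * c < n) {v w : W n} (hv : wt v ≤ c)
    (hw : wt w ≤ c) : ∑ x : Ev n, chw v (x : W n) * chw w (x : W n) =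
      if v = w then (Fintype.card (Ev n) : ℝ) else 0 := by
  have h1 : ∑ x : Ev n, chw v (x : W n) * chw w (x : W n) = ∑ x ∈ evW n, chw (v + w) x := by
    rw [← sum_coe_sort (evW n) (fun x => chw (v + w) x)]
    exact sum_congr rfl fun x _ => (Lin.chw_add v w x).symm
  have h2 := Lin.EW_chw hn (v + w)
  unfold EW at h2
  rw [h1]
  have hpos : (0 : ℝ) < 2 ^ (n - 1) := by positivity
  by_cases hvw : v = w
  · subst hvw
    rw [if_pos rfl, card_Ev hn]
    rw [if_pos (Or.inl (Lin.add_self_W v)), div_eq_iff hpos.ne'] at h2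
    rw [h2, one_mul]
  · rw [if_neg hvw]
    rw [if_neg, div_eq_iff hpos.ne', zero_mul] at h2
    · exact h2
    · rintro (h | h)
      · exact hvw (Lin.eq_of_add_U h)
      · have h3 := bes_wt_add v w
        rw [h, bes_wt_one] at h3
        omega

theorem bes_orth (hn : 0 < n) {c : ℕ} (hc : 2 * c < n) {X Y : ι → W n}
    (hX : ∀ i, wt (X i) ≤ c) (hY : ∀ i, wt (Y i) ≤ c) :
    ∑ α : ι → Ev n, (∏ i, chw (X i) (α i : W n)) * ∏ i, chw (Y i) (α i : W n) =
      if X = Y then (Fintype.card (Ev n) : ℝ) ^ Fintype.card ι else 0 := by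
  have h1 : ∑ α : ι → Ev n, (∏ i, chw (X i) (α i : W n)) * ∏ i, chw (Y i) (α i : W n) =
      ∏ i, ∑ x : Ev n, chw (X i) (x : W n) * chw (Y i) (x : W n) := by
    rw [Finset.prod_univ_sum, Fintype.piFinset_univ]
    exact sum_congr rfl fun α _ => prod_mul_distrib.symm
  rw [h1]
  by_cases h : X = Y
  · subst h
    rw [if_pos rfl]
    rw [prod_congr rfl fun i _ => (bes_orth1 hn hc (hX i) (hX i)).trans (if_pos rfl)]
    rw [prod_const, card_univ]
  · rw [if_neg h]
    obtain ⟨i, hi⟩ := Function.ne_iff.1 h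
    exact prod_eq_zero (mem_univ i) ((bes_orth1 hn hc (hX i) (hY i)).trans (if_neg hi))

theorem bessel (hn : 0 < n) {c : ℕ} (hc : 2 * c < n) (S : Finset (ι → W n))
    (hS : ∀ X ∈ S, ∀ i, wt (X i) ≤ c) (p : (ι → Ev n) → ℝ) :
    ∑ X ∈ S, (∑ α, p α * ∏ i, chw (X i) (α i : W n)) ^ 2 ≤
      (Fintype.card (Ev n) : ℝ) ^ Fintype.card ι * ∑ α, p α ^ 2 := by
  classical
  set N : ℝ := (Fintype.card (Ev n) : ℝ) ^ Fintype.card ι with hN
  have hN0 : 0 < N := by
    have h1 : (0 : ℝ) < Fintype.card (Ev n) := by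
      rw [card_Ev hn]
      positivity
    positivity
  set K : (ι → W n) → (ι → Ev n) → ℝ := fun X α => ∏ i, chw (X i) (α i : W n) with hK
  set b : (ι → W n) → ℝ := fun X => ∑ α, p α * K X α with hb
  have h0 : 0 ≤ ∑ α, (N * p α - ∑ X ∈ S, b X * K X α) ^ 2 := sum_nonneg fun _ _ => sq_nonneg _
  have e1 : ∑ α, (N * p α - ∑ X ∈ S, b X * K X α) ^ 2 =
      N ^ 2 * ∑ α, p α ^ 2 - 2 * N * ∑ X ∈ S, b X ^ 2 +
        ∑ α, (∑ X ∈ S, b X * K X α) * ∑ Y ∈ S, b Y * K Y α := by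
    have e2 : ∑ X ∈ S, b X ^ 2 = ∑ α, p α * ∑ X ∈ S, b X * K X α := by
      have e3 : ∀ X, b X ^ 2 = ∑ α, p α * (b X * K X α) := by
        intro X
        have e7 : b X ^ 2 = (∑ α, p α * K X α) * b X := sq _
        rw [e7, sum_mul]
        exact sum_congr rfl fun α _ => by ring
      rw [sum_congr rfl fun X _ => e3 X, sum_comm]
      exact sum_congr rfl fun α _ => by rw [mul_sum]
    rw [e2, mul_sum, mul_sum, ← sum_sub_distrib, ← sum_add_distrib]
    exact sum_congr rfl fun α _ => by ring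
  have e4 : ∑ α, (∑ X ∈ S, b X * K X α) * ∑ Y ∈ S, b Y * K Y α = N * ∑ X ∈ S, b X ^ 2 := by
    have e5 : ∑ α, (∑ X ∈ S, b X * K X α) * ∑ Y ∈ S, b Y * K Y α =
        ∑ X ∈ S, ∑ Y ∈ S, b X * b Y * ∑ α, K X α * K Y α := by
      have e6 : ∀ α : ι → Ev n, (∑ X ∈ S, b X * K X α) * ∑ Y ∈ S, b Y * K Y α =
          ∑ X ∈ S, ∑ Y ∈ S, b X * b Y * (K X α * K Y α) := by
        intro α
        rw [sum_mul_sum]
        exact sum_congr rfl fun X _ => sum_congr rfl fun Y _ => by ring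
      rw [sum_congr rfl fun α _ => e6 α, sum_comm]
      refine sum_congr rfl fun X _ => ?_
      rw [sum_comm]
      exact sum_congr rfl fun Y _ => (mul_sum _ _ _).symm
    rw [e5, mul_sum]
    refine sum_congr rfl fun X hX => ?_
    rw [sum_eq_single X]
    · rw [hK]
      simp only
      rw [bes_orth hn hc (hS X hX) (hS X hX), if_pos rfl]
      ring
    · intro Y hY hYX
      rw [hK]
      simp only
      rw [bes_orth hn hc (hS X hX) (hS Y hY), if_neg (Ne.symm hYX), mul_zero]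
    · intro h
      exact absurd hX h
  rw [e1, e4] at h0
  have h6 : N * ∑ X ∈ S, b X ^ 2 ≤ N * (N * ∑ α, p α ^ 2) := by nlinarith
  exact le_of_mul_le_mul_left h6 hN0

end Pool.Agent.Lib.MP_0430e4_lc.L2
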