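import Pool.Agent.Lib.MP_0430e4_lc.L2.Defs

/-!
# BLK: block diagonal matrices and Frobenius norms (abstract)

PROOF. With `k(a, b) = ∑_{ω ∈ S, f ω = a, g ω = b} c ω` the sum is `∑_z ∑_{a,b : hA a = z = hB b} k(a,b) P a Q b`
(`a ∈ S.image f`, `b ∈ S.image g`). By Cauchy-Schwarz the inner sum is at most `(∑ k^2)^{1/2} P_z Q_z` with `P_z^2 = ∑_{hA a = z} P a ^ 2`, and
`∑_{a, b in block z} k(a,b)^2 ≤ ∑_{ω, ω'} [f ω = f ω', g ω = g ω', hA (f ω) = z] |c ω| |c ω'| ≤ F`.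
Then `(∑_z P_z Q_z)^2 ≤ (∑_z P_z^2) (∑_z Q_z^2)`.
-/

set_option autoImplicit false

namespace Pool.Agent.Lib.MP_0430e4_lc.L2

open Finset

theorem BLK_one {Ω A B : Type*} [DecidableEq A] [DecidableEq B]
    (T : Finset Ω) (f : Ω → A) (g : Ω → B) (A' : Finset A) (B' : Finset B)
    (hf : ∀ ω ∈ T, f ω ∈ A') (hg : ∀ ω ∈ T, g ω ∈ B')
    (c : Ω → ℝ) (P : A → ℝ) (Q : B → ℝ) {F : ℝ}
    (hF : ∑ ω ∈ T, ∑ ω' ∈ T,
      (if f ω = f ω' ∧ g ω = g ω' then |c ω| * |c ω'| else 0) ≤ F) :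
    (∑ ω ∈ T, c ω * P (f ω) * Q (g ω)) ^ 2 ≤
      F * ((∑ a ∈ A', P a ^ 2) * ∑ b ∈ B', Q b ^ 2) := by
  classical
  set k : A × B → ℝ := fun p => ∑ ω ∈ T with (f ω, g ω) = p, c ω with hk
  have h1 : (∑ ω ∈ T, c ω * P (f ω) * Q (g ω)) = ∑ p ∈ A' ×ˢ B', k p * (P p.1 * Q p.2) := by
    rw [← Finset.sum_fiberwise_of_maps_to (s := T) (t := A' ×ˢ B') (g := fun ω => (f ω, g ω))
      (fun ω hω => Finset.mem_product.2 ⟨hf ω hω, hg ω hω⟩)]
    refine Finset.sum_congr rfl (fun p _ => ?_)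
    rw [hk, Finset.sum_mul]
    refine Finset.sum_congr rfl (fun ω hω => ?_)
    have := (Finset.mem_filter.1 hω).2
    rw [← this]
    ring
  have h2 : ∑ p ∈ A' ×ˢ B', k p ^ 2 ≤ F := by
    refine le_trans ?_ hF
    have h3 : ∀ p ∈ A' ×ˢ B', k p ^ 2 ≤ ∑ ω ∈ T with (f ω, g ω) = p,
        ∑ ω' ∈ T, (if f ω = f ω' ∧ g ω = g ω' then |c ω| * |c ω'| else 0) := by
      intro p _
      have h4 : k p ^ 2 = ∑ ω ∈ T with (f ω, g ω) = p, ∑ ω' ∈ T with (f ω', g ω') = p,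
          c ω * c ω' := by
        rw [hk, sq, Finset.sum_mul_sum]
      rw [h4]
      refine Finset.sum_le_sum (fun ω hω => ?_)
      have hω2 := (Finset.mem_filter.1 hω).2
      rw [Finset.sum_filter]
      refine Finset.sum_le_sum (fun ω' _ => ?_)
      by_cases hω' : (f ω', g ω') = p
      · rw [if_pos hω']
        have h5 : f ω = f ω' ∧ g ω = g ω' := by
          have := hω2.trans hω'.symm
          exact Prod.mk.inj this
        rw [if_pos h5, ← abs_mul]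
        exact le_abs_self _
      · rw [if_neg hω']
        split_ifs
        · positivity
        · exact le_rfl
    refine (Finset.sum_le_sum h3).trans (le_of_eq ?_)
    exact Finset.sum_fiberwise_of_maps_to (s := T) (t := A' ×ˢ B') (g := fun ω => (f ω, g ω))
      (fun ω hω => Finset.mem_product.2 ⟨hf ω hω, hg ω hω⟩) _
  rw [h1]
  refine (Finset.sum_mul_sq_le_sq_mul_sq _ _ _).trans ?_
  have h6 : ∑ p ∈ A' ×ˢ B', (P p.1 * Q p.2) ^ 2 = (∑ a ∈ A', P a ^ 2) * ∑ b ∈ B', Q b ^ 2 := by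
    rw [Finset.sum_mul_sum, Finset.sum_product]
    refine Finset.sum_congr rfl (fun a _ => Finset.sum_congr rfl (fun b _ => ?_))
    ring
  rw [h6]
  exact mul_le_mul_of_nonneg_right h2 (by positivity)

theorem block {Ω A B Z : Type*} [DecidableEq A] [DecidableEq B] [DecidableEq Z]
    (S : Finset Ω) (f : Ω → A) (g : Ω → B) (hA : A → Z) (hB : B → Z)
    (hAB : ∀ ω ∈ S, hA (f ω) = hB (g ω)) (c : Ω → ℝ) (P : A → ℝ) (Q : B → ℝ) {F : ℝ}
    (hF : ∀ z, ∑ ω ∈ S, ∑ ω' ∈ S,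
      (if f ω = f ω' ∧ g ω = g ω' ∧ hA (f ω) = z then |c ω| * |c ω'| else 0) ≤ F) :
    (∑ ω ∈ S, c ω * P (f ω) * Q (g ω)) ^ 2 ≤
      F * ((∑ a ∈ S.image f, P a ^ 2) * ∑ b ∈ S.image g, Q b ^ 2) := by
  classical
  set Zs : Finset Z := (S.image f).image hA with hZs
  have hmem : ∀ ω ∈ S, hA (f ω) ∈ Zs := fun ω hω =>
    Finset.mem_image_of_mem _ (Finset.mem_image_of_mem _ hω)
  have hmA : ∀ a ∈ S.image f, hA a ∈ Zs := fun a ha => Finset.mem_image_of_mem _ ha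
  have hmB : ∀ b ∈ S.image g, hB b ∈ Zs := by
    intro b hb
    obtain ⟨ω, hω, rfl⟩ := Finset.mem_image.1 hb
    rw [← hAB ω hω]
    exact hmem ω hω
  have hF0 : ∀ z : Z, 0 ≤ F := by
    intro z
    refine le_trans (Finset.sum_nonneg (fun ω _ => Finset.sum_nonneg (fun ω' _ => ?_))) (hF z)
    split_ifs
    · positivity
    · exact le_rfl
  have hz : ∀ z ∈ Zs, (∑ ω ∈ S with hA (f ω) = z, c ω * P (f ω) * Q (g ω)) ^ 2 ≤
      (F * ∑ a ∈ S.image f with hA a = z, P a ^ 2) * ∑ b ∈ S.image g with hB b = z, Q b ^ 2 := by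
    intro z _
    rw [mul_assoc]
    refine BLK_one _ f g _ _ (fun ω hω => ?_) (fun ω hω => ?_) c P Q (le_trans (le_of_eq ?_) (hF z))
    · obtain ⟨h1, h2⟩ := Finset.mem_filter.1 hω
      exact Finset.mem_filter.2 ⟨Finset.mem_image_of_mem _ h1, h2⟩
    · obtain ⟨h1, h2⟩ := Finset.mem_filter.1 hω
      exact Finset.mem_filter.2 ⟨Finset.mem_image_of_mem _ h1, by rw [← hAB ω h1]; exact h2⟩
    · rw [Finset.sum_filter]
      refine Finset.sum_congr rfl (fun ω _ => ?_)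
      by_cases hω : hA (f ω) = z
      · rw [if_pos hω, Finset.sum_filter]
        refine Finset.sum_congr rfl (fun ω' _ => ?_)
        by_cases h2 : f ω = f ω' ∧ g ω = g ω'
        · have h3 : hA (f ω') = z := by rw [← h2.1]; exact hω
          rw [if_pos h3, if_pos h2, if_pos ⟨h2.1, h2.2, hω⟩]
        · have h4 : ¬ (f ω = f ω' ∧ g ω = g ω' ∧ hA (f ω) = z) := fun h => h2 ⟨h.1, h.2.1⟩
          rw [if_neg h2, if_neg h4, ite_self]
      · rw [if_neg hω]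
        symm
        refine Finset.sum_eq_zero (fun ω' _ => ?_)
        rw [if_neg (fun h => hω h.2.2)]
  have hsum : (∑ ω ∈ S, c ω * P (f ω) * Q (g ω)) =
      ∑ z ∈ Zs, ∑ ω ∈ S with hA (f ω) = z, c ω * P (f ω) * Q (g ω) :=
    (Finset.sum_fiberwise_of_maps_to hmem _).symm
  have h7 := Finset.sum_sq_le_sum_mul_sum_of_sq_le_mul Zs
    (r := fun z => ∑ ω ∈ S with hA (f ω) = z, c ω * P (f ω) * Q (g ω))
    (f := fun z => F * ∑ a ∈ S.image f with hA a = z, P a ^ 2)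
    (g := fun z => ∑ b ∈ S.image g with hB b = z, Q b ^ 2)
    (fun z _ => mul_nonneg (hF0 z) (Finset.sum_nonneg (fun _ _ => sq_nonneg _)))
    (fun z _ => Finset.sum_nonneg (fun _ _ => sq_nonneg _)) hz
  rw [hsum]
  refine h7.trans (le_of_eq ?_)
  rw [← Finset.mul_sum, Finset.sum_fiberwise_of_maps_to hmA, Finset.sum_fiberwise_of_maps_to hmB,
    mul_assoc]

end Pool.Agent.Lib.MP_0430e4_lc.L2
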