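import Pool.Agent.Lib.MP_0430e4_lc.L2.COL

/-!
# CNTP: counting pairs of labellings

PROOF. Let `l = wt ξ`, `E = g.card`. Split the pairs of `Fs g c φ ξ` according to `Z = Zc ω ω'`, `p = Z.card`, `p + l ≤ 2 ∑ c e` (`col_card`).
All labels are supported in `Z ∪ supp ξ` (`col_supp`), a set with `q = p + l` elements: for given `Z` at most `(2 ^ q) ^ (2 E) = 4 ^ (E q)` pairs,
and there are at most `choose n p` sets `Z`. Every label has weight `≤ c e`, `2 c e < n`, so `al φ = ao φ` there and by `Lin.ao_sq_le` (`B = 1`, `M = q ≤ n`,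
`EW φ^2 ≤ 1`) `|al φ w| ≤ (q / n) ^ (wt w / 2)`; the product of the `2 E` coefficients is at most `ρ ^ (2 E)` and at most
`(q / n) ^ ((4 p + 2 l) / 2)` by `col_weight` (`q / n ≤ 1`; `q ≤ 2 ∑ c e < n`).
-/

set_option autoImplicit false
set_option linter.unusedSectionVars false

namespace Pool.Agent.Lib.MP_0430e4_lc.L2

open Finset
open Lin (W wt chw evW EW al flat SymW)

variable {n : ℕ} {ι κ : Type*} [Fintype ι] [DecidableEq ι] [Fintype κ] [DecidableEq κ]

/-- The words supported in `T`. -/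
def CNTP_w (n : ℕ) (T : Finset (Fin n)) : Finset (W n) :=
  Fintype.piFinset fun i => if i ∈ T then univ else {0}

theorem CNTP_mem_w {T : Finset (Fin n)} {x : W n} : x ∈ CNTP_w n T ↔ ∀ i, x i ≠ 0 → i ∈ T := by
  unfold CNTP_w
  rw [Fintype.mem_piFinset]
  refine forall_congr' fun i => ?_
  by_cases h : i ∈ T
  · simp [h]
  · simp [h]

theorem CNTP_card_w (T : Finset (Fin n)) : (CNTP_w n T).card = 2 ^ T.card := by
  unfold CNTP_w
  rw [Fintype.card_piFinset]
  have h1 : ∀ i, (if i ∈ T then (univ : Finset (ZMod 2)) else {0}).card = if i ∈ T then 2 else 1 := by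
    intro i
    split_ifs
    · rfl
    · rfl
  rw [prod_congr rfl fun i _ => h1 i, prod_ite_mem, univ_inter, prod_const]

/-- The labellings supported in `T`. -/
def CNTP_L (n : ℕ) (g : Finset (ι × κ)) (T : Finset (Fin n)) : Finset ({e // e ∈ g} → W n) :=
  Fintype.piFinset fun _ => CNTP_w n T

theorem CNTP_card_L (g : Finset (ι × κ)) (T : Finset (Fin n)) :
    (CNTP_L n g T).card = 2 ^ (T.card * g.card) := by
  unfold CNTP_L
  rw [Fintype.card_piFinset, prod_const, card_univ, CNTP_card_w, Fintype.card_coe, pow_mul]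

theorem CNTP_mem_L {g : Finset (ι × κ)} {T : Finset (Fin n)} {ω : {e // e ∈ g} → W n} :
    ω ∈ CNTP_L n g T ↔ ∀ e i, ω e i ≠ 0 → i ∈ T := by
  unfold CNTP_L
  rw [Fintype.mem_piFinset]
  exact forall_congr' fun e => CNTP_mem_w

theorem CNTP_al (hn : 0 < n) {φ : W n → ℝ} (hs : SymW φ) (hE : EW (fun x => φ x ^ 2) ≤ 1)
    {w : W n} {q : ℕ} (hw : 2 * wt w < n) (hwq : wt w ≤ q) (hq : q ≤ n) :
    |al φ w| ^ 2 ≤ ((q : ℝ) / n) ^ wt w := by
  have h1 := Lin.ao_sq_le hn hs (B := 1) (by simpa using hE) hwq hq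
  have h2 : Lin.ao φ w = al φ w := by
    unfold Lin.ao
    rw [if_pos hw, one_mul]
  rw [h2] at h1
  rw [sq_abs]
  simpa using h1

/-- One pair. -/
theorem CNTP_pair (hn : 0 < n) {φ : W n → ℝ} (hs : SymW φ) (hE : EW (fun x => φ x ^ 2) ≤ 1)
    {ρ : ℝ} (hρ : ∀ w, |al φ w| ≤ ρ) {g : Finset (ι × κ)} {c : ι × κ → ℕ}
    (hc : 2 * ∑ e ∈ g, c e < n) {ω ω' : {e // e ∈ g} → W n} (h : ω ∈ Om n g c)
    (h' : ω' ∈ Om n g c) (hl : lb ω = lb ω') (hr : rb ω = rb ω') :
    (∏ e, |al φ (ω e)|) * ∏ e, |al φ (ω' e)| ≤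
      min (ρ ^ (2 * g.card)) (((((Zc ω ω').card + wt (tot ω) : ℕ) : ℝ) / n) ^
        (2 * (Zc ω ω').card + wt (tot ω))) := by
  have hρ0 : 0 ≤ ρ := (abs_nonneg _).trans (hρ 0)
  have hn0 : (0 : ℝ) < n := by exact_mod_cast hn
  apply le_min
  · have key : ∀ ψ : {e // e ∈ g} → W n, ∏ e, |al φ (ψ e)| ≤ ρ ^ g.card := by
      intro ψ
      calc ∏ e, |al φ (ψ e)| ≤ ∏ _e : {e // e ∈ g}, ρ :=
            prod_le_prod (fun _ _ => abs_nonneg _) fun e _ => hρ _
        _ = ρ ^ g.card := by rw [prod_const, card_univ, Fintype.card_coe]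
    rw [two_mul, pow_add]
    exact mul_le_mul (key ω) (key ω') (prod_nonneg fun _ _ => abs_nonneg _) (pow_nonneg hρ0 _)
  · obtain ⟨q, hq⟩ : ∃ q, q = (Zc ω ω').card + wt (tot ω) := ⟨_, rfl⟩
    rw [← hq]
    have hqC : q ≤ 2 * ∑ e ∈ g, c e := by
      rw [hq]
      exact col_card hl h h'
    have hqn : q ≤ n := by omega
    have ht0 : 0 ≤ (q : ℝ) / n := by positivity
    have ht1 : (q : ℝ) / n ≤ 1 := by
      rw [div_le_one hn0]
      exact_mod_cast hqn
    have hcard : ∀ T : Finset (Fin n), (∀ i ∈ T, i ∈ Zc ω ω' ∨ tot ω i ≠ 0) → T.card ≤ q := by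
      intro T hT
      have e1 : T ⊆ Zc ω ω' ∪ univ.filter fun i => tot ω i ≠ 0 := by
        intro i hi
        rw [mem_union, mem_filter]
        rcases hT i hi with h1 | h1
        · exact Or.inl h1
        · exact Or.inr ⟨mem_univ _, h1⟩
      refine (card_le_card e1).trans ((card_union_le _ _).trans ?_)
      rw [hq]
      exact le_rfl
    have hwC : ∀ ψ : {e // e ∈ g} → W n, ψ ∈ Om n g c → ∀ e, 2 * wt (ψ e) < n := by
      intro ψ hψ e
      unfold Om at hψ
      rw [mem_filter] at hψ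
      have e1 := hψ.2 e
      have e2 : c e ≤ ∑ e ∈ g, c e := single_le_sum (f := c) (fun _ _ => Nat.zero_le _) e.2
      omega
    have key1 : ∀ e, |al φ (ω e)| ^ 2 ≤ ((q : ℝ) / n) ^ wt (ω e) := by
      intro e
      apply CNTP_al hn hs hE (hwC ω h e) _ hqn
      unfold Lin.wt
      apply hcard
      intro i hi
      exact col_supp e i (Or.inl (mem_filter.1 hi).2)
    have key2 : ∀ e, |al φ (ω' e)| ^ 2 ≤ ((q : ℝ) / n) ^ wt (ω' e) := by
      intro e
      apply CNTP_al hn hs hE (hwC ω' h' e) _ hqn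
      unfold Lin.wt
      apply hcard
      intro i hi
      exact col_supp e i (Or.inr (mem_filter.1 hi).2)
    rw [← pow_le_pow_iff_left₀ (mul_nonneg (prod_nonneg fun _ _ => abs_nonneg _)
      (prod_nonneg fun _ _ => abs_nonneg _)) (pow_nonneg ht0 _) two_ne_zero]
    calc ((∏ e, |al φ (ω e)|) * ∏ e, |al φ (ω' e)|) ^ 2
        = (∏ e, |al φ (ω e)| ^ 2) * ∏ e, |al φ (ω' e)| ^ 2 := by
          rw [mul_pow, prod_pow, prod_pow]
      _ ≤ (∏ e, ((q : ℝ) / n) ^ wt (ω e)) * ∏ e, ((q : ℝ) / n) ^ wt (ω' e) := by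
          apply mul_le_mul (prod_le_prod (fun _ _ => sq_nonneg _) fun e _ => key1 e)
            (prod_le_prod (fun _ _ => sq_nonneg _) fun e _ => key2 e)
            (prod_nonneg fun _ _ => sq_nonneg _) (prod_nonneg fun _ _ => pow_nonneg ht0 _)
      _ = ((q : ℝ) / n) ^ (∑ e, wt (ω e) + ∑ e, wt (ω' e)) := by
          rw [prod_pow_eq_pow_sum, prod_pow_eq_pow_sum, ← pow_add]
      _ ≤ ((q : ℝ) / n) ^ (4 * (Zc ω ω').card + 2 * wt (tot ω)) :=
          pow_le_pow_of_le_one ht0 ht1 (col_weight hl hr)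
      _ = (((q : ℝ) / n) ^ (2 * (Zc ω ω').card + wt (tot ω))) ^ 2 := by
          rw [← pow_mul]
          congr 1
          ring

theorem CNTP_group {F : ℕ → ℝ} (hF : ∀ p, 0 ≤ F p) (C l : ℕ) :
    ∑ Z ∈ (univ : Finset (Finset (Fin n))).filter (fun Z => Z.card + l ≤ C), F Z.card ≤
      ∑ p ∈ (range (C + 1)).filter (fun p => p + l ≤ C), (n.choose p : ℝ) * F p := by
  rw [← sum_fiberwise_of_maps_to (s := (univ : Finset (Finset (Fin n))).filter
    (fun Z => Z.card + l ≤ C)) (t := (range (C + 1)).filter (fun p => p + l ≤ C))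
    (g := fun Z => Z.card)]
  · refine sum_le_sum fun p hp => ?_
    have h1 : ∀ Z ∈ ((univ : Finset (Finset (Fin n))).filter (fun Z => Z.card + l ≤ C)).filter
        (fun Z => Z.card = p), F Z.card = F p := by
      intro Z hZ
      rw [(mem_filter.1 hZ).2]
    rw [sum_congr rfl h1, sum_const, nsmul_eq_mul]
    apply mul_le_mul_of_nonneg_right _ (hF p)
    have h2 : ((univ : Finset (Finset (Fin n))).filter (fun Z => Z.card + l ≤ C)).filter
        (fun Z => Z.card = p) ⊆ powersetCard p univ := by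
      intro Z hZ
      rw [mem_powersetCard]
      exact ⟨subset_univ _, (mem_filter.1 hZ).2⟩
    have h3 := card_le_card h2
    rw [card_powersetCard, card_univ, Fintype.card_fin] at h3
    exact_mod_cast h3
  · intro Z hZ
    rw [mem_filter] at hZ
    rw [mem_filter, mem_range]
    constructor
    · omega
    · exact hZ.2

theorem Fs_le (hn : 0 < n) {φ : W n → ℝ} (hs : SymW φ) (hE : EW (fun x => φ x ^ 2) ≤ 1) {ρ : ℝ}
    (hρ : ∀ w, |al φ w| ≤ ρ) {g : Finset (ι × κ)} {c : ι × κ → ℕ}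
    (hc : 2 * ∑ e ∈ g, c e < n) (ξ : W n) :
    Fs g c φ ξ ≤ ∑ p ∈ (range (2 * (∑ e ∈ g, c e) + 1)).filter
      (fun p => p + wt ξ ≤ 2 * ∑ e ∈ g, c e), (n.choose p : ℝ) * 4 ^ (g.card * (p + wt ξ)) *
        min (ρ ^ (2 * g.card)) ((((p + wt ξ : ℕ) : ℝ) / n) ^ (2 * p + wt ξ)) := by
  have hρ0 : 0 ≤ ρ := (abs_nonneg _).trans (hρ 0)
  obtain ⟨C, hC⟩ : ∃ C, C = 2 * ∑ e ∈ g, c e := ⟨_, rfl⟩
  obtain ⟨S, hS⟩ : ∃ S : Finset (Fin n), S = univ.filter fun i => ξ i ≠ 0 := ⟨_, rfl⟩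
  have hSc : S.card = wt ξ := by
    rw [hS]
    rfl
  obtain ⟨m, hm⟩ : ∃ m : ℕ → ℝ, m = fun p => min (ρ ^ (2 * g.card))
    ((((p + wt ξ : ℕ) : ℝ) / n) ^ (2 * p + wt ξ)) := ⟨_, rfl⟩
  have hm0 : ∀ p, 0 ≤ m p := by
    intro p
    rw [hm]
    exact le_min (pow_nonneg hρ0 _) (by positivity)
  -- one pair
  have h1 : ∀ ω ∈ Om n g c, ∀ ω' ∈ Om n g c,
      (if lb ω = lb ω' ∧ rb ω = rb ω' ∧ tot ω = ξ then
        (∏ e, |al φ (ω e)|) * ∏ e, |al φ (ω' e)| else 0) ≤
      ∑ Z ∈ (univ : Finset (Finset (Fin n))).filter (fun Z => Z.card + wt ξ ≤ C),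
        (if ω ∈ CNTP_L n g (Z ∪ S) ∧ ω' ∈ CNTP_L n g (Z ∪ S) then m Z.card else 0) := by
    intro ω hω ω' hω'
    have hnn : ∀ Z ∈ (univ : Finset (Finset (Fin n))).filter (fun Z => Z.card + wt ξ ≤ C),
        0 ≤ (if ω ∈ CNTP_L n g (Z ∪ S) ∧ ω' ∈ CNTP_L n g (Z ∪ S) then m Z.card else 0) := by
      intro Z _
      split_ifs
      · exact hm0 _
      · exact le_rfl
    split_ifs with hcond
    · obtain ⟨hl, hr, ht⟩ := hcond
      have hZ : Zc ω ω' ∈ (univ : Finset (Finset (Fin n))).filter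
          (fun Z => Z.card + wt ξ ≤ C) := by
        rw [mem_filter]
        refine ⟨mem_univ _, ?_⟩
        rw [hC, ← ht]
        exact col_card hl hω hω'
      refine le_trans ?_ (single_le_sum hnn hZ)
      rw [if_pos]
      · have := CNTP_pair hn hs hE hρ hc hω hω' hl hr
        rw [ht] at this
        rw [hm]
        exact this
      · rw [CNTP_mem_L, CNTP_mem_L]
        constructor
        · intro e i hi
          rw [mem_union, hS, mem_filter]
          rcases col_supp (ω := ω) (ω' := ω') e i (Or.inl hi) with h2 | h2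
          · exact Or.inl h2
          · rw [ht] at h2
            exact Or.inr ⟨mem_univ _, h2⟩
        · intro e i hi
          rw [mem_union, hS, mem_filter]
          rcases col_supp (ω := ω) (ω' := ω') e i (Or.inr hi) with h2 | h2
          · exact Or.inl h2
          · rw [ht] at h2
            exact Or.inr ⟨mem_univ _, h2⟩
    · exact sum_nonneg hnn
  have h2 : Fs g c φ ξ ≤ ∑ Z ∈ (univ : Finset (Finset (Fin n))).filter
      (fun Z => Z.card + wt ξ ≤ C), 4 ^ (g.card * (Z.card + wt ξ)) * m Z.card := by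
    unfold Fs
    calc ∑ ω ∈ Om n g c, ∑ ω' ∈ Om n g c,
          (if lb ω = lb ω' ∧ rb ω = rb ω' ∧ tot ω = ξ then
            (∏ e, |al φ (ω e)|) * ∏ e, |al φ (ω' e)| else 0)
        ≤ ∑ ω ∈ Om n g c, ∑ ω' ∈ Om n g c,
          ∑ Z ∈ (univ : Finset (Finset (Fin n))).filter (fun Z => Z.card + wt ξ ≤ C),
            (if ω ∈ CNTP_L n g (Z ∪ S) ∧ ω' ∈ CNTP_L n g (Z ∪ S) then m Z.card else 0) :=
          sum_le_sum fun ω hω => sum_le_sum fun ω' hω' => h1 ω hω ω' hω'
      _ ≤ ∑ ω, ∑ ω', ∑ Z ∈ (univ : Finset (Finset (Fin n))).filter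
            (fun Z => Z.card + wt ξ ≤ C),
            (if ω ∈ CNTP_L n g (Z ∪ S) ∧ ω' ∈ CNTP_L n g (Z ∪ S) then m Z.card else 0) := by
          have hnn : ∀ ω ω', 0 ≤ ∑ Z ∈ (univ : Finset (Finset (Fin n))).filter
            (fun Z => Z.card + wt ξ ≤ C),
            (if ω ∈ CNTP_L n g (Z ∪ S) ∧ ω' ∈ CNTP_L n g (Z ∪ S) then m Z.card else 0) := by
            intro ω ω'
            refine sum_nonneg fun Z _ => ?_
            split_ifs
            · exact hm0 _
            · exact le_rfl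
          refine (sum_le_sum fun ω _ => sum_le_univ_sum_of_nonneg (hnn ω)).trans ?_
          exact sum_le_univ_sum_of_nonneg fun ω => sum_nonneg fun ω' _ => hnn ω ω'
      _ = ∑ Z ∈ (univ : Finset (Finset (Fin n))).filter (fun Z => Z.card + wt ξ ≤ C),
            ((CNTP_L n g (Z ∪ S)).card : ℝ) ^ 2 * m Z.card := by
          rw [sum_congr rfl fun ω _ => sum_comm, sum_comm]
          refine sum_congr rfl fun Z _ => ?_
          have e1 : ∀ ω : {e // e ∈ g} → W n, ∑ ω' : {e // e ∈ g} → W n,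
              (if ω ∈ CNTP_L n g (Z ∪ S) ∧ ω' ∈ CNTP_L n g (Z ∪ S) then m Z.card else 0) =
              if ω ∈ CNTP_L n g (Z ∪ S) then ((CNTP_L n g (Z ∪ S)).card : ℝ) * m Z.card
                else 0 := by
            intro ω
            by_cases hω : ω ∈ CNTP_L n g (Z ∪ S)
            · simp only [hω, true_and, if_true]
              rw [sum_ite_mem, univ_inter, sum_const, nsmul_eq_mul]
            · simp only [hω, false_and, if_false, sum_const_zero]
          rw [sum_congr rfl fun ω _ => e1 ω, sum_ite_mem, univ_inter, sum_const, nsmul_eq_mul]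
          ring
      _ ≤ ∑ Z ∈ (univ : Finset (Finset (Fin n))).filter (fun Z => Z.card + wt ξ ≤ C),
            4 ^ (g.card * (Z.card + wt ξ)) * m Z.card := by
          refine sum_le_sum fun Z _ => mul_le_mul_of_nonneg_right ?_ (hm0 _)
          rw [CNTP_card_L]
          push_cast
          have e1 : (Z ∪ S).card ≤ Z.card + wt ξ := by
            rw [← hSc]
            exact card_union_le _ _
          calc ((2 : ℝ) ^ ((Z ∪ S).card * g.card)) ^ 2 = 4 ^ (g.card * (Z ∪ S).card) := by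
                rw [← pow_mul, mul_comm _ 2, pow_mul]
                norm_num
                rw [mul_comm]
            _ ≤ 4 ^ (g.card * (Z.card + wt ξ)) :=
                pow_le_pow_right₀ (by norm_num) (Nat.mul_le_mul_left _ e1)
  refine h2.trans ?_
  rw [← hC]
  refine (CNTP_group (F := fun p => 4 ^ (g.card * (p + wt ξ)) * m p)
    (fun p => mul_nonneg (by positivity) (hm0 p)) C (wt ξ)).trans (le_of_eq ?_)
  refine sum_congr rfl fun p _ => ?_
  rw [hm]
  ring

end Pool.Agent.Lib.MP_0430e4_lc.L2
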