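import Pool.Agent.Lib.MP_0430e4_lc.L2.Defs

/-!
# COL: columns of a pair of labellings with the same boundary

PROOF. Sum over the coordinates `i`. For fixed `i` let `A = {e : ω e i ≠ 0}`, `A' = {e : ω' e i ≠ 0}` (sets of edges). The weights of all labels add up to
`∑_i (|A| + |A'|)`. `tot ω = tot ω'` (sum of `lb`), so `|A| ≡ |A'| ≡ (tot ω) i mod 2`. If `(tot ω) i ≠ 0` both are odd: sum `≥ 2`.
If `(tot ω) i = 0` and one of them is nonempty: if both are nonempty, both are even, sum `≥ 4`. If `A' = ∅` then every vertex has an even number of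
edges of `A` (boundary 0); take `(i1, j1) ∈ A`; there are `(i1, j2) ∈ A`, `j2 ≠ j1`, `(i2, j1) ∈ A`, `i2 ≠ i1`, and
`(i2, j3) ∈ A`, `j3 ≠ j1`: four different edges. The same if `A = ∅`.
-/

set_option autoImplicit false
set_option linter.unusedSectionVars false

namespace Pool.Agent.Lib.MP_0430e4_lc.L2

open Finset
open Lin (W wt chw evW EW al flat SymW)

variable {n : ℕ} {ι κ : Type*} [Fintype ι] [DecidableEq ι] [Fintype κ] [DecidableEq κ]

/-- the active columns outside the total -/
def Zc {g : Finset (ι × κ)} (ω ω' : {e // e ∈ g} → W n) : Finset (Fin n) :=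
  univ.filter fun i => tot ω i = 0 ∧ ∃ e, ω e i ≠ 0 ∨ ω' e i ≠ 0

theorem COL_sum_lb {g : Finset (ι × κ)} (ω : {e // e ∈ g} → W n) : ∑ i, lb ω i = tot ω := by
  unfold lb tot
  rw [sum_comm]
  refine sum_congr rfl fun e _ => ?_
  rw [sum_ite_eq]
  simp

theorem tot_eq {g : Finset (ι × κ)} {ω ω' : {e // e ∈ g} → W n} (hl : lb ω = lb ω') :
    tot ω = tot ω' := by
  rw [← COL_sum_lb, ← COL_sum_lb, hl]

/-- The number of labels that are not zero in the column `i`. -/
def COL_a {g : Finset (ι × κ)} (x : {e // e ∈ g} → ZMod 2) : ℕ := (univ.filter fun e => x e ≠ 0).card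

theorem COL_cast {g : Finset (ι × κ)} (x : {e // e ∈ g} → ZMod 2) :
    ((COL_a x : ℕ) : ZMod 2) = ∑ e, x e := by
  unfold COL_a
  rw [← Finset.sum_boole]
  refine sum_congr rfl fun e _ => ?_
  have h : ∀ a : ZMod 2, (if a ≠ 0 then (1 : ZMod 2) else 0) = a := by decide
  exact h _

/-- A vertex with an even number of edges: next to an edge there is another one. -/
theorem COL_other {g : Finset (ι × κ)} {x : {e // e ∈ g} → ZMod 2} {p : {e // e ∈ g} → Prop}
    [DecidablePred p] (h : ∑ e, (if p e then x e else 0) = 0) {e : {e // e ∈ g}} (hp : p e)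
    (he : x e ≠ 0) : ∃ e', e' ≠ e ∧ p e' ∧ x e' ≠ 0 := by
  by_contra hcon
  push Not at hcon
  rw [sum_eq_single e] at h
  · rw [if_pos hp] at h
    exact he h
  · intro b _ hb
    split_ifs with h1
    · exact hcon b hb h1
    · rfl
  · intro h1
    exact absurd (mem_univ e) h1

theorem COL_four {g : Finset (ι × κ)} {x : {e // e ∈ g} → ZMod 2}
    (hl : ∀ i : ι, ∑ e : {e // e ∈ g}, (if (e : ι × κ).1 = i then x e else 0) = 0)
    (hr : ∀ j : κ, ∑ e : {e // e ∈ g}, (if (e : ι × κ).2 = j then x e else 0) = 0)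
    (hx : ∃ e, x e ≠ 0) : 4 ≤ COL_a x := by
  obtain ⟨e1, h1⟩ := hx
  obtain ⟨e2, h2, h2', h2x⟩ := COL_other (hl (e1 : ι × κ).1) (e := e1) rfl h1
  obtain ⟨e3, h3, h3', h3x⟩ := COL_other (hr (e1 : ι × κ).2) (e := e1) rfl h1
  obtain ⟨e4, h4, h4', h4x⟩ := COL_other (hl (e3 : ι × κ).1) (e := e3) rfl h3x
  have h31 : (e3 : ι × κ).1 ≠ (e1 : ι × κ).1 := fun h => h3 (Subtype.ext (Prod.ext h h3'))
  have h32 : e3 ≠ e2 := fun h => h31 (by rw [h]; exact h2')
  have h41 : e4 ≠ e1 := fun h => h31 (by rw [← h4', h])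
  have h42 : e4 ≠ e2 := fun h => h31 (by rw [← h4', h]; exact h2')
  have hsub : ({e1, e2, e3, e4} : Finset {e // e ∈ g}) ⊆ univ.filter fun e => x e ≠ 0 := by
    intro e he
    simp only [mem_insert, mem_singleton] at he
    rw [mem_filter]
    refine ⟨mem_univ _, ?_⟩
    rcases he with rfl | rfl | rfl | rfl
    · exact h1
    · exact h2x
    · exact h3x
    · exact h4x
  have hcard : ({e1, e2, e3, e4} : Finset {e // e ∈ g}).card = 4 := by
    rw [card_insert_of_notMem, card_insert_of_notMem, card_insert_of_notMem, card_singleton]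
    · rw [mem_singleton]
      exact fun h => h4 h.symm
    · rw [mem_insert, mem_singleton]
      rintro (h | h)
      · exact h32 h.symm
      · exact h42 h.symm
    · rw [mem_insert, mem_insert, mem_singleton]
      rintro (h | h | h)
      · exact h2 h.symm
      · exact h3 h.symm
      · exact h41 h.symm
  unfold COL_a
  rw [← hcard]
  exact card_le_card hsub

theorem COL_lb_apply {g : Finset (ι × κ)} (ω : {e // e ∈ g} → W n) (j : ι) (i : Fin n) :
    lb ω j i = ∑ e : {e // e ∈ g}, (if (e : ι × κ).1 = j then ω e i else 0) := by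
  unfold lb
  rw [Finset.sum_apply]
  refine sum_congr rfl fun e _ => ?_
  split_ifs <;> rfl

theorem COL_rb_apply {g : Finset (ι × κ)} (ω : {e // e ∈ g} → W n) (j : κ) (i : Fin n) :
    rb ω j i = ∑ e : {e // e ∈ g}, (if (e : ι × κ).2 = j then ω e i else 0) := by
  unfold rb
  rw [Finset.sum_apply]
  refine sum_congr rfl fun e _ => ?_
  split_ifs <;> rfl

theorem COL_a_pos {g : Finset (ι × κ)} {x : {e // e ∈ g} → ZMod 2} (h : ∃ e, x e ≠ 0) :
    0 < COL_a x := by
  obtain ⟨e, he⟩ := h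
  unfold COL_a
  exact card_pos.2 ⟨e, by rw [mem_filter]; exact ⟨mem_univ _, he⟩⟩

/-- One column, if the second labelling is zero there. -/
theorem COL_side {g : Finset (ι × κ)} {ω ω' : {e // e ∈ g} → W n} (hl : lb ω = lb ω')
    (hr : rb ω = rb ω') (i : Fin n) (h : ∃ e, ω e i ≠ 0) (h' : ∀ e, ω' e i = 0) :
    4 ≤ COL_a (fun e => ω e i) := by
  apply COL_four _ _ h
  · intro j
    have h1 := COL_lb_apply ω j i
    rw [hl, COL_lb_apply] at h1
    rw [← h1]
    refine sum_eq_zero fun e _ => ?_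
    rw [h' e, ite_self]
  · intro j
    have h1 := COL_rb_apply ω j i
    rw [hr, COL_rb_apply] at h1
    rw [← h1]
    refine sum_eq_zero fun e _ => ?_
    rw [h' e, ite_self]

theorem COL_even {g : Finset (ι × κ)} {ω : {e // e ∈ g} → W n} {i : Fin n} (h : tot ω i = 0) :
    Even (COL_a (fun e => ω e i)) := by
  have h1 := COL_cast (fun e => ω e i)
  have h2 : ∑ e, ω e i = tot ω i := by
    unfold tot
    rw [Finset.sum_apply]
  rw [h2, h] at h1
  rw [even_iff_two_dvd]
  exact (ZMod.natCast_eq_zero_iff _ _).1 h1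

theorem COL_col {g : Finset (ι × κ)} {ω ω' : {e // e ∈ g} → W n} (hl : lb ω = lb ω')
    (hr : rb ω = rb ω') (i : Fin n) :
    4 * (if i ∈ Zc ω ω' then 1 else 0) + 2 * (if tot ω i ≠ 0 then 1 else 0) ≤
      COL_a (fun e => ω e i) + COL_a (fun e => ω' e i) := by
  have ht := tot_eq hl
  by_cases h0 : tot ω i = 0
  · rw [if_neg (c := tot ω i ≠ 0) (fun h => h h0)]
    by_cases hz : i ∈ Zc ω ω'
    · rw [if_pos hz]
      unfold Zc at hz
      rw [mem_filter] at hz
      obtain ⟨-, -, e, he⟩ := hz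
      by_cases h1 : ∃ e, ω e i ≠ 0
      · by_cases h2 : ∃ e, ω' e i ≠ 0
        · have p1 := COL_a_pos (x := fun e => ω e i) h1
          have p2 := COL_a_pos (x := fun e => ω' e i) h2
          obtain ⟨k1, q1⟩ := COL_even h0
          obtain ⟨k2, q2⟩ := COL_even (ω := ω') (by rw [← ht]; exact h0)
          omega
        · push Not at h2
          have := COL_side hl hr i h1 h2
          omega
      · push Not at h1
        have h2 : ∃ e, ω' e i ≠ 0 := by
          rcases he with he | he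
          · exact absurd (h1 e) he
          · exact ⟨e, he⟩
        have := COL_side hl.symm hr.symm i h2 h1
        omega
    · rw [if_neg hz]
      omega
  · have hz : i ∉ Zc ω ω' := by
      unfold Zc
      rw [mem_filter]
      exact fun h => h0 h.2.1
    rw [if_neg hz, if_pos h0]
    have key : ∀ ψ : {e // e ∈ g} → W n, tot ψ i ≠ 0 → 0 < COL_a (fun e => ψ e i) := by
      intro ψ hψ
      apply COL_a_pos
      by_contra hcon
      push Not at hcon
      apply hψ
      unfold tot
      rw [Finset.sum_apply]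
      exact sum_eq_zero fun e _ => hcon e
    have p1 := key ω h0
    have p2 := key ω' (by rw [← ht]; exact h0)
    omega

theorem COL_sum_wt {g : Finset (ι × κ)} (ω : {e // e ∈ g} → W n) :
    ∑ e, wt (ω e) = ∑ i, COL_a (fun e => ω e i) := by
  have h1 : ∀ e, wt (ω e) = ∑ i, (if ω e i ≠ 0 then 1 else 0) := by
    intro e
    unfold Lin.wt
    rw [card_filter]
  have h2 : ∀ i, COL_a (fun e => ω e i) = ∑ e, (if ω e i ≠ 0 then 1 else 0) := by
    intro i
    unfold COL_a
    rw [card_filter]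
  rw [sum_congr rfl fun e _ => h1 e, sum_congr rfl fun i _ => h2 i, sum_comm]

theorem col_weight {g : Finset (ι × κ)} {ω ω' : {e // e ∈ g} → W n} (hl : lb ω = lb ω')
    (hr : rb ω = rb ω') : 4 * (Zc ω ω').card + 2 * wt (tot ω) ≤
      ∑ e, wt (ω e) + ∑ e, wt (ω' e) := by
  rw [COL_sum_wt, COL_sum_wt, ← sum_add_distrib]
  have h1 : (Zc ω ω').card = ∑ i, (if i ∈ Zc ω ω' then 1 else 0) := by
    rw [← card_filter, filter_mem_eq_inter, univ_inter]
  have h2 : wt (tot ω) = ∑ i, (if tot ω i ≠ 0 then 1 else 0) := by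
    unfold Lin.wt
    rw [card_filter]
  rw [h1, h2, mul_sum, mul_sum, ← sum_add_distrib]
  exact sum_le_sum fun i _ => COL_col hl hr i

/-- every label lives on the active columns -/
theorem col_supp {g : Finset (ι × κ)} {ω ω' : {e // e ∈ g} → W n} (e : {e // e ∈ g}) (i : Fin n)
    (h : ω e i ≠ 0 ∨ ω' e i ≠ 0) : i ∈ Zc ω ω' ∨ tot ω i ≠ 0 := by
  by_cases h0 : tot ω i = 0
  · left
    unfold Zc
    rw [mem_filter]
    exact ⟨mem_univ _, h0, e, h⟩
  · exact Or.inr h0

theorem COL_col1 {g : Finset (ι × κ)} (ω ω' : {e // e ∈ g} → W n) (i : Fin n) :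
    (if i ∈ Zc ω ω' then 1 else 0) + (if tot ω i ≠ 0 then 1 else 0) ≤
      COL_a (fun e => ω e i) + COL_a (fun e => ω' e i) := by
  by_cases h0 : tot ω i = 0
  · rw [if_neg (c := tot ω i ≠ 0) (fun h => h h0)]
    by_cases hz : i ∈ Zc ω ω'
    · rw [if_pos hz]
      unfold Zc at hz
      rw [mem_filter] at hz
      obtain ⟨-, -, e, he⟩ := hz
      rcases he with he | he
      · have := COL_a_pos (x := fun e => ω e i) ⟨e, he⟩
        omega
      · have := COL_a_pos (x := fun e => ω' e i) ⟨e, he⟩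
        omega
    · rw [if_neg hz]
      omega
  · have hz : i ∉ Zc ω ω' := by
      unfold Zc
      rw [mem_filter]
      exact fun h => h0 h.2.1
    rw [if_neg hz, if_pos h0]
    have p1 : 0 < COL_a (fun e => ω e i) := by
      apply COL_a_pos
      by_contra hcon
      push Not at hcon
      apply h0
      unfold tot
      rw [Finset.sum_apply]
      exact sum_eq_zero fun e _ => hcon e
    omega

theorem col_card {g : Finset (ι × κ)} {ω ω' : {e // e ∈ g} → W n} (hl : lb ω = lb ω')
    {c : ι × κ → ℕ} (h : ω ∈ Om n g c) (h' : ω' ∈ Om n g c) :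
    (Zc ω ω').card + wt (tot ω) ≤ 2 * ∑ e ∈ g, c e := by
  have h1 : (Zc ω ω').card + wt (tot ω) ≤ ∑ e, wt (ω e) + ∑ e, wt (ω' e) := by
    rw [COL_sum_wt, COL_sum_wt, ← sum_add_distrib]
    have h1 : (Zc ω ω').card = ∑ i, (if i ∈ Zc ω ω' then 1 else 0) := by
      rw [← card_filter, filter_mem_eq_inter, univ_inter]
    have h2 : wt (tot ω) = ∑ i, (if tot ω i ≠ 0 then 1 else 0) := by
      unfold Lin.wt
      rw [card_filter]
    rw [h1, h2, ← sum_add_distrib]
    exact sum_le_sum fun i _ => COL_col1 ω ω' i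
  have key : ∀ ψ : {e // e ∈ g} → W n, ψ ∈ Om n g c → ∑ e, wt (ψ e) ≤ ∑ e ∈ g, c e := by
    intro ψ hψ
    unfold Om at hψ
    rw [mem_filter] at hψ
    rw [← sum_coe_sort g c]
    exact sum_le_sum fun e _ => hψ.2 e
  have h2 := key ω h
  have h3 := key ω' h'
  omega

end Pool.Agent.Lib.MP_0430e4_lc.L2
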