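import Pool.Agent.Lib.MP_0430e4_lc.Las.EXPN
import Pool.Agent.Lib.MP_0430e4_lc.Las.SETB
import Pool.Agent.Lib.MP_0430e4_lc.Lin.FCoef

/-!
# The Lasserre hierarchy near relative distance 1/2: definitions

`V` is a finite set of points, `g` a finite bipartite graph on the index sets `ι`, `κ`, every edge
`e` carries a function `ψ e` of two points. `form g ψ` is the bilinear form with kernel
`∏ ψ e (α e.1) (β e.2)`. `GB g ψ c`: the square of its (normalised) norm is at most `c`.
-/

set_option autoImplicit false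

namespace Pool.Agent.Lib.MP_0430e4_lc.L2

open Finset
open Lin (W wt chw evW EW al flat SymW)

section general

variable {V : Type*} [Fintype V] {ι κ : Type*} [Fintype ι] [DecidableEq ι] [Fintype κ]
  [DecidableEq κ]

/-- The bilinear form of the graph `g` with the edge functions `ψ`. -/
noncomputable def form (g : Finset (ι × κ)) (ψ : ι × κ → V → V → ℝ) (p : (ι → V) → ℝ)
    (r : (κ → V) → ℝ) : ℝ :=
  ∑ α, ∑ β, (∏ e ∈ g, ψ e (α e.1) (β e.2)) * p α * r β

/-- The square of the normalised norm of the form is at most `c`. -/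
def GB (g : Finset (ι × κ)) (ψ : ι × κ → V → V → ℝ) (c : ℝ) : Prop :=
  ∀ (p : (ι → V) → ℝ) (r : (κ → V) → ℝ), form g ψ p r ^ 2 ≤
    c * (Fintype.card V : ℝ) ^ (Fintype.card ι + Fintype.card κ) *
      ((∑ α, p α ^ 2) * ∑ β, r β ^ 2)

/-- The normalised norm of the function `ψ` of two points is at most `ρ`. -/
def OP (ψ : V → V → ℝ) (ρ : ℝ) : Prop :=
  ∀ p r : V → ℝ, (∑ x, ∑ y, ψ x y * p x * r y) ^ 2 ≤
    ((Fintype.card V : ℝ) * ρ) ^ 2 * ((∑ x, p x ^ 2) * ∑ y, r y ^ 2)

end general

section graphs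

variable {ι κ : Type*} [Fintype ι] [DecidableEq ι] [Fintype κ] [DecidableEq κ]

/-- The isolated edges of `g`. -/
def iso (g : Finset (ι × κ)) : Finset (ι × κ) :=
  g.filter fun e => ∀ e' ∈ g, (e'.1 = e.1 ∨ e'.2 = e.2) → e' = e

end graphs

/-- The even words as a type. -/
abbrev Ev (n : ℕ) := {x : W n // x ∈ evW n}

section labels

variable {n : ℕ} {ι κ : Type*} [Fintype ι] [DecidableEq ι] [Fintype κ] [DecidableEq κ]

/-- The labellings of the edges of `g` by words of weight at most `c e`. -/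
def Om (n : ℕ) (g : Finset (ι × κ)) (c : ι × κ → ℕ) : Finset ({e // e ∈ g} → W n) :=
  univ.filter fun ω => ∀ e, wt (ω e) ≤ c e

/-- The sum of the labels at the left vertex `i`. -/
def lb {g : Finset (ι × κ)} (ω : {e // e ∈ g} → W n) (i : ι) : W n :=
  ∑ e : {e // e ∈ g}, if (e : ι × κ).1 = i then ω e else 0

/-- The sum of the labels at the right vertex `j`. -/
def rb {g : Finset (ι × κ)} (ω : {e // e ∈ g} → W n) (j : κ) : W n :=
  ∑ e : {e // e ∈ g}, if (e : ι × κ).2 = j then ω e else 0

/-- The sum of all labels. -/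
def tot {g : Finset (ι × κ)} (ω : {e // e ∈ g} → W n) : W n := ∑ e, ω e

/-- The sum over the pairs of labellings with the same boundary and with total `ξ` of the products
of the absolute values of the Fourier coefficients: it bounds the square of the norm of the block
of total frequency `ξ`. -/
noncomputable def Fs (g : Finset (ι × κ)) (c : ι × κ → ℕ) (φ : W n → ℝ) (ξ : W n) : ℝ :=
  ∑ ω ∈ Om n g c, ∑ ω' ∈ Om n g c,
    if lb ω = lb ω' ∧ rb ω = rb ω' ∧ tot ω = ξ then (∏ e, |al φ (ω e)|) * ∏ e, |al φ (ω' e)|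
    else 0

end labels

end Pool.Agent.Lib.MP_0430e4_lc.L2
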