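import Pool.Agent.Lib.MP_0430e4_lc.L2.Defs

/-!
# EDG: one edge gives its norm, the other edges their suprema

PROOF. Let `e0 = (i, j)`, `N = card V`. By `Las.sum_update` twice
`N^2 form = ∑_{α,β} ∑_{x,y} (∏_{e ∈ g} ψ e (α[i:=x] e.1) (β[j:=y] e.2)) p(α[i:=x]) r(β[j:=y])`. For fixed `α, β` the product is
`ψ e0 x y * A(x) * B(y) * c`: edges `e ≠ e0` with `e.1 = i` (then `e.2 ≠ j`) depend on `x` only, those with `e.2 = j` on `y` only, the others on
neither. `OP` for `p(α[i:=x]) A(x)` and `r(β[j:=y]) B(y) c` gives the square of the inner sum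
`≤ (N ρ)^2 (∏_{e ≠ e0} B e)^2 (∑_x p(α[i:=x])^2) (∑_y r(β[j:=y])^2)`. Cauchy-Schwarz over `(α, β)`
(`sum_sq_le_sum_mul_sum_of_sq_le_mul`): `∑_{α,β} ∑_x p(α[i:=x])^2 = N^{card κ} N ∑ p^2`, the same for `r`.
So `N^4 form^2 ≤ (ρ ∏ B)^2 N^{card ι + card κ + 4} ...`.
-/

set_option autoImplicit false

namespace Pool.Agent.Lib.MP_0430e4_lc.L2

open Finset

variable {V : Type*} [Fintype V] [DecidableEq V] {ι κ : Type*} [Fintype ι] [DecidableEq ι]
  [Fintype κ] [DecidableEq κ]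

theorem EDG_abs_prod_le {E : Type*} (s : Finset E) (f B : E → ℝ) (h : ∀ e ∈ s, |f e| ≤ B e) :
    |∏ e ∈ s, f e| ≤ ∏ e ∈ s, B e := by
  rw [Finset.abs_prod]
  exact Finset.prod_le_prod (fun e _ => abs_nonneg _) h

theorem EDG_sq_le {T : Type*} [Fintype T] (A u : T → ℝ) {b : ℝ} (hA : ∀ x, |A x| ≤ b) :
    ∑ x, (A x * u x) ^ 2 ≤ b ^ 2 * ∑ x, u x ^ 2 := by
  rw [Finset.mul_sum]
  refine Finset.sum_le_sum (fun x _ => ?_)
  rw [mul_pow]
  refine mul_le_mul_of_nonneg_right ?_ (sq_nonneg _)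
  exact sq_le_sq' (by linarith [neg_abs_le (A x), hA x]) ((le_abs_self _).trans (hA x))

theorem edge_bound [Nonempty V] {g : Finset (ι × κ)} {e₀ : ι × κ} (he : e₀ ∈ g)
    {ψ : ι × κ → V → V → ℝ} {ρ : ℝ} (hρ : 0 ≤ ρ) (hop : OP (ψ e₀) ρ) {B : ι × κ → ℝ}
    (hB0 : ∀ e ∈ g, 0 ≤ B e) (hB : ∀ e ∈ g, e ≠ e₀ → ∀ x y, |ψ e x y| ≤ B e) :
    GB g ψ ((ρ * ∏ e ∈ g.erase e₀, B e) ^ 2) := by
  intro p r
  obtain ⟨i, j⟩ := e₀
  set N : ℝ := (Fintype.card V : ℝ) with hN
  have hN0 : 0 < N := by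
    rw [hN]; exact_mod_cast Fintype.card_pos
  set P : ℝ := ∑ α, p α ^ 2 with hP
  set R : ℝ := ∑ β, r β ^ 2 with hR
  set g1 : Finset (ι × κ) := (g.erase (i, j)).filter (fun e => e.1 = i) with hg1
  set g2 : Finset (ι × κ) := (g.erase (i, j)).filter (fun e => ¬ e.1 = i) with hg2
  set BA : ℝ := ∏ e ∈ g1, B e with hBA
  set BB : ℝ := ∏ e ∈ g2, B e with hBB
  have hBAB : ∏ e ∈ g.erase (i, j), B e = BA * BB :=
    (Finset.prod_filter_mul_prod_filter_not _ _ _).symm
  have hmem1 : ∀ e ∈ g1, e ∈ g ∧ e ≠ (i, j) ∧ e.1 = i := by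
    intro e h
    obtain ⟨h1, h2⟩ := Finset.mem_filter.1 h
    obtain ⟨h3, h4⟩ := Finset.mem_erase.1 h1
    exact ⟨h4, h3, h2⟩
  have hmem2 : ∀ e ∈ g2, e ∈ g ∧ e ≠ (i, j) ∧ ¬ e.1 = i := by
    intro e h
    obtain ⟨h1, h2⟩ := Finset.mem_filter.1 h
    obtain ⟨h3, h4⟩ := Finset.mem_erase.1 h1
    exact ⟨h4, h3, h2⟩
  -- the two factors
  set A : (κ → V) → V → ℝ := fun β x => ∏ e ∈ g1, ψ e x (β e.2) with hA
  set C : (ι → V) → (κ → V) → V → ℝ := fun α β y =>
    ∏ e ∈ g2, ψ e (α e.1) (Function.update β j y e.2) with hC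
  have hAle : ∀ β x, |A β x| ≤ BA := fun β x =>
    EDG_abs_prod_le _ _ _ (fun e h => hB e (hmem1 e h).1 (hmem1 e h).2.1 _ _)
  have hCle : ∀ α β y, |C α β y| ≤ BB := fun α β y =>
    EDG_abs_prod_le _ _ _ (fun e h => hB e (hmem2 e h).1 (hmem2 e h).2.1 _ _)
  set G : (ι → V) → (κ → V) → ℝ := fun α β =>
    (∏ e ∈ g, ψ e (α e.1) (β e.2)) * p α * r β with hG
  have hGfac : ∀ (α : ι → V) (β : κ → V) (x y : V),
      G (Function.update α i x) (Function.update β j y) =
        ψ (i, j) x y * (A β x * p (Function.update α i x)) *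
          (C α β y * r (Function.update β j y)) := by
    intro α β x y
    have h1 : ∏ e ∈ g, ψ e (Function.update α i x e.1) (Function.update β j y e.2) =
        ψ (i, j) x y * (A β x * C α β y) := by
      rw [← Finset.mul_prod_erase g _ he]
      congr 1
      · simp only [Function.update_self]
      · rw [← Finset.prod_filter_mul_prod_filter_not (g.erase (i, j)) (fun e => e.1 = i)]
        congr 1
        · refine Finset.prod_congr rfl (fun e h => ?_)
          obtain ⟨h1, h2, h3⟩ := hmem1 e h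
          have h4 : e.2 ≠ j := fun h5 => h2 (Prod.ext h3 h5)
          rw [h3, Function.update_self, Function.update_of_ne h4]
        · refine Finset.prod_congr rfl (fun e h => ?_)
          obtain ⟨h1, h2, h3⟩ := hmem2 e h
          rw [Function.update_of_ne h3]
    rw [hG]
    simp only [h1]
    ring
  have hsum : N * (N * form g ψ p r) = ∑ α, ∑ β, ∑ x, ∑ y,
      ψ (i, j) x y * (A β x * p (Function.update α i x)) *
          (C α β y * r (Function.update β j y)) := by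
    have e1 : form g ψ p r = ∑ α, ∑ β, G α β := rfl
    have e2 : N * form g ψ p r = ∑ x, ∑ α, ∑ β, G (Function.update α i x) β := by
      rw [e1, hN, ← Las.sum_update i (fun α => ∑ β, G α β)]
    have e3 : ∀ α' : ι → V, N * ∑ β, G α' β = ∑ y, ∑ β, G α' (Function.update β j y) := by
      intro α'
      rw [hN, ← Las.sum_update j (fun β => G α' β)]
    rw [e2, Finset.mul_sum]
    have e4 : ∀ x ∈ (Finset.univ : Finset V), N * ∑ α, ∑ β, G (Function.update α i x) β =
        ∑ α, ∑ β, ∑ y, ψ (i, j) x y * (A β x * p (Function.update α i x)) *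
          (C α β y * r (Function.update β j y)) := by
      intro x _
      rw [Finset.mul_sum]
      refine Finset.sum_congr rfl (fun α _ => ?_)
      rw [e3, Finset.sum_comm]
      refine Finset.sum_congr rfl (fun β _ => Finset.sum_congr rfl (fun y _ => ?_))
      exact hGfac α β x y
    rw [Finset.sum_congr rfl e4, Finset.sum_comm]
    refine Finset.sum_congr rfl (fun α _ => ?_)
    rw [Finset.sum_comm]
  have hin : ∀ α β, (∑ x, ∑ y, ψ (i, j) x y * (A β x * p (Function.update α i x)) *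
      (C α β y * r (Function.update β j y))) ^ 2 ≤
      ((N * ρ) ^ 2 * (BA ^ 2 * ∑ x, p (Function.update α i x) ^ 2)) *
        (BB ^ 2 * ∑ y, r (Function.update β j y) ^ 2) := by
    intro α β
    refine (hop (fun x => A β x * p (Function.update α i x))
      (fun y => C α β y * r (Function.update β j y))).trans ?_
    rw [mul_assoc]
    refine mul_le_mul_of_nonneg_left ?_ (sq_nonneg _)
    exact mul_le_mul (EDG_sq_le _ _ (hAle β)) (EDG_sq_le _ _ (hCle α β))
      (Finset.sum_nonneg (fun _ _ => sq_nonneg _)) (by positivity)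
  have hcs := Finset.sum_sq_le_sum_mul_sum_of_sq_le_mul (Finset.univ : Finset ((ι → V) × (κ → V)))
    (r := fun q => ∑ x, ∑ y, ψ (i, j) x y * (A q.2 x * p (Function.update q.1 i x)) *
      (C q.1 q.2 y * r (Function.update q.2 j y)))
    (f := fun q => (N * ρ) ^ 2 * (BA ^ 2 * ∑ x, p (Function.update q.1 i x) ^ 2))
    (g := fun q => BB ^ 2 * ∑ y, r (Function.update q.2 j y) ^ 2)
    (fun q _ => by positivity) (fun q _ => by positivity) (fun q _ => hin q.1 q.2)
  rw [Fintype.sum_prod_type, Fintype.sum_prod_type, Fintype.sum_prod_type] at hcs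
  simp only at hcs
  rw [← hsum] at hcs
  have h1 : ∑ α : ι → V, ∑ _β : κ → V, (N * ρ) ^ 2 * (BA ^ 2 * ∑ x, p (Function.update α i x) ^ 2) =
      N ^ Fintype.card κ * ((N * ρ) ^ 2 * (BA ^ 2 * (N * P))) := by
    simp only [Finset.sum_const, Finset.card_univ, Fintype.card_fun, nsmul_eq_mul, Nat.cast_pow]
    rw [← Finset.mul_sum, ← Finset.mul_sum, ← Finset.mul_sum, Finset.sum_comm,
      Las.sum_update i (fun α => p α ^ 2)]
  have h2 : ∑ _α : ι → V, ∑ β : κ → V, BB ^ 2 * ∑ y, r (Function.update β j y) ^ 2 =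
      N ^ Fintype.card ι * (BB ^ 2 * (N * R)) := by
    simp only [Finset.sum_const, Finset.card_univ, Fintype.card_fun, nsmul_eq_mul, Nat.cast_pow]
    rw [← Finset.mul_sum, Finset.sum_comm, Las.sum_update j (fun β => r β ^ 2)]
  rw [h1, h2] at hcs
  have h3 : N ^ 4 * form g ψ p r ^ 2 ≤ N ^ 4 * ((ρ * ∏ e ∈ g.erase (i, j), B e) ^ 2 *
      N ^ (Fintype.card ι + Fintype.card κ) * (P * R)) := by
    calc N ^ 4 * form g ψ p r ^ 2 = (N * (N * form g ψ p r)) ^ 2 := by ring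
      _ ≤ N ^ Fintype.card κ * ((N * ρ) ^ 2 * (BA ^ 2 * (N * P))) *
          (N ^ Fintype.card ι * (BB ^ 2 * (N * R))) := hcs
      _ = N ^ 4 * ((ρ * ∏ e ∈ g.erase (i, j), B e) ^ 2 *
      N ^ (Fintype.card ι + Fintype.card κ) * (P * R)) := by
          rw [hBAB, pow_add]; ring
  exact le_of_mul_le_mul_left h3 (by positivity)

end Pool.Agent.Lib.MP_0430e4_lc.L2
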