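import Mathlib

/-!
# NUMA: one term of the counting sum

PROOF. `q = p + l`. `choose n p * (q / n) ^ p ≤ exp q`: `choose n p ≤ n^p / p!`, so the left side is `≤ q^p / p! ≤ exp q`
(`Real.pow_div_factorial_le_exp`). (`p = 0`: 1.) `A = 4 ^ E * exp 1`.
Case `q ≤ Q`: `min x y ≤ sqrt (x y)`: `min (ρ^(2E)) ((q/n)^(2p+l)) ≤ ρ^E (q/n)^p` (`(q/n)^(2p+l) ≤ (q/n)^(2p)`; if `(q/n)^p ≤ ρ^E` use the second,
otherwise the first), so the term is `≤ 4^(E q) exp q ρ^E = A^q ρ^E ≤ A^Q ρ^E`.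
Case `Q < q`: `(q/n)^(2p+l) = (q/n)^p (q/n)^q`, the term is `≤ (A q / n)^q`. The function `x ↦ x log (A x / n)` is decreasing on `(0, n / (A e)]`
(derivative `log (A x / n) + 1 ≤ 0`), so `(A q / n)^q ≤ (A Q / n)^Q`.
-/

set_option autoImplicit false

namespace Pool.Agent.Lib.MP_0430e4_lc.L2

theorem NUMA_choose {n p q : ℕ} (hn : 0 < n) :
    (n.choose p : ℝ) * ((q : ℝ) / n) ^ p ≤ Real.exp q := by
  have h1 : (n.choose p : ℝ) ≤ (n : ℝ) ^ p / (p.factorial : ℝ) := Nat.choose_le_pow_div p n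
  have h2 := Real.pow_div_factorial_le_exp (q : ℝ) (Nat.cast_nonneg _) p
  have hn0 : (0 : ℝ) < n := by exact_mod_cast hn
  calc (n.choose p : ℝ) * ((q : ℝ) / n) ^ p ≤ ((n : ℝ) ^ p / (p.factorial : ℝ)) * ((q : ℝ) / n) ^ p := by
        gcongr
    _ = (q : ℝ) ^ p / (p.factorial : ℝ) := by
        rw [div_pow]
        field_simp
    _ ≤ Real.exp q := h2

theorem NUMA_mono {B : ℝ} {q Q : ℕ} (hB : 0 ≤ B) (hQ : 1 ≤ Q) (hq : Q ≤ q)
    (h : B * q * Real.exp 1 ≤ 1) : (B * q) ^ q ≤ (B * Q) ^ Q := by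
  obtain ⟨k, rfl⟩ := Nat.exists_eq_add_of_le hq
  have hQ0 : (0 : ℝ) < Q := by exact_mod_cast hQ
  have h1 : (B * ((Q + k : ℕ) : ℝ)) ^ k ≤ Real.exp (-(k : ℝ)) := by
    have e1 : B * ((Q + k : ℕ) : ℝ) ≤ Real.exp (-1) := by
      rw [Real.exp_neg, ← one_div, le_div_iff₀ (Real.exp_pos _)]
      exact h
    calc (B * ((Q + k : ℕ) : ℝ)) ^ k ≤ (Real.exp (-1)) ^ k :=
          pow_le_pow_left₀ (mul_nonneg hB (Nat.cast_nonneg _)) e1 k
      _ = Real.exp (-(k : ℝ)) := by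
          rw [← Real.exp_nat_mul]
          congr 1
          ring
  have h2 : (B * ((Q + k : ℕ) : ℝ)) ^ Q ≤ (B * Q) ^ Q * Real.exp k := by
    have e1 : ((Q + k : ℕ) : ℝ) ≤ Q * Real.exp (k / Q) := by
      have e2 := Real.add_one_le_exp ((k : ℝ) / Q)
      have e3 : (Q : ℝ) * ((k : ℝ) / Q + 1) ≤ Q * Real.exp (k / Q) :=
        mul_le_mul_of_nonneg_left e2 hQ0.le
      have e4 : (Q : ℝ) * ((k : ℝ) / Q + 1) = ((Q + k : ℕ) : ℝ) := by
        push_cast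
        field_simp
        ring
      linarith
    calc (B * ((Q + k : ℕ) : ℝ)) ^ Q ≤ (B * (Q * Real.exp (k / Q))) ^ Q := by
          apply pow_le_pow_left₀ (mul_nonneg hB (Nat.cast_nonneg _))
          exact mul_le_mul_of_nonneg_left e1 hB
      _ = (B * Q) ^ Q * Real.exp k := by
          rw [← mul_assoc, mul_pow, ← Real.exp_nat_mul]
          congr 2
          field_simp
  calc (B * ((Q + k : ℕ) : ℝ)) ^ (Q + k) = (B * ((Q + k : ℕ) : ℝ)) ^ Q * (B * ((Q + k : ℕ) : ℝ)) ^ k :=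
        pow_add _ _ _
    _ ≤ ((B * Q) ^ Q * Real.exp k) * Real.exp (-(k : ℝ)) := by
        apply mul_le_mul h2 h1 (pow_nonneg (mul_nonneg hB (Nat.cast_nonneg _)) _)
        positivity
    _ = (B * Q) ^ Q := by
        rw [mul_assoc, ← Real.exp_add, add_neg_cancel, Real.exp_zero, mul_one]

theorem numa_term {n E p l Q : ℕ} {ρ : ℝ} (hn : 0 < n) (hQ : 1 ≤ Q) (hρ0 : 0 ≤ ρ) (hρ1 : ρ ≤ 1)
    (h : (p + l : ℕ) * (4 ^ E * Real.exp 2) ≤ (n : ℝ)) :
    (n.choose p : ℝ) * 4 ^ (E * (p + l)) *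
        min (ρ ^ (2 * E)) ((((p + l : ℕ) : ℝ) / n) ^ (2 * p + l)) ≤
      max ((4 ^ E * Real.exp 1) ^ Q * ρ ^ E) ((4 ^ E * Real.exp 1 * Q / n) ^ Q) := by
  obtain ⟨q, hq⟩ : ∃ q, q = p + l := ⟨_, rfl⟩
  rw [← hq] at h ⊢
  have hn0 : (0 : ℝ) < n := by exact_mod_cast hn
  have h4 : (1 : ℝ) ≤ 4 ^ E := one_le_pow₀ (by norm_num)
  have he1 : (1 : ℝ) ≤ Real.exp 1 := Real.one_le_exp (by norm_num)
  have he2 : (1 : ℝ) ≤ Real.exp 2 := Real.one_le_exp (by norm_num)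
  have hq0 : (0 : ℝ) ≤ q := Nat.cast_nonneg _
  have hD : (1 : ℝ) ≤ 4 ^ E * Real.exp 2 := by nlinarith
  have hqn : (q : ℝ) ≤ n := (le_mul_of_one_le_right hq0 hD).trans h
  have ht0 : 0 ≤ (q : ℝ) / n := by positivity
  have ht1 : (q : ℝ) / n ≤ 1 := by
    rw [div_le_one hn0]
    exact hqn
  have hc := NUMA_choose (p := p) (q := q) hn
  have hA : (1 : ℝ) ≤ 4 ^ E * Real.exp 1 := by nlinarith
  have hAq : Real.exp q * 4 ^ (E * q) = (4 ^ E * Real.exp 1) ^ q := by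
    rw [mul_pow, ← pow_mul, ← Real.exp_nat_mul, mul_one, mul_comm]
  rcases le_or_gt q Q with hqQ | hqQ
  · apply le_max_of_le_left
    obtain ⟨s, hs⟩ : ∃ s : ℝ, s = ((q : ℝ) / n) ^ p := ⟨_, rfl⟩
    have hs0 : 0 ≤ s := by rw [hs]; positivity
    have hr0 : 0 ≤ ρ ^ E := pow_nonneg hρ0 _
    have h1 : ((q : ℝ) / n) ^ (2 * p + l) ≤ s * s := by
      rw [pow_add, two_mul, pow_add, hs]
      exact mul_le_of_le_one_right (by positivity) (pow_le_one₀ ht0 ht1)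
    have h2 : min (ρ ^ (2 * E)) (((q : ℝ) / n) ^ (2 * p + l)) ≤ ρ ^ E * s := by
      rcases le_total s (ρ ^ E) with h3 | h3
      · exact (min_le_right _ _).trans (h1.trans (mul_le_mul_of_nonneg_right h3 hs0))
      · refine (min_le_left _ _).trans ?_
        rw [two_mul, pow_add]
        exact mul_le_mul_of_nonneg_left h3 hr0
    calc (n.choose p : ℝ) * 4 ^ (E * q) * min (ρ ^ (2 * E)) (((q : ℝ) / n) ^ (2 * p + l))
        ≤ (n.choose p : ℝ) * 4 ^ (E * q) * (ρ ^ E * s) :=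
          mul_le_mul_of_nonneg_left h2 (by positivity)
      _ = ((n.choose p : ℝ) * s) * 4 ^ (E * q) * ρ ^ E := by ring
      _ ≤ Real.exp q * 4 ^ (E * q) * ρ ^ E := by
          rw [hs]
          gcongr
      _ = (4 ^ E * Real.exp 1) ^ q * ρ ^ E := by rw [hAq]
      _ ≤ (4 ^ E * Real.exp 1) ^ Q * ρ ^ E :=
          mul_le_mul_of_nonneg_right (pow_le_pow_right₀ hA hqQ) hr0
  · apply le_max_of_le_right
    have h1 : ((q : ℝ) / n) ^ (2 * p + l) = ((q : ℝ) / n) ^ p * ((q : ℝ) / n) ^ q := by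
      rw [← pow_add]
      congr 1
      omega
    have hB : 4 ^ E * Real.exp 1 / n * q * Real.exp 1 ≤ 1 := by
      have e1 : 4 ^ E * Real.exp 1 / n * q * Real.exp 1 = (q * (4 ^ E * Real.exp 2)) / n := by
        have : Real.exp 2 = Real.exp 1 * Real.exp 1 := by
          rw [← Real.exp_add]
          norm_num
        rw [this]
        ring
      rw [e1, div_le_one hn0]
      exact h
    have h3 := NUMA_mono (B := 4 ^ E * Real.exp 1 / n) (by positivity) hQ hqQ.le hB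
    calc (n.choose p : ℝ) * 4 ^ (E * q) * min (ρ ^ (2 * E)) (((q : ℝ) / n) ^ (2 * p + l))
        ≤ (n.choose p : ℝ) * 4 ^ (E * q) * (((q : ℝ) / n) ^ p * ((q : ℝ) / n) ^ q) := by
          rw [← h1]
          exact mul_le_mul_of_nonneg_left (min_le_right _ _) (by positivity)
      _ = ((n.choose p : ℝ) * ((q : ℝ) / n) ^ p) * (4 ^ (E * q) * ((q : ℝ) / n) ^ q) := by ring
      _ ≤ Real.exp q * (4 ^ (E * q) * ((q : ℝ) / n) ^ q) :=
          mul_le_mul_of_nonneg_right hc (by positivity)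
      _ = (4 ^ E * Real.exp 1 / n * q) ^ q := by
          rw [← mul_assoc, hAq, ← mul_pow]
          congr 1
          ring
      _ ≤ (4 ^ E * Real.exp 1 / n * Q) ^ Q := h3
      _ = (4 ^ E * Real.exp 1 * Q / n) ^ Q := by
          congr 1
          ring

end Pool.Agent.Lib.MP_0430e4_lc.L2
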