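import Pool.Agent.Lib.MP_0430e4_lc.TensorEntropy
import Pool.Agent.Lib.MP_0430e4_lc.Las.NUM1

/-!
# NUMB: the thresholds

PROOF of `numb_gamma`. Choose `γ (m-1), γ (m-2), ..., γ 0` downwards: `γ (m-1) = c0` and `γ k ≤ γ (k+1)` with
`binEntropy (γ k) ≤ binEntropy (γ (k+1)) / 4` (`binEntropy` is continuous, `binEntropy 0 = 0`, positive on `(0, 1)`). Then
`∑_{j<k} h (γ j) ≤ h (γ k) / 3`, `μ = (2/3) h (γ 0)` (`h` increasing on `[0, 1/2]`).
PROOF of `numb_ev`. `∑_{q ≤ γ n} choose n q ≤ exp (n h(γ))` (`γ ≤ 1/2`; in the repository in bits: `Las.ball_le`, `Tensor...`), and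
`exp (n h(γ)) ≤ (n + 1) choose n k` for `γ n ≤ k`, `2 k ≤ n` (`Las.choose_ge` in bits: `2 ^ (n H2 γ) = exp (n h(γ))`, `H2 = binEntropy / log 2`),
used for `k = ⌊γ k n⌋ + 1`. So the product is `≤ 4 (n + 1) exp (n (∑_{j ∈ s} h (γ j) - h (γ k))) ≤ 4 (n + 1) exp (- n μ)`.
-/

set_option autoImplicit false

namespace Pool.Agent.Lib.MP_0430e4_lc.L2

open Finset Filter

theorem numb_step {c₀ : ℝ} (h0 : 0 < c₀) (h1 : c₀ < 1 / 2) (x : {x : ℝ // 0 < x ∧ x ≤ c₀}) :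
    ∃ y : {x : ℝ // 0 < x ∧ x ≤ c₀}, Real.binEntropy y.1 ≤ Real.binEntropy x.1 / 4 := by
  have hx : 0 < Real.binEntropy x.1 := Real.binEntropy_pos x.2.1 (by linarith [x.2.2])
  have hc : ContinuousAt Real.binEntropy 0 := Real.binEntropy_continuous.continuousAt
  rw [Metric.continuousAt_iff] at hc
  obtain ⟨η, hη, hη2⟩ := hc (Real.binEntropy x.1 / 4) (by linarith)
  refine ⟨⟨min (η / 2) c₀, lt_min (by linarith) h0, min_le_right _ _⟩, ?_⟩
  have h3 : 0 < min (η / 2) c₀ := lt_min (by linarith) h0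
  have h2 := @hη2 (min (η / 2) c₀) (by
    rw [Real.dist_eq, sub_zero, abs_of_pos h3]
    exact lt_of_le_of_lt (min_le_left _ _) (by linarith))
  rw [Real.dist_eq, Real.binEntropy_zero, sub_zero] at h2
  exact le_trans (le_abs_self _) h2.le

theorem numb_gamma (m : ℕ) {c₀ : ℝ} (h0 : 0 < c₀) (h1 : c₀ < 1 / 2) :
    ∃ (γ : ℕ → ℝ) (μ : ℝ), 0 < μ ∧ (∀ k, 0 < γ k ∧ γ k ≤ c₀) ∧
      ∀ k < m, ∑ j ∈ range k, Real.binEntropy (γ j) + μ ≤ Real.binEntropy (γ k) := by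
  choose f hf using numb_step h0 h1
  let δ : ℕ → {x : ℝ // 0 < x ∧ x ≤ c₀} := fun i => Nat.rec ⟨c₀, h0, le_refl _⟩ (fun _ x => f x) i
  have hδ : ∀ i, Real.binEntropy (δ (i + 1)).1 ≤ Real.binEntropy (δ i).1 / 4 := fun i => hf (δ i)
  obtain ⟨γ, hγ⟩ : ∃ γ : ℕ → ℝ, γ = fun k => (δ (m - 1 - k)).1 := ⟨_, rfl⟩
  have hγ1 : ∀ k, 0 < γ k ∧ γ k ≤ c₀ := fun k => by rw [hγ]; exact (δ (m - 1 - k)).2
  have hpos : ∀ k, 0 < Real.binEntropy (γ k) := fun k =>
    Real.binEntropy_pos (hγ1 k).1 (by linarith [(hγ1 k).2])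
  have hstep : ∀ k, k + 1 < m → Real.binEntropy (γ k) ≤ Real.binEntropy (γ (k + 1)) / 4 := by
    intro k hk
    rw [hγ]
    have h2 := hδ (m - 1 - (k + 1))
    rw [show m - 1 - (k + 1) + 1 = m - 1 - k by omega] at h2
    exact h2
  refine ⟨γ, 2 / 3 * Real.binEntropy (γ 0), by have := hpos 0; positivity, hγ1, ?_⟩
  intro k
  have key : k < m → ∑ j ∈ range k, Real.binEntropy (γ j) ≤ Real.binEntropy (γ k) / 3 ∧
      Real.binEntropy (γ 0) ≤ Real.binEntropy (γ k) := by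
    induction k with
    | zero =>
      intro _
      rw [Finset.sum_range_zero]
      have := hpos 0
      exact ⟨by linarith, le_refl _⟩
    | succ k ih =>
      intro hk
      obtain ⟨i1, i2⟩ := ih (by omega)
      have h2 := hstep k hk
      have h3 := hpos (k + 1)
      rw [Finset.sum_range_succ]
      exact ⟨by linarith, by linarith⟩
  intro hk
  obtain ⟨k1, k2⟩ := key hk
  linarith

theorem numb_exp {μ : ℝ} (hμ : 0 < μ) :
    ∀ᶠ n : ℕ in atTop, 4 * ((n : ℝ) + 1) ≤ Real.exp (n * (μ / 2)) := by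
  have hr : |Real.exp (-(μ / 2))| < 1 := by
    rw [abs_of_pos (Real.exp_pos _)]
    have h6 := Real.exp_lt_exp.mpr (show -(μ / 2) < 0 by linarith)
    rwa [Real.exp_zero] at h6
  have h1 := tendsto_pow_const_mul_const_pow_of_abs_lt_one 1 hr
  have h0 := tendsto_pow_const_mul_const_pow_of_abs_lt_one 0 hr
  have h2 := (h1.add h0).const_mul (4 : ℝ)
  simp only [mul_zero, add_zero, pow_one, pow_zero, one_mul] at h2
  have h3 := h2.eventually_le_const (show (0 : ℝ) < 1 by norm_num)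
  filter_upwards [h3] with n hn
  have h4 : Real.exp (-(μ / 2)) ^ n * Real.exp (n * (μ / 2)) = 1 := by
    rw [← Real.exp_nat_mul, ← Real.exp_add]
    rw [show (n : ℝ) * -(μ / 2) + n * (μ / 2) = 0 by ring, Real.exp_zero]
  have h5 : 0 < Real.exp (n * (μ / 2)) := Real.exp_pos _
  calc 4 * ((n : ℝ) + 1)
      = 4 * ((n : ℝ) + 1) * (Real.exp (-(μ / 2)) ^ n * Real.exp (n * (μ / 2))) := by
        rw [h4, mul_one]
    _ = (4 * ((n : ℝ) * Real.exp (-(μ / 2)) ^ n + Real.exp (-(μ / 2)) ^ n)) *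
          Real.exp (n * (μ / 2)) := by ring
    _ ≤ 1 * Real.exp (n * (μ / 2)) := mul_le_mul_of_nonneg_right hn h5.le
    _ = _ := one_mul _

theorem numb_ev {m : ℕ} {c₀ μ : ℝ} {γ : ℕ → ℝ} (h1 : c₀ < 1 / 2) (hμ : 0 < μ)
    (hγ : ∀ k, 0 < γ k ∧ γ k ≤ c₀)
    (h : ∀ k < m, ∑ j ∈ range k, Real.binEntropy (γ j) + μ ≤ Real.binEntropy (γ k)) :
    ∀ᶠ n : ℕ in atTop, ∀ k < m, ∀ s : Finset ℕ, s ⊆ range k →
      4 / (n.choose (⌊γ k * n⌋₊ + 1) : ℝ) *
        ∏ j ∈ s, (∑ q ∈ range (⌊γ j * n⌋₊ + 1), (n.choose q : ℝ)) ≤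
      Real.exp (-(n * (μ / 2))) := by
  have hev2 : ∀ᶠ n : ℕ in atTop, 2 ≤ (1 - 2 * c₀) * n := by
    have h2 : Tendsto (fun n : ℕ => (1 - 2 * c₀) * (n : ℝ)) atTop atTop :=
      Tendsto.const_mul_atTop (by linarith) tendsto_natCast_atTop_atTop
    exact h2.eventually_ge_atTop 2
  filter_upwards [numb_exp hμ, hev2, eventually_ge_atTop 1] with n hn1 hn2 hn3
  intro k hk s hs
  have hn0 : (0 : ℝ) < n := by exact_mod_cast hn3
  obtain ⟨g1, g2⟩ := hγ k
  have hj1 : γ k * n ≤ ((⌊γ k * n⌋₊ + 1 : ℕ) : ℝ) := by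
    push_cast
    exact (Nat.lt_floor_add_one _).le
  have hfl : (⌊γ k * n⌋₊ : ℝ) ≤ γ k * n := Nat.floor_le (by positivity)
  have hj2 : 2 * (⌊γ k * n⌋₊ + 1) ≤ n := by
    have h3 : (2 : ℝ) * (⌊γ k * n⌋₊ + 1) ≤ n := by nlinarith
    exact_mod_cast h3
  have hch := Las.choose_ge g1 (by linarith) hj1 hj2
  rw [Las.num1_two_rpow] at hch
  have hcpos : (0 : ℝ) < (n.choose (⌊γ k * n⌋₊ + 1) : ℝ) := by
    exact_mod_cast Nat.choose_pos (by omega)
  have hsum : ∀ j ∈ s, (∑ q ∈ range (⌊γ j * n⌋₊ + 1), (n.choose q : ℝ)) ≤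
      Real.exp (n * Real.binEntropy (γ j)) := by
    intro j _
    have h3 := Las.num1_ball_eq n (⌊γ j * n⌋₊ + 1)
    have h4 : Las.ball n (⌊γ j * n⌋₊ + 1) = ∑ q ∈ range (⌊γ j * n⌋₊ + 1), (n.choose q : ℝ) := by
      unfold Las.ball
      push_cast
      rfl
    rw [← h4, h3]
    exact Tensor.card_small_le (hγ j).1 (by linarith [(hγ j).2])
      (Nat.floor_le (mul_nonneg (hγ j).1.le hn0.le))
  have hprod : ∏ j ∈ s, (∑ q ∈ range (⌊γ j * n⌋₊ + 1), (n.choose q : ℝ)) ≤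
      Real.exp (n * (Real.binEntropy (γ k) - μ)) := by
    calc ∏ j ∈ s, (∑ q ∈ range (⌊γ j * n⌋₊ + 1), (n.choose q : ℝ))
        ≤ ∏ j ∈ s, Real.exp (n * Real.binEntropy (γ j)) :=
          Finset.prod_le_prod (fun j _ => Finset.sum_nonneg fun q _ => Nat.cast_nonneg _) hsum
      _ = Real.exp (n * ∑ j ∈ s, Real.binEntropy (γ j)) := by
          rw [← Real.exp_sum, Finset.mul_sum]
      _ ≤ _ := by
          apply Real.exp_le_exp.mpr
          apply mul_le_mul_of_nonneg_left _ hn0.le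
          have h5 : ∑ j ∈ s, Real.binEntropy (γ j) ≤ ∑ j ∈ range k, Real.binEntropy (γ j) := by
            apply Finset.sum_le_sum_of_subset_of_nonneg hs
            intro j _ _
            exact (Real.binEntropy_pos (hγ j).1 (by linarith [(hγ j).2])).le
          have h6 := h k hk
          linarith
  have hprod0 : 0 ≤ ∏ j ∈ s, (∑ q ∈ range (⌊γ j * n⌋₊ + 1), (n.choose q : ℝ)) :=
    Finset.prod_nonneg fun j _ => Finset.sum_nonneg fun q _ => Nat.cast_nonneg _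
  have hinv : 4 / (n.choose (⌊γ k * n⌋₊ + 1) : ℝ) ≤
      4 * (n + 1) * Real.exp (-(n * Real.binEntropy (γ k))) := by
    rw [div_le_iff₀ hcpos]
    have h7 : Real.exp (-(n * Real.binEntropy (γ k))) * Real.exp (n * Real.binEntropy (γ k)) = 1 := by
      rw [← Real.exp_add, neg_add_cancel, Real.exp_zero]
    calc (4 : ℝ) = 4 * (Real.exp (-(n * Real.binEntropy (γ k))) *
          Real.exp (n * Real.binEntropy (γ k))) := by rw [h7, mul_one]
      _ ≤ 4 * (Real.exp (-(n * Real.binEntropy (γ k))) *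
          ((n + 1) * n.choose (⌊γ k * n⌋₊ + 1))) := by
          apply mul_le_mul_of_nonneg_left _ (by norm_num)
          exact mul_le_mul_of_nonneg_left hch (Real.exp_pos _).le
      _ = _ := by ring
  calc 4 / (n.choose (⌊γ k * n⌋₊ + 1) : ℝ) *
        ∏ j ∈ s, (∑ q ∈ range (⌊γ j * n⌋₊ + 1), (n.choose q : ℝ))
      ≤ (4 * (n + 1) * Real.exp (-(n * Real.binEntropy (γ k)))) *
          Real.exp (n * (Real.binEntropy (γ k) - μ)) :=
        mul_le_mul hinv hprod hprod0 (by positivity)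
    _ = (4 * (n + 1)) * Real.exp (-(n * μ)) := by
        rw [mul_assoc, ← Real.exp_add]
        congr 2
        ring
    _ ≤ Real.exp (n * (μ / 2)) * Real.exp (-(n * μ)) :=
        mul_le_mul_of_nonneg_right hn1 (Real.exp_pos _).le
    _ = Real.exp (-(n * (μ / 2))) := by
        rw [← Real.exp_add]
        congr 1
        ring

end Pool.Agent.Lib.MP_0430e4_lc.L2
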