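import Pool.Agent.Lib.MP_0430e4_lc.Lin.NEAR

/-!
# NUMC: the final inequalities near distance 1/2

PROOF. Write `L = ell (1/2 - ε) * log 2`, `Y = ε ^ 2 * log (1/ε)`; `Y ≤ L ≤ 3 Y` by `Lin.ell_near`. Let `K = 3 m + 1`, `Q = ⌈K ε^2 n⌉₊`,
`A = 4 ^ E * exp 1 ≤ 4 ^ m * exp 1 =: B`. For large `n`: `1 ≤ Q ≤ 2 K ε^2 n`. The left side is at most (expand; `E ≤ m`)
(i)   `(m + 1) n exp (n ((3/2) E (2/3 - ζ) L - E (1 - ζ/2) L)) B ^ Q`, and `(3/2) (2/3 - ζ) - (1 - ζ/2) = -ζ`, so the exponent is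
      `- n E ζ L + Q log B ≤ n ε^2 (- ζ log (1/ε) + 2 K log B) ≤ - n ε^2 ζ log (1/ε) / 2` if `log (1/ε) ≥ 4 K log B / ζ`;
(ii)  `(m + 1) n exp (n (3/2) E (2/3) L) (B Q / n) ^ Q`; `B Q / n ≤ 2 K B ε^2`, `≤ ε` if `log (1/ε) ≥ log (2 K B)`; so the exponent is
      `≤ n E 3 Y - Q log (1/ε) ≤ n Y (3 m - K) = - n Y`;
(iii) `(m + 1) m exp (n ((3/2) m L - μ/2))`, and `(3/2) m L ≤ (9/2) m Y ≤ μ / 4` for small `ε`.
Each is `≤ R₀^2 / 3` for large `n`.
`numc_one`: the exponent is `n L (2/3 - ζ - 1 + ζ/2) < 0`.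
-/

set_option autoImplicit false

namespace Pool.Agent.Lib.MP_0430e4_lc.L2

open Finset Filter

theorem numc_tendsto {c : ℝ} (hc : 0 < c) (m : ℕ) : Tendsto (fun n : ℕ =>
    ((m : ℝ) + 1) * ((2 * n + m) * Real.exp (-(n * c)))) atTop (nhds 0) := by
  have hr : |Real.exp (-c)| < 1 := by
    rw [abs_of_pos (Real.exp_pos _)]
    have h6 := Real.exp_lt_exp.mpr (show -c < 0 by linarith)
    rwa [Real.exp_zero] at h6
  have h1 := tendsto_pow_const_mul_const_pow_of_abs_lt_one 1 hr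
  have h0 := tendsto_pow_const_mul_const_pow_of_abs_lt_one 0 hr
  have h2 := (((h1.const_mul 2).add (h0.const_mul (m : ℝ))).const_mul ((m : ℝ) + 1))
  simp only [mul_zero, add_zero, pow_one, pow_zero, one_mul] at h2
  refine h2.congr fun n => ?_
  rw [show -((n : ℝ) * c) = n * (-c) by ring, Real.exp_nat_mul]
  ring

theorem numc_main {m : ℕ} (hm : 1 ≤ m) {ζ μ R₀ : ℝ} (hζ : 0 < ζ) (hζ1 : ζ ≤ 1 / 3) (hμ : 0 < μ)
    (hR₀ : 0 < R₀) : ∃ ε₀ : ℝ, 0 < ε₀ ∧ ε₀ < 1 / 4 ∧ ∀ ε : ℝ, 0 < ε → ε < ε₀ →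
      ∀ᶠ n : ℕ in atTop, ∃ Q : ℕ, 1 ≤ Q ∧ ∀ E : ℕ, 1 ≤ E → E ≤ m →
        Real.exp (n * ((3 / 2) * E * ((2 / 3 - ζ) * (Tensor.ell (1 / 2 - ε) * Real.log 2)))) *
          ((E + 1) * (n * max ((4 ^ E * Real.exp 1) ^ Q *
              Real.exp (-(n * ((1 - ζ / 2) * (Tensor.ell (1 / 2 - ε) * Real.log 2)))) ^ E)
              ((4 ^ E * Real.exp 1 * Q / n) ^ Q) +
            E * Real.exp (-(n * (μ / 2))))) ≤ R₀ ^ 2 := by
  obtain ⟨e0, he0, he0', hnear⟩ := Lin.ell_near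
  have hm' : (1 : ℝ) ≤ m := by exact_mod_cast hm
  obtain ⟨K, hK⟩ : ∃ K : ℝ, K = 3 * m + 1 := ⟨_, rfl⟩
  have hK0 : 0 < K := by rw [hK]; linarith
  obtain ⟨B, hB⟩ : ∃ B : ℝ, B = 4 ^ m * Real.exp 1 := ⟨_, rfl⟩
  have hB1 : 1 < B := by
    rw [hB]
    have h1 : (1 : ℝ) ≤ 4 ^ m := one_le_pow₀ (by norm_num)
    have h2 : (1 : ℝ) < Real.exp 1 := Real.one_lt_exp_iff.mpr one_pos
    nlinarith
  have hB0 : 0 < B := by linarith
  have hlB : 0 < Real.log B := Real.log_pos hB1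
  refine ⟨min (min e0 (1 / (2 * K * B))) (min (Real.exp (-(4 * K * Real.log B / ζ)))
    (μ / (12 * m))), ?_, ?_, ?_⟩
  · refine lt_min (lt_min he0 (by positivity)) (lt_min (Real.exp_pos _) (by positivity))
  · exact lt_of_le_of_lt (le_trans (min_le_left _ _) (min_le_left _ _)) he0'
  intro ε h0 hε
  have hε1 : ε < e0 := lt_of_lt_of_le hε (le_trans (min_le_left _ _) (min_le_left _ _))
  have hε2 : ε < 1 / (2 * K * B) :=
    lt_of_lt_of_le hε (le_trans (min_le_left _ _) (min_le_right _ _))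
  have hε3 : ε < Real.exp (-(4 * K * Real.log B / ζ)) :=
    lt_of_lt_of_le hε (le_trans (min_le_right _ _) (min_le_left _ _))
  have hε4 : ε < μ / (12 * m) :=
    lt_of_lt_of_le hε (le_trans (min_le_right _ _) (min_le_right _ _))
  obtain ⟨hY1, hY2⟩ := hnear ε h0 hε1
  obtain ⟨L, hL⟩ : ∃ L, L = Tensor.ell (1 / 2 - ε) * Real.log 2 := ⟨_, rfl⟩
  obtain ⟨l, hl⟩ : ∃ l, l = Real.log (1 / ε) := ⟨_, rfl⟩
  rw [← hL, ← hl] at hY1 hY2
  simp only [← hL]
  have hl' : l = -Real.log ε := by rw [hl, one_div, Real.log_inv]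
  have hl1 : 4 * K * Real.log B / ζ < l := by
    have h1 := Real.log_lt_log h0 hε3
    rw [Real.log_exp] at h1
    linarith
  have hl0 : 0 < l := lt_of_le_of_lt (by positivity) hl1
  have hl2 : 4 * K * Real.log B < ζ * l := by
    rw [div_lt_iff₀ hζ] at hl1
    linarith
  have hε5 : ε * (2 * K * B) < 1 := by
    rw [lt_div_iff₀ (by positivity)] at hε2
    exact hε2
  obtain ⟨Y, hY⟩ : ∃ Y, Y = ε ^ 2 * l := ⟨_, rfl⟩
  rw [← hY] at hY1 hY2
  have hY0 : 0 < Y := by rw [hY]; positivity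
  have hYε : Y ≤ ε := by
    have h1 : l ≤ 1 / ε - 1 := by
      rw [hl]; exact Real.log_le_sub_one_of_pos (by positivity)
    have h2 : ε * l ≤ 1 := by
      have h3 : ε * l ≤ ε * (1 / ε - 1) := mul_le_mul_of_nonneg_left h1 h0.le
      have h4 : ε * (1 / ε - 1) = 1 - ε := by field_simp
      linarith
    rw [hY]
    nlinarith
  have hYμ : 3 * m * Y ≤ μ / 4 := by
    have h1 : ε * (12 * m) < μ := by
      rw [lt_div_iff₀ (by positivity)] at hε4
      exact hε4
    nlinarith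
  obtain ⟨c, hc⟩ : ∃ c, c = min (min (ζ * Y / 2) Y) (μ / 4) := ⟨_, rfl⟩
  have hc0 : 0 < c := by
    rw [hc]; exact lt_min (lt_min (by positivity) hY0) (by positivity)
  have hc1 : c ≤ ζ * Y / 2 := by
    rw [hc]; exact le_trans (min_le_left _ _) (min_le_left _ _)
  have hc2 : c ≤ Y := by
    rw [hc]; exact le_trans (min_le_left _ _) (min_le_right _ _)
  have hc3 : c ≤ μ / 4 := by
    rw [hc]; exact min_le_right _ _
  have hev := (numc_tendsto hc0 m).eventually_le_const (show (0 : ℝ) < R₀ ^ 2 by positivity)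
  have hev2 : ∀ᶠ n : ℕ in atTop, 1 ≤ K * ε ^ 2 * n := by
    have h1 : Tendsto (fun n : ℕ => K * ε ^ 2 * (n : ℝ)) atTop atTop :=
      Tendsto.const_mul_atTop (by positivity) tendsto_natCast_atTop_atTop
    exact h1.eventually_ge_atTop 1
  filter_upwards [hev, hev2, eventually_ge_atTop 1] with n hn1 hn2 hn3
  have hn0 : (1 : ℝ) ≤ n := by exact_mod_cast hn3
  have hnpos : (0 : ℝ) < n := by linarith
  obtain ⟨Q, hQ⟩ : ∃ Q, Q = ⌈K * ε ^ 2 * n⌉₊ := ⟨_, rfl⟩
  have hQ1 : K * ε ^ 2 * n ≤ Q := by rw [hQ]; exact Nat.le_ceil _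
  have hQ2 : (Q : ℝ) ≤ 2 * (K * ε ^ 2 * n) := by
    have h1 := Nat.ceil_lt_add_one (show 0 ≤ K * ε ^ 2 * n by positivity)
    rw [← hQ] at h1
    linarith
  have hQ3 : 1 ≤ Q := by
    have h1 : (1 : ℝ) ≤ Q := le_trans hn2 hQ1
    exact_mod_cast h1
  refine ⟨Q, hQ3, ?_⟩
  intro E hE1 hEm
  have hE1' : (1 : ℝ) ≤ E := by exact_mod_cast hE1
  have hEm' : (E : ℝ) ≤ m := by exact_mod_cast hEm
  have hL0 : 0 < L := lt_of_lt_of_le hY0 hY1
  obtain ⟨A, hA⟩ : ∃ A : ℝ, A = 4 ^ E * Real.exp 1 := ⟨_, rfl⟩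
  rw [← hA]
  have hA0 : 0 < A := by rw [hA]; positivity
  have hAB : A ≤ B := by
    rw [hA, hB]
    apply mul_le_mul_of_nonneg_right _ (Real.exp_pos _).le
    exact pow_le_pow_right₀ (by norm_num) hEm
  obtain ⟨G, hG⟩ : ∃ G, G = Real.exp (n * ((3 / 2) * E * ((2 / 3 - ζ) * L))) := ⟨_, rfl⟩
  rw [← hG]
  have hG0 : 0 < G := by rw [hG]; exact Real.exp_pos _
  -- the bound of G
  have hG1 : G ≤ Real.exp (n * (3 * m * Y)) := by
    rw [hG]
    apply Real.exp_le_exp.mpr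
    apply mul_le_mul_of_nonneg_left _ hnpos.le
    have h1 : (3 / 2) * E * ((2 / 3 - ζ) * L) ≤ E * L := by
      have h5 : (3 / 2) * E * ((2 / 3 - ζ) * L) = E * L - (3 / 2) * E * ζ * L := by ring
      have h6 : 0 ≤ (3 / 2) * E * ζ * L := by positivity
      linarith
    have h2 : (E : ℝ) * L ≤ m * (3 * Y) := mul_le_mul hEm' hY2 hL0.le (by linarith)
    linarith
  -- the first term
  obtain ⟨P1, hP1⟩ : ∃ P1, P1 = A ^ Q * Real.exp (-(n * ((1 - ζ / 2) * L))) ^ E := ⟨_, rfl⟩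
  obtain ⟨P2, hP2⟩ : ∃ P2, P2 = (A * Q / n) ^ Q := ⟨_, rfl⟩
  rw [← hP1, ← hP2]
  have hP10 : 0 ≤ P1 := by rw [hP1]; positivity
  have hP20 : 0 ≤ P2 := by rw [hP2]; positivity
  have hT1 : G * P1 ≤ Real.exp (-(n * c)) := by
    have h1 : A ^ Q ≤ Real.exp (2 * (K * ε ^ 2 * n) * Real.log B) := by
      calc A ^ Q ≤ B ^ Q := pow_le_pow_left₀ hA0.le hAB Q
        _ = Real.exp (Q * Real.log B) := by
            rw [Real.exp_nat_mul, Real.exp_log hB0]
        _ ≤ _ := Real.exp_le_exp.mpr (mul_le_mul_of_nonneg_right hQ2 hlB.le)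
    rw [hP1, hG, ← Real.exp_nat_mul]
    calc Real.exp (n * ((3 / 2) * E * ((2 / 3 - ζ) * L))) *
          (A ^ Q * Real.exp (E * -(n * ((1 - ζ / 2) * L))))
        ≤ Real.exp (n * ((3 / 2) * E * ((2 / 3 - ζ) * L))) *
          (Real.exp (2 * (K * ε ^ 2 * n) * Real.log B) *
            Real.exp (E * -(n * ((1 - ζ / 2) * L)))) := by
          apply mul_le_mul_of_nonneg_left _ (Real.exp_pos _).le
          exact mul_le_mul_of_nonneg_right h1 (Real.exp_pos _).le
      _ = Real.exp (n * (2 * (K * ε ^ 2) * Real.log B - E * ζ * L)) := by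
          rw [← Real.exp_add, ← Real.exp_add]
          congr 1
          ring
      _ ≤ Real.exp (-(n * c)) := by
          apply Real.exp_le_exp.mpr
          rw [← mul_neg]
          apply mul_le_mul_of_nonneg_left _ hnpos.le
          have h2 : ζ * Y ≤ E * ζ * L := by
            have h3 : ζ * Y ≤ ζ * L := mul_le_mul_of_nonneg_left hY1 hζ.le
            calc ζ * Y ≤ ζ * L := h3
              _ = 1 * (ζ * L) := (one_mul _).symm
              _ ≤ E * (ζ * L) := mul_le_mul_of_nonneg_right hE1' (by positivity)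
              _ = E * ζ * L := by ring
          have h4 : 2 * (K * ε ^ 2) * Real.log B ≤ ζ * Y / 2 := by
            rw [hY]
            have h5 : ε ^ 2 * (2 * K * Real.log B) ≤ ε ^ 2 * (ζ * l / 2) :=
              mul_le_mul_of_nonneg_left (by linarith) (by positivity)
            calc 2 * (K * ε ^ 2) * Real.log B = ε ^ 2 * (2 * K * Real.log B) := by ring
              _ ≤ ε ^ 2 * (ζ * l / 2) := h5
              _ = ζ * (ε ^ 2 * l) / 2 := by ring
          linarith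
  have hT2 : G * P2 ≤ Real.exp (-(n * c)) := by
    have h1 : A * Q / n ≤ ε := by
      rw [div_le_iff₀ hnpos]
      calc A * Q ≤ B * (2 * (K * ε ^ 2 * n)) :=
            mul_le_mul hAB hQ2 (Nat.cast_nonneg _) hB0.le
        _ = (ε * (2 * K * B)) * (ε * n) := by ring
        _ ≤ 1 * (ε * n) := mul_le_mul_of_nonneg_right hε5.le (by positivity)
        _ = ε * n := one_mul _
    have h2 : P2 ≤ Real.exp (-(K * ε ^ 2 * n) * l) := by
      rw [hP2]
      calc (A * Q / n) ^ Q ≤ ε ^ Q := pow_le_pow_left₀ (by positivity) h1 Q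
        _ = Real.exp (Q * Real.log ε) := by
            rw [Real.exp_nat_mul, Real.exp_log h0]
        _ ≤ _ := by
            apply Real.exp_le_exp.mpr
            have h5 : Real.log ε = -l := by rw [hl']; ring
            have h6 := mul_le_mul_of_nonneg_right hQ1 hl0.le
            rw [h5]
            linarith
    calc G * P2 ≤ Real.exp (n * (3 * m * Y)) * Real.exp (-(K * ε ^ 2 * n) * l) :=
          mul_le_mul hG1 h2 hP20 (Real.exp_pos _).le
      _ = Real.exp (-(n * Y)) := by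
          rw [← Real.exp_add]
          congr 1
          rw [hY, hK]
          ring
      _ ≤ _ := by
          apply Real.exp_le_exp.mpr
          have := mul_le_mul_of_nonneg_left hc2 hnpos.le
          linarith
  have hT3 : G * Real.exp (-(n * (μ / 2))) ≤ Real.exp (-(n * c)) := by
    calc G * Real.exp (-(n * (μ / 2))) ≤ Real.exp (n * (3 * m * Y)) *
          Real.exp (-(n * (μ / 2))) := mul_le_mul_of_nonneg_right hG1 (Real.exp_pos _).le
      _ = Real.exp (n * (3 * m * Y - μ / 2)) := by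
          rw [← Real.exp_add]
          congr 1
          ring
      _ ≤ _ := by
          apply Real.exp_le_exp.mpr
          rw [← mul_neg]
          apply mul_le_mul_of_nonneg_left _ hnpos.le
          linarith
  have hmax : max P1 P2 ≤ P1 + P2 := max_le (by linarith) (by linarith)
  have hX0 : 0 < Real.exp (-(n * c)) := Real.exp_pos _
  calc G * ((E + 1) * (n * max P1 P2 + E * Real.exp (-(n * (μ / 2)))))
      ≤ G * ((E + 1) * (n * (P1 + P2) + E * Real.exp (-(n * (μ / 2))))) := by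
        apply mul_le_mul_of_nonneg_left _ hG0.le
        apply mul_le_mul_of_nonneg_left _ (by positivity)
        have := mul_le_mul_of_nonneg_left hmax hnpos.le
        linarith
    _ = (E + 1) * (n * (G * P1 + G * P2) + E * (G * Real.exp (-(n * (μ / 2))))) := by ring
    _ ≤ (E + 1) * (n * (Real.exp (-(n * c)) + Real.exp (-(n * c))) +
          m * Real.exp (-(n * c))) := by
        apply mul_le_mul_of_nonneg_left _ (by positivity)
        have h1 : (n : ℝ) * (G * P1 + G * P2) ≤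
            n * (Real.exp (-(n * c)) + Real.exp (-(n * c))) :=
          mul_le_mul_of_nonneg_left (by linarith) hnpos.le
        have h2 : (E : ℝ) * (G * Real.exp (-(n * (μ / 2)))) ≤ m * Real.exp (-(n * c)) :=
          mul_le_mul hEm' hT3 (by positivity) (by linarith)
        linarith
    _ ≤ (m + 1) * (n * (Real.exp (-(n * c)) + Real.exp (-(n * c))) +
          m * Real.exp (-(n * c))) := by
        apply mul_le_mul_of_nonneg_right (by linarith)
        positivity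
    _ = ((m : ℝ) + 1) * ((2 * n + m) * Real.exp (-(n * c))) := by ring
    _ ≤ R₀ ^ 2 := hn1

theorem numc_one {ζ R₀ L : ℝ} (hζ : 0 < ζ) (hζ1 : ζ ≤ 1 / 3) (hL : 0 < L) (hR₀ : 0 < R₀) :
    ∀ᶠ n : ℕ in atTop, Real.exp (n * ((2 / 3 - ζ) * L)) * Real.exp (-(n * ((1 - ζ / 2) * L))) ≤
      min R₀ 1 := by
  have hr : |Real.exp (-(L * (1 / 3 + ζ / 2)))| < 1 := by
    rw [abs_of_pos (Real.exp_pos _)]
    have h5 : 0 < L * (1 / 3 + ζ / 2) := by positivity
    have h6 := Real.exp_lt_exp.mpr (show -(L * (1 / 3 + ζ / 2)) < 0 by linarith)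
    rwa [Real.exp_zero] at h6
  have h1 := tendsto_pow_const_mul_const_pow_of_abs_lt_one 0 hr
  simp only [pow_zero, one_mul] at h1
  have h2 := h1.eventually_le_const (show (0 : ℝ) < min R₀ 1 from lt_min hR₀ one_pos)
  filter_upwards [h2] with n hn
  refine le_trans (le_of_eq ?_) hn
  rw [← Real.exp_add, ← Real.exp_nat_mul]
  congr 1
  ring

end Pool.Agent.Lib.MP_0430e4_lc.L2
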