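import Pool.Agent.Lib.MP_0430e4_lc.L2.Defs

/-!
# PEEL: isolated edges

PROOF of `peel`. Induction on the number of isolated edges: if `e ∈ iso g` then `iso (g.erase e) = (iso g).erase e` and
`g.erase e \ iso (g.erase e) = g \ iso g`; the kernel of `g.erase e` does not depend on `α e.1` and on `β e.2`, so
`Las.step_edge` multiplies the bound by `ρ ^ 2`. (If `iso g = ∅` there is nothing to prove.)
PROOF of `peel_count`. Each vertex has an edge, so `card ι + card κ = ∑_{e ∈ g} (1 / deg e.1 + 1 / deg e.2)`; an isolated edge contributes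
2, every other edge at most 3/2. (Or: choose for every vertex of degree 1 ...; any proof.)
-/

set_option autoImplicit false

namespace Pool.Agent.Lib.MP_0430e4_lc.L2

open Finset

section count

variable {ι κ : Type*} [Fintype ι] [DecidableEq ι] [Fintype κ] [DecidableEq κ]

theorem peel_mem_iso {g : Finset (ι × κ)} {e : ι × κ} :
    e ∈ iso g ↔ e ∈ g ∧ ∀ e' ∈ g, (e'.1 = e.1 ∨ e'.2 = e.2) → e' = e := by
  unfold iso
  rw [mem_filter]

theorem peel_iso_erase {g : Finset (ι × κ)} {e : ι × κ} (he : e ∈ iso g) :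
    iso (g.erase e) = (iso g).erase e := by
  rw [peel_mem_iso] at he
  ext x
  rw [mem_erase, peel_mem_iso, peel_mem_iso]
  constructor
  · rintro ⟨h1, h2⟩
    rw [mem_erase] at h1
    refine ⟨h1.1, h1.2, fun e' he' h3 => ?_⟩
    by_cases h4 : e' = e
    · subst h4
      exact absurd (he.2 x h1.2 (h3.imp Eq.symm Eq.symm)) h1.1
    · exact h2 e' (mem_erase.2 ⟨h4, he'⟩) h3
  · rintro ⟨h1, h2, h3⟩
    exact ⟨mem_erase.2 ⟨h1, h2⟩, fun e' he' h4 => h3 e' (mem_of_mem_erase he') h4⟩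

theorem peel_sdiff_erase {g : Finset (ι × κ)} {e : ι × κ} (he : e ∈ iso g) :
    g.erase e \ iso (g.erase e) = g \ iso g := by
  rw [peel_iso_erase he]
  ext x
  simp only [mem_sdiff, mem_erase]
  constructor
  · rintro ⟨⟨h1, h2⟩, h3⟩
    exact ⟨h2, fun h4 => h3 ⟨h1, h4⟩⟩
  · rintro ⟨h1, h2⟩
    refine ⟨⟨?_, h1⟩, fun h3 => h2 h3.2⟩
    rintro rfl
    exact h2 he

theorem peel_fiber {τ E : Type*} [Fintype τ] [DecidableEq τ] (g : Finset E) (f : E → τ)
    (hf : ∀ i, ∃ e ∈ g, f e = i) :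
    ∑ e ∈ g, (1 : ℚ) / ((g.filter fun e' => f e' = f e).card : ℚ) = Fintype.card τ := by
  rw [← Finset.sum_fiberwise_of_maps_to (s := g) (t := (univ : Finset τ)) (g := f)
    (fun _ _ => mem_univ _) (fun e => (1 : ℚ) / ((g.filter fun e' => f e' = f e).card : ℚ))]
  have h2 : ∀ i ∈ (univ : Finset τ), ∑ e ∈ g.filter (fun e => f e = i),
      (1 : ℚ) / ((g.filter fun e' => f e' = f e).card : ℚ) = 1 := by
    intro i _
    have h3 : ∀ e ∈ g.filter (fun e => f e = i),
        (1 : ℚ) / ((g.filter fun e' => f e' = f e).card : ℚ) =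
          1 / ((g.filter fun e' => f e' = i).card : ℚ) := by
      intro e he
      rw [(mem_filter.1 he).2]
    rw [sum_congr rfl h3, sum_const, nsmul_eq_mul]
    have h4 : (g.filter fun e' => f e' = i).Nonempty := by
      obtain ⟨e, he, hei⟩ := hf i
      exact ⟨e, mem_filter.2 ⟨he, hei⟩⟩
    have h5 : ((g.filter fun e' => f e' = i).card : ℚ) ≠ 0 := by
      exact_mod_cast (card_pos.2 h4).ne'
    rw [mul_one_div, div_self h5]
  rw [sum_congr rfl h2, sum_const, nsmul_eq_mul, mul_one, card_univ]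

theorem peel_count {g : Finset (ι × κ)} (hl : Las.lft g = univ) (hr : Las.rgt g = univ) :
    2 * (Fintype.card ι + Fintype.card κ) ≤ 4 * (iso g).card + 3 * (g \ iso g).card := by
  have h1 := peel_fiber g Prod.fst (fun i => by
    have h2 : i ∈ Las.lft g := by rw [hl]; exact mem_univ _
    unfold Las.lft at h2
    exact mem_image.1 h2)
  have h2 := peel_fiber g Prod.snd (fun i => by
    have h2 : i ∈ Las.rgt g := by rw [hr]; exact mem_univ _
    unfold Las.rgt at h2
    exact mem_image.1 h2)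
  set d1 : ι × κ → ℕ := fun e => (g.filter fun e' => e'.1 = e.1).card with hd1
  set d2 : ι × κ → ℕ := fun e => (g.filter fun e' => e'.2 = e.2).card with hd2
  have h3 : ∑ e ∈ g, ((1 : ℚ) / (d1 e : ℚ) + 1 / (d2 e : ℚ)) =
      Fintype.card ι + Fintype.card κ := by
    rw [sum_add_distrib, h1, h2]
  have hsub : iso g ⊆ g := by
    unfold iso
    exact filter_subset _ _
  have hp1 : ∀ e ∈ g, (1 : ℚ) ≤ d1 e := by
    intro e he
    have : 0 < d1 e := card_pos.2 ⟨e, mem_filter.2 ⟨he, rfl⟩⟩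
    exact_mod_cast this
  have hp2 : ∀ e ∈ g, (1 : ℚ) ≤ d2 e := by
    intro e he
    have : 0 < d2 e := card_pos.2 ⟨e, mem_filter.2 ⟨he, rfl⟩⟩
    exact_mod_cast this
  have hq1 : ∀ e ∈ g, (1 : ℚ) / d1 e ≤ 1 := fun e he => by
    rw [div_le_one (by linarith [hp1 e he])]
    exact hp1 e he
  have hq2 : ∀ e ∈ g, (1 : ℚ) / d2 e ≤ 1 := fun e he => by
    rw [div_le_one (by linarith [hp2 e he])]
    exact hp2 e he
  have hhalf : ∀ d : ℕ, 2 ≤ d → (1 : ℚ) / d ≤ 1 / 2 := by
    intro d hd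
    apply one_div_le_one_div_of_le (by norm_num)
    exact_mod_cast hd
  have h4 : ∑ e ∈ iso g, ((1 : ℚ) / (d1 e : ℚ) + 1 / (d2 e : ℚ)) ≤ (iso g).card * 2 := by
    refine (sum_le_card_nsmul _ _ 2 fun e he => ?_).trans (le_of_eq (nsmul_eq_mul _ _))
    have := hq1 e (hsub he)
    have := hq2 e (hsub he)
    linarith
  have h5 : ∑ e ∈ g \ iso g, ((1 : ℚ) / (d1 e : ℚ) + 1 / (d2 e : ℚ)) ≤
      (g \ iso g).card * (3 / 2) := by
    refine (sum_le_card_nsmul _ _ (3 / 2) fun e he => ?_).trans (le_of_eq (nsmul_eq_mul _ _))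
    rw [mem_sdiff, peel_mem_iso] at he
    obtain ⟨he1, he2⟩ := he
    have h6 : ∃ e' ∈ g, (e'.1 = e.1 ∨ e'.2 = e.2) ∧ e' ≠ e := by
      by_contra h7
      push Not at h7
      exact he2 ⟨he1, h7⟩
    obtain ⟨e', he', h7, h8⟩ := h6
    have a1 := hq1 e he1
    have a2 := hq2 e he1
    rcases h7 with h7 | h7
    · have h9 : 2 ≤ d1 e := by
        have : 1 < d1 e := one_lt_card.2 ⟨e', mem_filter.2 ⟨he', h7⟩, e,
          mem_filter.2 ⟨he1, rfl⟩, h8⟩
        omega
      have := hhalf _ h9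
      linarith
    · have h9 : 2 ≤ d2 e := by
        have : 1 < d2 e := one_lt_card.2 ⟨e', mem_filter.2 ⟨he', h7⟩, e,
          mem_filter.2 ⟨he1, rfl⟩, h8⟩
        omega
      have := hhalf _ h9
      linarith
  rw [← sum_sdiff hsub] at h3
  have h6 : (2 : ℚ) * (Fintype.card ι + Fintype.card κ) ≤
      4 * (iso g).card + 3 * (g \ iso g).card := by linarith
  exact_mod_cast h6

end count

variable {V : Type*} [Fintype V] [DecidableEq V] {ι κ : Type*} [Fintype ι] [DecidableEq ι]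
  [Fintype κ] [DecidableEq κ]

theorem peel_gb {Φ : V → V → ℝ} {g : Finset (ι × κ)} {c : ℝ} :
    GB g (fun _ x y => Φ x y - 1) c ↔
      Las.GB Φ (c * (Fintype.card V : ℝ) ^ (Fintype.card ι + Fintype.card κ)) g := Iff.rfl

theorem peel_aux [Nonempty V] {Φ : V → V → ℝ} {θ σ ρ : ℝ} (h : Las.Ker Φ θ σ ρ) {c : ℝ}
    (hc : 0 ≤ c) : ∀ (k : ℕ) (g : Finset (ι × κ)), (iso g).card = k →
    Las.GB Φ c (g \ iso g) → Las.GB Φ ((ρ ^ 2) ^ k * c) g := by
  intro k
  induction k with
  | zero =>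
    intro g hg hB
    rw [card_eq_zero] at hg
    rw [hg, sdiff_empty] at hB
    rw [pow_zero, one_mul]
    exact hB
  | succ k ih =>
    intro g hg hB
    have hne : (iso g).Nonempty := by
      rw [← card_pos]
      omega
    obtain ⟨⟨i, j⟩, he⟩ := hne
    have h1 : (iso (g.erase (i, j))).card = k := by
      rw [peel_iso_erase he, card_erase_of_mem he, hg]
      rfl
    have h2 := ih (g.erase (i, j)) h1 (by rw [peel_sdiff_erase he]; exact hB)
    rw [peel_mem_iso] at he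
    have h3 := Las.grn2_edge h he.1
      (fun e he' h4 => (mem_erase.1 he').1 (he.2 e (mem_of_mem_erase he') (Or.inl h4)))
      (fun e he' h4 => (mem_erase.1 he').1 (he.2 e (mem_of_mem_erase he') (Or.inr h4)))
      (by positivity) h2
    rw [pow_succ, mul_comm ((ρ ^ 2) ^ k), mul_assoc]
    exact h3

theorem peel [Nonempty V] {Φ : V → V → ℝ} {θ σ ρ : ℝ} (h : Las.Ker Φ θ σ ρ)
    {g : Finset (ι × κ)} {c : ℝ} (hc : 0 ≤ c)
    (hB : GB (g \ iso g) (fun _ x y => Φ x y - 1) c) :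
    GB g (fun _ x y => Φ x y - 1) ((ρ ^ 2) ^ (iso g).card * c) := by
  rw [peel_gb] at hB ⊢
  rw [mul_assoc]
  exact peel_aux h (by positivity) _ g rfl hB

/-- the empty graph -/
theorem gb_empty [Nonempty V] (ψ : ι × κ → V → V → ℝ) : GB (∅ : Finset (ι × κ)) ψ 1 := by
  intro p r
  unfold form
  simp only [prod_empty]
  rw [one_mul]
  exact Las.grn2_empty p r

end Pool.Agent.Lib.MP_0430e4_lc.L2
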