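import Pool.Agent.Lib.MP_0430e4_lc.L2.BLK
import Pool.Agent.Lib.MP_0430e4_lc.L2.BES

/-!
# FRM: the form of a graph with low frequency edges

PROOF. `flat (c e) φ (x + y) = ∑_{wt w ≤ c e} al φ w chw w x chw w y` (`Lin.chw_add`, `Lin.chw_comm`). Expanding the product
(`Finset.prod_univ_sum`, write the product over `e ∈ g` as a product over the subtype):
`form = ∑_{ω ∈ Om n g c} (∏ al φ (ω e)) P(lb ω) R(rb ω)`, `P X = ∑_α p α ∏_i chw (X i) (α i)`, `R Y = ∑_β r β ∏_j chw (Y j) (β j)`,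
because `∏_e chw (ω e) (α e.1) = ∏_i chw (lb ω i) (α i)`. Apply `block` with `f = lb`, `g = rb`, `hA X = ∑ i, X i`, `hB Y = ∑ j, Y j`
(`∑_i lb ω i = tot ω = ∑_j rb ω j`, lemmas `sum_lb`, `sum_rb`), and `bessel` twice (`wt (lb ω i) ≤ ∑ c e`).
-/

set_option autoImplicit false

namespace Pool.Agent.Lib.MP_0430e4_lc.L2

open Finset
open Lin (W wt chw evW EW al flat SymW)

variable {n : ℕ} {ι κ : Type*} [Fintype ι] [DecidableEq ι] [Fintype κ] [DecidableEq κ]

theorem sum_lb {g : Finset (ι × κ)} (ω : {e // e ∈ g} → W n) : ∑ i, lb ω i = tot ω := by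
  unfold lb tot
  rw [sum_comm]
  refine sum_congr rfl fun e _ => ?_
  rw [sum_ite_eq, if_pos (mem_univ _)]

theorem sum_rb {g : Finset (ι × κ)} (ω : {e // e ∈ g} → W n) : ∑ j, rb ω j = tot ω := by
  unfold rb tot
  rw [sum_comm]
  refine sum_congr rfl fun e _ => ?_
  rw [sum_ite_eq, if_pos (mem_univ _)]

theorem frm_chw_sum {E : Type*} (s : Finset E) (f : E → W n) (x : W n) :
    chw (∑ e ∈ s, f e) x = ∏ e ∈ s, chw (f e) x := by
  classical
  induction s using Finset.induction_on with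
  | empty => rw [sum_empty, prod_empty, Lin.chw_zero]
  | insert a s ha ih => rw [sum_insert ha, prod_insert ha, Lin.chw_add, ih]

theorem frm_wt_sum {E : Type*} (s : Finset E) (f : E → W n) :
    wt (∑ e ∈ s, f e) ≤ ∑ e ∈ s, wt (f e) := by
  classical
  induction s using Finset.induction_on with
  | empty => rw [sum_empty, sum_empty]; simp [wt]
  | insert a s ha ih =>
    rw [sum_insert ha, sum_insert ha]
    exact (bes_wt_add _ _).trans (Nat.add_le_add_left ih _)

/-- the product of the characters over the vertices is the product over the edges -/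
theorem frm_prod {E V : Type*} [Fintype E] [Fintype V] [DecidableEq V] (q : E → V) (ω : E → W n)
    (α : V → W n) :
    ∏ i, chw (∑ e : E, if q e = i then ω e else 0) (α i) = ∏ e, chw (ω e) (α (q e)) := by
  have h1 : ∀ i, chw (∑ e : E, if q e = i then ω e else 0) (α i) =
      ∏ e : E, if q e = i then chw (ω e) (α i) else 1 := by
    intro i
    rw [frm_chw_sum]
    refine prod_congr rfl fun e _ => ?_
    split_ifs
    · rfl
    · exact Lin.chw_zero _
  rw [prod_congr rfl fun i _ => h1 i, prod_comm]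
  refine prod_congr rfl fun e _ => ?_
  rw [prod_ite_eq, if_pos (mem_univ _)]

theorem frm_wt_le {E V : Type*} [Fintype E] [Fintype V] [DecidableEq V] (q : E → V) (ω : E → W n)
    (i : V) : wt (∑ e : E, if q e = i then ω e else 0) ≤ ∑ e, wt (ω e) := by
  refine (frm_wt_sum _ _).trans (sum_le_sum fun e _ => ?_)
  split_ifs
  · exact le_rfl
  · simp [wt]

theorem frm_flat_add (c : ℕ) (φ : W n → ℝ) (x y : W n) :
    flat c φ (x + y) = ∑ w ∈ univ.filter (fun w : W n => wt w ≤ c), al φ w * (chw w x * chw w y) := by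
  unfold flat
  refine sum_congr rfl fun w _ => ?_
  rw [Lin.chw_comm w (x + y), Lin.chw_add, Lin.chw_comm x w, Lin.chw_comm y w]

theorem frm_Om (g : Finset (ι × κ)) (c : ι × κ → ℕ) :
    Om n g c = Fintype.piFinset fun e : {e // e ∈ g} => univ.filter (fun w : W n => wt w ≤ c e) := by
  ext ω
  rw [Fintype.mem_piFinset]
  unfold Om
  simp only [mem_filter, mem_univ, true_and]

theorem flat_form (hn : 0 < n) {g : Finset (ι × κ)} {c : ι × κ → ℕ} (hc : 2 * ∑ e ∈ g, c e < n)
    {φ : W n → ℝ} {F : ℝ} (hF : ∀ ξ, Fs g c φ ξ ≤ F) :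
    GB (V := Ev n) g (fun e x y => flat (c e) φ ((x : W n) + y)) F := by
  intro p r
  set P : (ι → W n) → ℝ := fun X => ∑ α : ι → Ev n, p α * ∏ i, chw (X i) (α i : W n) with hP
  set R : (κ → W n) → ℝ := fun Y => ∑ β : κ → Ev n, r β * ∏ j, chw (Y j) (β j : W n) with hR
  have hkey : ∀ (α : ι → Ev n) (β : κ → Ev n),
      (∏ e ∈ g, flat (c e) φ ((α e.1 : W n) + β e.2)) =
        ∑ ω ∈ Om n g c, (∏ e, al φ (ω e)) *
          ((∏ i, chw (lb ω i) (α i : W n)) * ∏ j, chw (rb ω j) (β j : W n)) := by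
    intro α β
    have h1 : (∏ e ∈ g, flat (c e) φ ((α e.1 : W n) + β e.2)) =
        ∏ e : {e // e ∈ g}, ∑ w ∈ univ.filter (fun w : W n => wt w ≤ c e),
          al φ w * (chw w (α (e : ι × κ).1 : W n) * chw w (β (e : ι × κ).2 : W n)) := by
      rw [← prod_coe_sort g]
      exact prod_congr rfl fun e _ => frm_flat_add _ _ _ _
    rw [h1, prod_univ_sum, ← frm_Om]
    refine sum_congr rfl fun ω _ => ?_
    rw [prod_mul_distrib, prod_mul_distrib]
    congr 1
    congr 1
    · exact (frm_prod (fun e : {e // e ∈ g} => (e : ι × κ).1) ω (fun i => (α i : W n))).symm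
    · exact (frm_prod (fun e : {e // e ∈ g} => (e : ι × κ).2) ω (fun j => (β j : W n))).symm
  have hform : form g (fun e (x y : Ev n) => flat (c e) φ ((x : W n) + y)) p r =
      ∑ ω ∈ Om n g c, (∏ e, al φ (ω e)) * P (lb ω) * R (rb ω) := by
    unfold form
    have h2 : ∀ (α : ι → Ev n) (β : κ → Ev n),
        (∏ e ∈ g, flat (c e) φ ((α e.1 : W n) + β e.2)) * p α * r β =
          ∑ ω ∈ Om n g c, (∏ e, al φ (ω e)) * ((p α * ∏ i, chw (lb ω i) (α i : W n)) *
            (r β * ∏ j, chw (rb ω j) (β j : W n))) := by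
      intro α β
      rw [hkey, sum_mul, sum_mul]
      exact sum_congr rfl fun ω _ => by ring
    rw [sum_congr rfl fun α _ => sum_congr rfl fun β _ => h2 α β]
    rw [sum_congr rfl fun α _ => sum_comm, sum_comm]
    refine sum_congr rfl fun ω _ => ?_
    rw [mul_assoc, hP, hR, sum_mul_sum, mul_sum]
    exact sum_congr rfl fun α _ => (mul_sum _ _ _).symm
  have hF0 : 0 ≤ F := by
    refine le_trans ?_ (hF 0)
    unfold Fs
    refine sum_nonneg fun ω _ => sum_nonneg fun ω' _ => ?_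
    split_ifs
    · exact mul_nonneg (prod_nonneg fun _ _ => abs_nonneg _) (prod_nonneg fun _ _ => abs_nonneg _)
    · exact le_rfl
  have hblk := block (Om n g c) (fun ω => lb ω) (fun ω => rb ω) (fun X : ι → W n => ∑ i, X i)
    (fun Y : κ → W n => ∑ j, Y j) (fun ω _ => (sum_lb ω).trans (sum_rb ω).symm)
    (fun ω => ∏ e, al φ (ω e)) P R (F := F) (fun z => by
      refine le_trans (le_of_eq ?_) (hF z)
      unfold Fs
      refine sum_congr rfl fun ω _ => sum_congr rfl fun ω' _ => ?_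
      simp only [sum_lb, abs_prod])
  rw [← hform] at hblk
  refine hblk.trans ?_
  have hw : ∀ ω ∈ Om n g c, ∑ e, wt (ω e) ≤ ∑ e ∈ g, c e := by
    intro ω hω
    unfold Om at hω
    rw [← sum_coe_sort g]
    exact sum_le_sum fun e _ => (mem_filter.1 hω).2 e
  have hA : ∑ X ∈ (Om n g c).image (fun ω => lb ω), P X ^ 2 ≤
      (Fintype.card (Ev n) : ℝ) ^ Fintype.card ι * ∑ α, p α ^ 2 := by
    refine bessel hn hc _ (fun X hX i => ?_) p
    obtain ⟨ω, hω, rfl⟩ := mem_image.1 hX
    exact (frm_wt_le (fun e : {e // e ∈ g} => (e : ι × κ).1) ω i).trans (hw ω hω)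
  have hB : ∑ Y ∈ (Om n g c).image (fun ω => rb ω), R Y ^ 2 ≤
      (Fintype.card (Ev n) : ℝ) ^ Fintype.card κ * ∑ β, r β ^ 2 := by
    refine bessel hn hc _ (fun Y hY j => ?_) r
    obtain ⟨ω, hω, rfl⟩ := mem_image.1 hY
    exact (frm_wt_le (fun e : {e // e ∈ g} => (e : ι × κ).2) ω j).trans (hw ω hω)
  calc F * ((∑ X ∈ (Om n g c).image (fun ω => lb ω), P X ^ 2) *
        ∑ Y ∈ (Om n g c).image (fun ω => rb ω), R Y ^ 2)
      ≤ F * (((Fintype.card (Ev n) : ℝ) ^ Fintype.card ι * ∑ α, p α ^ 2) *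
        ((Fintype.card (Ev n) : ℝ) ^ Fintype.card κ * ∑ β, r β ^ 2)) := by
        refine mul_le_mul_of_nonneg_left ?_ hF0
        exact mul_le_mul hA hB (sum_nonneg fun _ _ => sq_nonneg _)
          (mul_nonneg (by positivity) (sum_nonneg fun _ _ => sq_nonneg _))
    _ = F * (Fintype.card (Ev n) : ℝ) ^ (Fintype.card ι + Fintype.card κ) *
        ((∑ α, p α ^ 2) * ∑ β, r β ^ 2) := by
        rw [pow_add]; ring

end Pool.Agent.Lib.MP_0430e4_lc.L2
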