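import Pool.Agent.Lib.MP_0430e4_lc.L2.BES

/-!
# OPB: the operator norm of a function of `x + y` on even words

PROOF of `op_of_al`. `ψ (x + y) = (1/2) ∑_w al ψ w chw w x chw w y` on even words (`Lin.inversionW`), so
`∑ ψ(x+y) p x r y = (1/2) ∑_w al ψ w P w R w`, `P w = ∑_{x even} p x chw w x`; `∑_w P w ^ 2 = 2^n ∑ p^2` (Parseval, `Lin.parsevalW` or directly from
`Lin.sum_chw_left`), Cauchy-Schwarz; `2^n / 2 = card (Ev n)`.
PROOF of `al_sharp_le`. By `Lin.al_sharp` the coefficient is 0 unless `c < wt w < n - c`, where it is `al φ w`. Replace `w` by `w + 1` if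
`n < 2 wt w` (`Lin.al_add_one`, `Lin.wt_add_one`). For `c < wt w`, `2 wt w ≤ n`: `|al φ w| ≤ 2 |ao φ w|` and
`choose n (wt w) * ao φ w ^ 2 ≤ 1` (`Lin.ao_bound`), `choose n (c+1) ≤ choose n (wt w)` (`Nat.choose_le_choose`-type monotonicity up to `n/2`:
`Nat.choose_le_middle`/`Nat.choose_mono...`, or see how Lin/HGH.lean does it).
-/

set_option autoImplicit false

namespace Pool.Agent.Lib.MP_0430e4_lc.L2

open Finset
open Lin (W wt chw evW EW al flat SymW)

variable {n : ℕ}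

theorem opb_chw_add (w x y : W n) : chw w (x + y) = chw w x * chw w y := by
  rw [Lin.chw_comm w (x + y), Lin.chw_add, Lin.chw_comm x, Lin.chw_comm y]

theorem opb_add_self (x : W n) : x + x = 0 := by
  ext i
  exact CharTwo.add_self_eq_zero (x i)

theorem opb_eq_of_add {x y : W n} (h : x + y = 0) : x = y := by
  have h1 : x + y + y = 0 + y := by rw [h]
  rwa [add_assoc, opb_add_self, add_zero, zero_add] at h1

theorem opb_parseval (p : Ev n → ℝ) :
    ∑ w : W n, (∑ x, p x * chw w (x : W n)) ^ 2 = 2 ^ n * ∑ x, p x ^ 2 := by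
  have h1 : ∀ w : W n, (∑ x, p x * chw w (x : W n)) ^ 2 =
      ∑ x : Ev n, ∑ y : Ev n, p x * p y * chw w ((x : W n) + y) := by
    intro w
    rw [sq, sum_mul_sum]
    refine sum_congr rfl fun x _ => sum_congr rfl fun y _ => ?_
    rw [opb_chw_add]
    ring
  rw [sum_congr rfl fun w _ => h1 w, sum_comm, mul_sum]
  refine sum_congr rfl fun x _ => ?_
  rw [sum_comm, sum_eq_single x]
  · rw [← mul_sum, Lin.sum_chw_left, opb_add_self, if_pos rfl]
    ring
  · intro y _ hy
    rw [← mul_sum, Lin.sum_chw_left, if_neg, mul_zero]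
    intro h
    exact hy (Subtype.ext (opb_eq_of_add h)).symm
  · intro h
    exact absurd (mem_univ x) h

theorem opb_inv (hn : 0 < n) (a : W n → ℝ) {x : W n} (hx : x ∈ evW n) :
    ∑ w : W n, al a w * chw w x = 2 * a x := by
  have h2 : ∀ w : W n, al a w * chw w x
      = (∑ y ∈ evW n, a y * chw w (x + y)) / 2 ^ (n - 1) := by
    intro w
    unfold al EW
    rw [div_mul_eq_mul_div, sum_mul]
    congr 1
    refine sum_congr rfl fun y _ => ?_
    rw [opb_chw_add]
    ring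
  rw [sum_congr rfl fun w _ => h2 w, ← sum_div, sum_comm, sum_eq_single x]
  · rw [← mul_sum, Lin.sum_chw_left, opb_add_self, if_pos rfl, Lin.pow_split_W hn]
    field_simp
  · intro y _ hy
    rw [← mul_sum, Lin.sum_chw_left, if_neg, mul_zero]
    intro h
    exact hy (opb_eq_of_add h).symm
  · intro h
    exact absurd hx h

theorem op_of_al (hn : 0 < n) (ψ : W n → ℝ) {ρ : ℝ} (hρ : ∀ w, |al ψ w| ≤ ρ) :
    OP (V := Ev n) (fun x y => ψ ((x : W n) + y)) ρ := by
  intro p r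
  set P : W n → ℝ := fun w => ∑ x, p x * chw w (x : W n) with hP
  set R : W n → ℝ := fun w => ∑ x, r x * chw w (x : W n) with hR
  have hev : ∀ x y : Ev n, (x : W n) + y ∈ evW n := by
    intro x y
    have hx := x.2
    have hy := y.2
    unfold evW at hx hy ⊢
    rw [mem_filter] at hx hy ⊢
    refine ⟨mem_univ _, ?_⟩
    simp only [Pi.add_apply, sum_add_distrib]
    rw [hx.2, hy.2, add_zero]
  have h1 : 2 * ∑ x : Ev n, ∑ y : Ev n, ψ ((x : W n) + y) * p x * r y =
      ∑ w : W n, al ψ w * P w * R w := by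
    have h2 : ∀ w : W n, al ψ w * P w * R w =
        ∑ x : Ev n, ∑ y : Ev n, p x * r y * (al ψ w * chw w ((x : W n) + y)) := by
      intro w
      rw [hP, hR, mul_assoc]
      simp only
      rw [sum_mul_sum, mul_sum]
      refine sum_congr rfl fun x _ => ?_
      rw [mul_sum]
      refine sum_congr rfl fun y _ => ?_
      rw [opb_chw_add]
      ring
    have h7 : ∑ w : W n, ∑ x : Ev n, ∑ y : Ev n, p x * r y * (al ψ w * chw w ((x : W n) + y)) =
        ∑ x : Ev n, ∑ y : Ev n, ∑ w : W n, p x * r y * (al ψ w * chw w ((x : W n) + y)) := by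
      rw [sum_comm]
      exact sum_congr rfl fun x _ => sum_comm
    rw [sum_congr rfl fun w _ => h2 w, h7, mul_sum]
    refine sum_congr rfl fun x _ => ?_
    rw [mul_sum]
    refine sum_congr rfl fun y _ => ?_
    rw [← mul_sum, opb_inv hn ψ (hev x y)]
    ring
  have h3 : (∑ w : W n, al ψ w * P w * R w) ^ 2 ≤
      (∑ w : W n, (al ψ w * P w) ^ 2) * ∑ w : W n, R w ^ 2 :=
    sum_mul_sq_le_sq_mul_sq _ _ _
  have h4 : ∑ w : W n, (al ψ w * P w) ^ 2 ≤ ρ ^ 2 * ∑ w : W n, P w ^ 2 := by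
    rw [mul_sum]
    refine sum_le_sum fun w _ => ?_
    rw [mul_pow]
    apply mul_le_mul_of_nonneg_right _ (sq_nonneg _)
    rw [← sq_abs]
    exact pow_le_pow_left₀ (abs_nonneg _) (hρ w) 2
  have hPp : ∑ w : W n, P w ^ 2 = 2 ^ n * ∑ x, p x ^ 2 := opb_parseval p
  have hRp : ∑ w : W n, R w ^ 2 = 2 ^ n * ∑ x, r x ^ 2 := opb_parseval r
  have hRnn : 0 ≤ ∑ w : W n, R w ^ 2 := sum_nonneg fun w _ => sq_nonneg _
  have h5 : (2 * ∑ x : Ev n, ∑ y : Ev n, ψ ((x : W n) + y) * p x * r y) ^ 2 ≤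
      (ρ ^ 2 * (2 ^ n * ∑ x, p x ^ 2)) * (2 ^ n * ∑ x, r x ^ 2) := by
    rw [h1]
    calc (∑ w : W n, al ψ w * P w * R w) ^ 2
        ≤ (∑ w : W n, (al ψ w * P w) ^ 2) * ∑ w : W n, R w ^ 2 := h3
      _ ≤ (ρ ^ 2 * ∑ w : W n, P w ^ 2) * ∑ w : W n, R w ^ 2 :=
          mul_le_mul_of_nonneg_right h4 hRnn
      _ = _ := by rw [hPp, hRp]
  rw [card_Ev hn]
  have h6 := Lin.pow_split_W hn
  rw [h6] at h5
  nlinarith [h5]

theorem opb_choose {n a b : ℕ} (hab : a ≤ b) (hb : 2 * b ≤ n) : n.choose a ≤ n.choose b := by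
  induction b, hab using Nat.le_induction with
  | base => exact le_rfl
  | succ b hab ih =>
    have h1 := ih (by omega)
    exact h1.trans (Nat.choose_le_succ_of_lt_half_left (by omega))

theorem al_sharp_le (hn : 0 < n) {φ : W n → ℝ} (hs : SymW φ) (hE : EW (fun x => φ x ^ 2) ≤ 1)
    {c : ℕ} (hc : 2 * c + 2 ≤ n) (w : W n) :
    |al (fun x => φ x - flat c φ x) w| ≤ 2 / Real.sqrt (n.choose (c + 1)) := by
  have hK : (0 : ℝ) < n.choose (c + 1) := by
    exact_mod_cast Nat.choose_pos (by omega)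
  have hsq : 0 < Real.sqrt (n.choose (c + 1)) := Real.sqrt_pos.2 hK
  rw [Lin.al_sharp hn (by omega)]
  split_ifs with h
  · -- choose a word of weight at most n / 2
    obtain ⟨w', hw1, hw2, hw3⟩ : ∃ w' : W n, al φ w' = al φ w ∧ c < wt w' ∧ 2 * wt w' ≤ n := by
      by_cases h2 : 2 * wt w ≤ n
      · exact ⟨w, rfl, h.1, h2⟩
      · have h3 := Lin.wt_add_one w
        exact ⟨w + 1, Lin.al_add_one φ w, by omega, by omega⟩
    rw [← hw1]
    have h1 := Lin.ao_bound hn hs w'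
    have h2 : al φ w' ^ 2 ≤ 4 * Lin.ao φ w' ^ 2 := by
      unfold Lin.ao
      rcases Nat.lt_or_ge (2 * wt w') n with h3 | h3
      · rw [if_pos h3]
        nlinarith [sq_nonneg (al φ w')]
      · rw [if_neg (by omega), if_pos (by omega)]
        nlinarith [sq_nonneg (al φ w')]
    have h3 : (n.choose (c + 1) : ℝ) ≤ n.choose (wt w') := by
      exact_mod_cast opb_choose (by omega) hw3
    have h4 : (n.choose (c + 1) : ℝ) * Lin.ao φ w' ^ 2 ≤ 1 :=
      (mul_le_mul_of_nonneg_right h3 (sq_nonneg _)).trans (h1.trans hE)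
    rw [le_div_iff₀ hsq]
    apply abs_le_of_sq_le_sq' _ (by norm_num) |>.2
    rw [mul_pow, sq_abs, Real.sq_sqrt hK.le]
    nlinarith
  · rw [abs_zero]
    positivity

end Pool.Agent.Lib.MP_0430e4_lc.L2
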