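import Pool.Agent.Lib.MP_0430e4_lc.L2.EDG
import Pool.Agent.Lib.MP_0430e4_lc.L2.FRM
import Pool.Agent.Lib.MP_0430e4_lc.L2.OPB

/-!
# TEL: removing the high frequencies edge by edge

PROOF of `tel_prod`: induction on `idx` (or `Finset.prod_sub_ordered` for the linear order pulled back by `idx`).
PROOF of `tel_bound`. By `tel_prod` with `F e = φ (x + y)`, `G e = flat (c (idx e)) φ (x + y)`:
`form φ = form flat + ∑_{e ∈ g} form ψ^e`, `ψ^e e' = flat (c (idx e')) φ` if `idx e' < idx e`, `φ - flat (c (idx e)) φ` for `e' = e`, `φ` if `idx e < idx e'`.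
`flat_form` bounds the first, `edge_bound` the others: `ρ = 2 / sqrt (choose n (c (idx e) + 1))` (`op_of_al`, `al_sharp_le`),
`B e' = sqrt (∑_{q ≤ c (idx e')} choose n q)` for `idx e' < idx e` (`Lin.abs_flat_le` with `B = 1`), `B e' = 1` for `idx e < idx e'`.
`(x_0 + ... + x_k)^2 ≤ (k + 1) (x_0^2 + ... + x_k^2)`.
-/

set_option autoImplicit false

namespace Pool.Agent.Lib.MP_0430e4_lc.L2

open Finset
open Lin (W wt chw evW EW al flat SymW)

theorem tel_prod {τ : Type*} [DecidableEq τ] (s : Finset τ) (idx : τ → ℕ)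
    (hidx : Set.InjOn idx s) (F G : τ → ℝ) :
    ∏ e ∈ s, F e = ∏ e ∈ s, G e + ∑ e ∈ s, (∏ e' ∈ s.filter (fun e' => idx e' < idx e), G e') *
      (F e - G e) * ∏ e' ∈ s.filter (fun e' => idx e < idx e'), F e' := by
  revert hidx
  refine Finset.induction_on_max_value idx s (fun _ => by simp) ?_
  intro a s ha hmax ih hidx
  have hinj : Set.InjOn idx s := hidx.mono (by
    intro x hx
    exact Finset.mem_coe.2 (Finset.mem_insert_of_mem (Finset.mem_coe.1 hx)))
  have hlt : ∀ x ∈ s, idx x < idx a := by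
    intro x hx
    refine lt_of_le_of_ne (hmax x hx) fun h => ha ?_
    have := hidx (Finset.mem_coe.2 (Finset.mem_insert_of_mem hx))
      (Finset.mem_coe.2 (Finset.mem_insert_self a s)) h
    rwa [← this]
  have e1 : (insert a s).filter (fun e' => idx e' < idx a) = s := by
    rw [Finset.filter_insert, if_neg (lt_irrefl _)]
    exact Finset.filter_true_of_mem hlt
  have e2 : (insert a s).filter (fun e' => idx a < idx e') = ∅ := by
    rw [Finset.filter_insert, if_neg (lt_irrefl _)]
    exact Finset.filter_false_of_mem fun x hx => (hlt x hx).not_gt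
  have e3 : ∀ e ∈ s, (insert a s).filter (fun e' => idx e' < idx e) =
      s.filter (fun e' => idx e' < idx e) := by
    intro e he
    rw [Finset.filter_insert, if_neg (hlt e he).not_gt]
  have e4 : ∀ e ∈ s, (insert a s).filter (fun e' => idx e < idx e') =
      insert a (s.filter (fun e' => idx e < idx e')) := by
    intro e he
    rw [Finset.filter_insert, if_pos (hlt e he)]
  rw [Finset.prod_insert ha, Finset.prod_insert ha, Finset.sum_insert ha, e1, e2, ih hinj]
  have e5 : ∑ e ∈ s, (∏ e' ∈ (insert a s).filter (fun e' => idx e' < idx e), G e') *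
      (F e - G e) * ∏ e' ∈ (insert a s).filter (fun e' => idx e < idx e'), F e' =
      F a * ∑ e ∈ s, (∏ e' ∈ s.filter (fun e' => idx e' < idx e), G e') *
      (F e - G e) * ∏ e' ∈ s.filter (fun e' => idx e < idx e'), F e' := by
    rw [Finset.mul_sum]
    refine Finset.sum_congr rfl fun e he => ?_
    rw [e3 e he, e4 e he, Finset.prod_insert (fun h => ha (Finset.mem_filter.1 h).1)]
    ring
  rw [e5, Finset.prod_empty]
  ring

variable {n : ℕ} {ι κ : Type*} [Fintype ι] [DecidableEq ι] [Fintype κ] [DecidableEq κ]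

/-- a product over three parts of an ordered set as one product -/
theorem tel_three {τ : Type*} [DecidableEq τ] (s : Finset τ) (idx : τ → ℕ)
    (hidx : Set.InjOn idx s) {e : τ} (he : e ∈ s) (G K F : τ → ℝ) :
    ∏ e' ∈ s, (if idx e' < idx e then G e' else if e' = e then K e' else F e') =
      (∏ e' ∈ s.filter (fun e' => idx e' < idx e), G e') * K e *
        ∏ e' ∈ s.filter (fun e' => idx e < idx e'), F e' := by
  have h1 : K e = ∏ e' ∈ s, if e' = e then K e' else 1 := by
    rw [Finset.prod_ite_eq' s e, if_pos he]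
  rw [h1, Finset.prod_filter, Finset.prod_filter, ← Finset.prod_mul_distrib,
    ← Finset.prod_mul_distrib]
  refine Finset.prod_congr rfl fun e' he' => ?_
  rcases lt_trichotomy (idx e') (idx e) with h | h | h
  · rw [if_pos h, if_pos h, if_neg (fun h' => by rw [h'] at h; exact lt_irrefl _ h),
      if_neg h.not_gt, mul_one, mul_one]
  · have h' : e' = e := hidx he' he h
    subst h'
    simp
  · rw [if_neg h.not_gt, if_neg h.not_gt, if_neg (fun h' => by rw [h'] at h; exact lt_irrefl _ h),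
      if_neg (fun h' => by rw [h'] at h; exact lt_irrefl _ h), if_pos h, one_mul, one_mul]

theorem tel_sq {τ : Type*} (s : Finset τ) (a : ℝ) (x : τ → ℝ) :
    (a + ∑ e ∈ s, x e) ^ 2 ≤ (s.card + 1) * (a ^ 2 + ∑ e ∈ s, x e ^ 2) := by
  have h1 : (∑ e ∈ s, x e) ^ 2 ≤ s.card * ∑ e ∈ s, x e ^ 2 := sq_sum_le_card_mul_sum_sq
  have h2 : 2 * a * ∑ e ∈ s, x e ≤ s.card * a ^ 2 + ∑ e ∈ s, x e ^ 2 := by
    rw [Finset.mul_sum, ← nsmul_eq_mul, ← Finset.sum_const, ← Finset.sum_add_distrib]
    refine Finset.sum_le_sum fun e _ => ?_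
    nlinarith [sq_nonneg (a - x e)]
  nlinarith

theorem tel_add_mem {x y : W n} (hx : x ∈ evW n) (hy : y ∈ evW n) : x + y ∈ evW n := by
  unfold Lin.evW at *
  rw [Finset.mem_filter] at *
  refine ⟨Finset.mem_univ _, ?_⟩
  simp only [Pi.add_apply, Finset.sum_add_distrib]
  rw [hx.2, hy.2, add_zero]

theorem tel_zero_mem : (0 : W n) ∈ evW n := by
  unfold Lin.evW
  rw [Finset.mem_filter]
  refine ⟨Finset.mem_univ _, ?_⟩
  simp

theorem tel_bound (hn : 0 < n) {φ : W n → ℝ} (hs : SymW φ) (h1 : ∀ x ∈ evW n, |φ x| ≤ 1)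
    {g : Finset (ι × κ)} (idx : ι × κ → ℕ) (hidx : Set.InjOn idx g) {c : ℕ → ℕ}
    (hc : 2 * ∑ e ∈ g, c (idx e) < n) (hc2 : ∀ e ∈ g, 2 * c (idx e) + 2 ≤ n) {F H : ℝ}
    (hF : ∀ ξ, Fs g (fun e => c (idx e)) φ ξ ≤ F)
    (hH : ∀ e ∈ g, 4 / (n.choose (c (idx e) + 1) : ℝ) *
      ∏ e' ∈ g.filter (fun e' => idx e' < idx e),
        (∑ q ∈ range (c (idx e') + 1), (n.choose q : ℝ)) ≤ H) :
    GB (V := Ev n) g (fun _ x y => φ ((x : W n) + y)) ((g.card + 1) * (F + g.card * H)) := by
  have hne : Nonempty (Ev n) := ⟨⟨0, tel_zero_mem⟩⟩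
  have hE : EW (fun x => φ x ^ 2) ≤ 1 := by
    have h2 := Lin.EW_mono (f := fun x => φ x ^ 2) (g := fun _ : W n => (1 : ℝ)) fun x hx => by
      have := h1 x hx
      rw [← sq_abs]
      have h0 := abs_nonneg (φ x)
      nlinarith
    rwa [Lin.EW_const hn] at h2
  intro p r
  -- the pieces
  let G : ι × κ → Ev n → Ev n → ℝ := fun e x y => flat (c (idx e)) φ ((x : W n) + y)
  let Φ : ι × κ → Ev n → Ev n → ℝ := fun _ x y => φ ((x : W n) + y)
  let K : ι × κ → Ev n → Ev n → ℝ := fun e x y => φ ((x : W n) + y) -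
    flat (c (idx e)) φ ((x : W n) + y)
  let ψ : ι × κ → ι × κ → Ev n → Ev n → ℝ := fun e e' =>
    if idx e' < idx e then G e' else if e' = e then K e' else Φ e'
  have hψ : ∀ e e' x y, ψ e e' x y =
      if idx e' < idx e then G e' x y else if e' = e then K e' x y else Φ e' x y := by
    intro e e' x y
    show (if idx e' < idx e then G e' else if e' = e then K e' else Φ e') x y = _
    split_ifs <;> rfl
  have hform : form g Φ p r = form g G p r + ∑ e ∈ g, form g (ψ e) p r := by
    have hsw : ∀ t : (ι × κ) → (ι → Ev n) → (κ → Ev n) → ℝ,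
        ∑ e ∈ g, ∑ α, ∑ β, t e α β = ∑ α, ∑ β, ∑ e ∈ g, t e α β := by
      intro t
      rw [Finset.sum_comm]
      exact Finset.sum_congr rfl fun α _ => Finset.sum_comm
    unfold form
    rw [hsw, ← Finset.sum_add_distrib]
    refine Finset.sum_congr rfl fun α _ => ?_
    rw [← Finset.sum_add_distrib]
    refine Finset.sum_congr rfl fun β _ => ?_
    rw [tel_prod g idx hidx (fun e => Φ e (α e.1) (β e.2)) (fun e => G e (α e.1) (β e.2)),
      add_mul, add_mul, Finset.sum_mul, Finset.sum_mul]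
    congr 1
    refine Finset.sum_congr rfl fun e he => ?_
    rw [Finset.prod_congr rfl (fun e' _ => hψ e e' (α e'.1) (β e'.2)),
      tel_three g idx hidx he (fun e' => G e' (α e'.1) (β e'.2)) (fun e' => K e' (α e'.1) (β e'.2))
        (fun e' => Φ e' (α e'.1) (β e'.2))]
  obtain ⟨M, hM⟩ : ∃ M : ℝ, M = (Fintype.card (Ev n) : ℝ) ^ (Fintype.card ι + Fintype.card κ) *
      ((∑ α, p α ^ 2) * ∑ β, r β ^ 2) := ⟨_, rfl⟩
  have hM0 : 0 ≤ M := by
    rw [hM]
    have h2 : 0 ≤ ∑ α, p α ^ 2 := Finset.sum_nonneg fun _ _ => sq_nonneg _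
    have h3 : 0 ≤ ∑ β, r β ^ 2 := Finset.sum_nonneg fun _ _ => sq_nonneg _
    positivity
  have hA : form g G p r ^ 2 ≤ F * M := by
    have h2 := flat_form hn (g := g) (c := fun e => c (idx e)) hc hF p r
    rw [mul_assoc, ← hM] at h2
    exact h2
  have hB : ∀ e ∈ g, form g (ψ e) p r ^ 2 ≤ H * M := by
    intro e he
    have hce := hc2 e he
    have hch : (0 : ℝ) < n.choose (c (idx e) + 1) := by
      exact_mod_cast Nat.choose_pos (by omega)
    let B : ι × κ → ℝ := fun e' => if idx e' < idx e then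
      Real.sqrt (∑ q ∈ range (c (idx e') + 1), (n.choose q : ℝ)) else 1
    have hρ : 0 ≤ 2 / Real.sqrt (n.choose (c (idx e) + 1) : ℝ) := by positivity
    have hop : OP (ψ e e) (2 / Real.sqrt (n.choose (c (idx e) + 1) : ℝ)) := by
      have h2 : ψ e e = fun x y : Ev n =>
          (fun z => φ z - flat (c (idx e)) φ z) ((x : W n) + (y : W n)) := by
        funext x y
        rw [hψ, if_neg (lt_irrefl _), if_pos rfl]
      rw [h2]
      exact op_of_al hn (fun z => φ z - flat (c (idx e)) φ z) (al_sharp_le hn hs hE hce)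
    have hB0 : ∀ e' ∈ g, 0 ≤ B e' := by
      intro e' _
      show 0 ≤ (if idx e' < idx e then
        Real.sqrt (∑ q ∈ range (c (idx e') + 1), (n.choose q : ℝ)) else 1)
      split_ifs
      · exact Real.sqrt_nonneg _
      · exact zero_le_one
    have hBB : ∀ e' ∈ g, e' ≠ e → ∀ x y, |ψ e e' x y| ≤ B e' := by
      intro e' he' hne' x y
      rw [hψ]
      show _ ≤ (if idx e' < idx e then
        Real.sqrt (∑ q ∈ range (c (idx e') + 1), (n.choose q : ℝ)) else 1)
      split_ifs with h2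
      · have h3 := Lin.abs_flat_le hn (c := c (idx e')) (by have := hc2 e' he'; omega) φ
          (B := 1) zero_le_one (by rw [one_pow]; exact hE) ((x : W n) + y)
        rwa [one_mul] at h3
      · exact h1 _ (tel_add_mem x.2 y.2)
    have h4 := edge_bound he hρ hop hB0 hBB p r
    rw [mul_assoc, ← hM] at h4
    refine h4.trans (mul_le_mul_of_nonneg_right ?_ hM0)
    refine le_trans (le_of_eq ?_) (hH e he)
    rw [mul_pow, div_pow, Real.sq_sqrt hch.le, ← Finset.prod_pow]
    have h5 : ∏ e' ∈ g.erase e, B e' ^ 2 = ∏ e' ∈ g.filter (fun e' => idx e' < idx e),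
        (∑ q ∈ range (c (idx e') + 1), (n.choose q : ℝ)) := by
      have h6 : g.filter (fun e' => idx e' < idx e) =
          (g.erase e).filter (fun e' => idx e' < idx e) := by
        ext e'
        simp only [Finset.mem_filter, Finset.mem_erase]
        constructor
        · rintro ⟨h7, h8⟩
          exact ⟨⟨fun h9 => by rw [h9] at h8; exact lt_irrefl _ h8, h7⟩, h8⟩
        · rintro ⟨⟨_, h7⟩, h8⟩
          exact ⟨h7, h8⟩
      rw [h6, Finset.prod_filter]
      refine Finset.prod_congr rfl fun e' _ => ?_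
      show (if idx e' < idx e then
        Real.sqrt (∑ q ∈ range (c (idx e') + 1), (n.choose q : ℝ)) else 1) ^ 2 = _
      split_ifs
      · exact Real.sq_sqrt (Finset.sum_nonneg fun _ _ => Nat.cast_nonneg _)
      · norm_num
    rw [h5]
    norm_num
  rw [mul_assoc, ← hM]
  show form g Φ p r ^ 2 ≤ _
  rw [hform]
  refine (tel_sq g _ _).trans ?_
  have h7 : ∑ e ∈ g, form g (ψ e) p r ^ 2 ≤ g.card * (H * M) := by
    rw [← nsmul_eq_mul]
    exact Finset.sum_le_card_nsmul _ _ _ hB
  have h8 : form g G p r ^ 2 + ∑ e ∈ g, form g (ψ e) p r ^ 2 ≤ (F + g.card * H) * M := by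
    rw [add_mul, mul_assoc]
    exact add_le_add hA h7
  rw [mul_assoc]
  exact mul_le_mul_of_nonneg_left h8 (by positivity)

end Pool.Agent.Lib.MP_0430e4_lc.L2
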