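import Pool.Agent.Lib.MP_0430e4_lc.L2.Defs
import Pool.Agent.Lib.MP_0430e4_lc.Las.TRIV

/-!
# TRN: from pseudo-moments on even words to the Lasserre bound

PROOF of `las_ge_ev`. The map `j : Ev n → (Fin n → Bool)`, `x ↦ (i ↦ decide (x i ≠ 0))` is injective and `hammingDist (j x) (j y) = wt (x + y)`. Put
`y' S = y (S.preimage j)` if `S ⊆ range j` (all words of `S` even), `0` otherwise. `y' ∅ = 1`, the distance condition is `hd`;
for `f` on sets of words: `∑_{A,B} f A f B y' (A ∪ B)` only has terms with `A, B ⊆ range j`, and equals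
`∑_{A,B ∈ small (Ev n) t} f (A.image j) f (B.image j) y (A ∪ B) ≥ 0`. `∑_x y' {x} = ∑_x y {x}`. `le_csSup` with `Las.las_bdd`.
PROOF of `ker_ev`. `Φ x y = 1 + a (wt (x + y))`, `a 0 = -1` (`1 ≤ d`), `x + y = y + x`, `op` is `L2.op_of_al` (or: `OP` as hypothesis `hop`);
`sq`: `|Φ - 1| ≤ 1`.
-/

set_option autoImplicit false

namespace Pool.Agent.Lib.MP_0430e4_lc.L2

open Finset
open Lin (W wt chw evW EW al flat SymW)

variable {n : ℕ}

/-- even words as Boolean words -/
def trnJ (x : Ev n) : Fin n → Bool := fun i => decide ((x : W n) i ≠ 0)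

theorem trnJ_inj : Function.Injective (trnJ (n := n)) := by
  intro x y h
  apply Subtype.ext
  funext i
  have h1 := congrFun h i
  unfold trnJ at h1
  have h2 : ∀ a b : ZMod 2, decide (a ≠ 0) = decide (b ≠ 0) → a = b := by decide
  exact h2 _ _ h1

theorem trnJ_dist (x y : Ev n) : hammingDist (trnJ x) (trnJ y) = wt ((x : W n) + (y : W n)) := by
  unfold hammingDist wt trnJ
  congr 1
  ext i
  have h2 : ∀ a b : ZMod 2, decide (a ≠ 0) ≠ decide (b ≠ 0) ↔ a + b ≠ 0 := by decide
  rw [mem_filter, mem_filter, Pi.add_apply]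
  exact and_congr_right fun _ => h2 _ _

/-- the even words whose Boolean word is in `S` -/
def trnP (S : Finset (Fin n → Bool)) : Finset (Ev n) := univ.filter fun x => trnJ x ∈ S

theorem trnP_image (A : Finset (Ev n)) : trnP (A.image trnJ) = A := by
  ext x
  unfold trnP
  rw [mem_filter, mem_image]
  constructor
  · rintro ⟨_, z, hz, hzx⟩
    rw [← trnJ_inj hzx]
    exact hz
  · intro hx
    exact ⟨mem_univ _, x, hx, rfl⟩

theorem trnP_card (S : Finset (Fin n → Bool)) : (trnP S).card ≤ S.card := by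
  rw [← card_image_of_injective _ trnJ_inj]
  apply card_le_card
  intro u hu
  obtain ⟨x, hx, rfl⟩ := mem_image.1 hu
  unfold trnP at hx
  exact (mem_filter.1 hx).2

theorem trnP_union (S T : Finset (Fin n → Bool)) : trnP (S ∪ T) = trnP S ∪ trnP T := by
  unfold trnP
  rw [← filter_or]
  congr 1
  funext x
  rw [mem_union]

theorem las_ge_ev {t d : ℕ} (ht : 1 ≤ t) (y : Finset (Ev n) → ℝ) (h0 : y ∅ = 1)
    (hd : ∀ S : Finset (Ev n), (∃ u ∈ S, ∃ v ∈ S, u ≠ v ∧ wt ((u : W n) + (v : W n)) < d) → y S = 0)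
    (hy : Las.MomPos t y) : ∑ x, y {x} ≤ Las.las t n d := by
  classical
  set im : Finset (Fin n → Bool) := univ.image (trnJ (n := n)) with him
  set y' : Finset (Fin n → Bool) → ℝ := fun S => if S ⊆ im then y (trnP S) else 0 with hy'
  have hyim : ∀ A : Finset (Ev n), y' (A.image trnJ) = y A := by
    intro A
    rw [hy']
    simp only
    rw [if_pos, trnP_image]
    rw [him]
    exact image_subset_image (subset_univ _)
  have hsum : ∑ x, y {x} = ∑ x, y' {x} := by
    have h1 : ∑ x ∈ im, y' {x} = ∑ x, y' {x} := by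
      apply sum_subset (subset_univ _)
      intro x _ hx
      rw [hy']
      simp only
      rw [if_neg]
      intro h
      exact hx (h (mem_singleton_self _))
    rw [← h1, him, sum_image (fun x _ z _ h => trnJ_inj h)]
    refine sum_congr rfl fun x _ => ?_
    rw [← hyim {x}, image_singleton]
  unfold Las.las
  refine le_csSup (Las.las_bdd ht n d) ⟨y', ?_, ?_, ?_, hsum⟩
  · have := hyim ∅
    rw [image_empty] at this
    rw [this, h0]
  · rintro S ⟨u, hu, v, hv, huv, hdist⟩
    rw [hy']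
    simp only
    split_ifs with hS
    · obtain ⟨x, _, rfl⟩ := mem_image.1 (hS hu)
      obtain ⟨z, _, rfl⟩ := mem_image.1 (hS hv)
      apply hd
      refine ⟨x, ?_, z, ?_, fun h => huv (by rw [h]), ?_⟩
      · unfold trnP
        exact mem_filter.2 ⟨mem_univ _, hu⟩
      · unfold trnP
        exact mem_filter.2 ⟨mem_univ _, hv⟩
      · rw [← trnJ_dist]
        exact hdist
    · rfl
  · intro f
    have h1 := Las.triv_form hy
      (fun A : {A : Finset (Fin n → Bool) // A ∈ Las.small (Fin n → Bool) t} => trnP A.1)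
      (fun A => by
        have := A.2
        unfold Las.small at this
        exact (trnP_card _).trans (mem_filter.1 this).2)
      (fun A => if A.1 ⊆ im then f A.1 else 0)
    refine h1.trans_eq ?_
    rw [← sum_coe_sort (Las.small (Fin n → Bool) t)
      (fun A => ∑ B ∈ Las.small (Fin n → Bool) t, f A * f B * y' (A ∪ B))]
    refine sum_congr rfl fun A _ => ?_
    rw [← sum_coe_sort (Las.small (Fin n → Bool) t) (fun B => f A.1 * f B * y' (A.1 ∪ B))]
    refine sum_congr rfl fun B _ => ?_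
    rw [hy']
    simp only
    rw [trnP_union]
    by_cases hA : A.1 ⊆ im
    · by_cases hB : B.1 ⊆ im
      · rw [if_pos hA, if_pos hB, if_pos (union_subset hA hB)]
      · rw [if_neg hB, if_neg (fun h => hB (subset_union_right.trans h))]
        ring
    · rw [if_neg hA, if_neg (fun h => hA (subset_union_left.trans h))]
      ring

theorem ker_ev {d : ℕ} (hd : 1 ≤ d) {a : ℕ → ℝ} {κ ρ : ℝ} (hκ0 : 0 ≤ κ) (hκ1 : κ ≤ 1)
    (hρ0 : 0 ≤ ρ) (hρ1 : ρ ≤ 1) (ha1 : ∀ w, w < d → a w = -1) (ha2 : ∀ w, d ≤ w → |a w| ≤ κ)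
    (hop : OP (V := Ev n) (fun x y => a (wt ((x : W n) + (y : W n)))) ρ) :
    Las.Ker (V := Ev n) (fun x y => 1 + a (wt ((x : W n) + (y : W n)))) κ 1 ρ := by
  refine ⟨?_, ?_, ?_, ?_, hκ0, hκ1, zero_le_one, ?_, hρ0, by rw [one_pow]; exact hρ1, ?_⟩
  · intro x y
    rw [add_comm (x : W n) (y : W n)]
  · intro x
    have h1 : wt ((x : W n) + (x : W n)) = 0 := by
      rw [Lin.add_self_W]
      unfold wt
      simp
    rw [h1, ha1 0 (by omega)]
    ring
  · intro x y
    rcases lt_or_ge (wt ((x : W n) + (y : W n))) d with h | h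
    · rw [ha1 _ h]
      norm_num
    · have := (abs_le.1 (ha2 _ h)).1
      linarith
  · intro x y
    rcases lt_or_ge (wt ((x : W n) + (y : W n))) d with h | h
    · rw [ha1 _ h]
      linarith
    · have := (abs_le.1 (ha2 _ h)).2
      linarith
  · intro x
    have h1 : ∀ y ∈ (univ : Finset (Ev n)),
        (1 + a (wt ((x : W n) + (y : W n))) - 1) ^ 2 ≤ (1 : ℝ) := by
      intro y _
      rw [add_sub_cancel_left, ← sq_abs]
      rcases lt_or_ge (wt ((x : W n) + (y : W n))) d with h | h
      · rw [ha1 _ h]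
        norm_num
      · exact pow_le_one₀ (abs_nonneg _) ((ha2 _ h).trans hκ1)
    refine (sum_le_card_nsmul _ _ 1 h1).trans (le_of_eq ?_)
    rw [nsmul_eq_mul, card_univ]
    ring
  · intro p r
    have h1 := hop p r
    simp only [add_sub_cancel_left]
    exact h1

end Pool.Agent.Lib.MP_0430e4_lc.L2
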