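import Pool.Agent.Lib.MP_0430e4_lc.L2.PSDG
import Pool.Agent.Lib.MP_0430e4_lc.L2.PEEL
import Pool.Agent.Lib.MP_0430e4_lc.L2.TEL
import Pool.Agent.Lib.MP_0430e4_lc.L2.CNTP
import Pool.Agent.Lib.MP_0430e4_lc.L2.NUMA
import Pool.Agent.Lib.MP_0430e4_lc.L2.NUMB
import Pool.Agent.Lib.MP_0430e4_lc.L2.NUMC
import Pool.Agent.Lib.MP_0430e4_lc.L2.TRN
import Pool.Agent.Lib.MP_0430e4_lc.Lin.LV1
import Pool.Agent.Lib.MP_0430e4_lc.Lin.CNT
import Pool.Agent.Lib.MP_0430e4_lc.Las.WGT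
import Pool.Agent.Lib.MP_0430e4_lc.TensorRate

/-!
# FIN: the Lasserre hierarchy near distance 1/2: assembly
-/

set_option autoImplicit false

namespace Pool.Agent.Lib.MP_0430e4_lc.L2

open Finset Filter
open Lin (W wt chw evW EW al flat SymW)

variable {n : ℕ}

theorem gb_mono {V : Type*} [Fintype V] {ι κ : Type*} [Fintype ι] [DecidableEq ι] [Fintype κ]
    [DecidableEq κ] {g : Finset (ι × κ)} {ψ : ι × κ → V → V → ℝ} {c c' : ℝ} (h : GB g ψ c)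
    (hc : c ≤ c') : GB g ψ c' := by
  intro p r
  refine (h p r).trans ?_
  have h1 : 0 ≤ (∑ α, p α ^ 2) * ∑ β, r β ^ 2 :=
    mul_nonneg (sum_nonneg fun _ _ => sq_nonneg _) (sum_nonneg fun _ _ => sq_nonneg _)
  gcongr

theorem fin_Fs (hn : 0 < n) {ι κ : Type*} [Fintype ι] [DecidableEq ι] [Fintype κ]
    [DecidableEq κ] {φ : W n → ℝ} (hs : SymW φ) (hE : EW (fun x => φ x ^ 2) ≤ 1) {ρ : ℝ}
    (hρ0 : 0 ≤ ρ) (hρ1 : ρ ≤ 1) (hρ : ∀ w, |al φ w| ≤ ρ) {g : Finset (ι × κ)} {c : ι × κ → ℕ}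
    (hc : 2 * ∑ e ∈ g, c e < n) {Q : ℕ} (hQ : 1 ≤ Q)
    (hA : ((2 * ∑ e ∈ g, c e : ℕ) : ℝ) * (4 ^ g.card * Real.exp 2) ≤ n) (ξ : W n) :
    Fs g c φ ξ ≤ n * max ((4 ^ g.card * Real.exp 1) ^ Q * ρ ^ g.card)
      ((4 ^ g.card * Real.exp 1 * Q / n) ^ Q) := by
  refine (Fs_le hn hs hE hρ hc ξ).trans ?_
  have h0 : 0 ≤ max ((4 ^ g.card * Real.exp 1) ^ Q * ρ ^ g.card)
      ((4 ^ g.card * Real.exp 1 * Q / n) ^ Q) := le_max_of_le_left (by positivity)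
  refine (sum_le_card_nsmul _ _ (max ((4 ^ g.card * Real.exp 1) ^ Q * ρ ^ g.card)
      ((4 ^ g.card * Real.exp 1 * Q / n) ^ Q)) ?_).trans ?_
  · intro p hp
    rw [mem_filter] at hp
    apply numa_term hn hQ hρ0 hρ1
    refine le_trans ?_ hA
    have h1 : ((p + wt ξ : ℕ) : ℝ) ≤ ((2 * ∑ e ∈ g, c e : ℕ) : ℝ) := by exact_mod_cast hp.2
    exact mul_le_mul_of_nonneg_right h1 (by positivity)
  · rw [nsmul_eq_mul]
    apply mul_le_mul_of_nonneg_right _ h0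
    have h1 : ((range (2 * (∑ e ∈ g, c e) + 1)).filter
      (fun p => p + wt ξ ≤ 2 * ∑ e ∈ g, c e)).card ≤ n := by
      refine (card_filter_le _ _).trans ?_
      rw [card_range]
      omega
    exact_mod_cast h1

theorem fin_graph (hn : 4 ≤ n) {m a b : ℕ} (hab : a * b ≤ m) (g : Finset (Fin a × Fin b))
    {φ : W n → ℝ} (hs : SymW φ) (h1 : ∀ x ∈ evW n, |φ x| ≤ 1) {ρ : ℝ}
    (hρ0 : 0 ≤ ρ) (hρ1 : ρ ≤ 1) (hρ : ∀ w, |al φ w| ≤ ρ) {γ : ℕ → ℝ} {c₀ H : ℝ}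
    (hc₀ : 0 < c₀) (hcm : 2 * m * c₀ * (4 ^ m * Real.exp 2) ≤ 1) (hc1 : c₀ ≤ 1 / 4)
    (hγ : ∀ k, 0 < γ k ∧ γ k ≤ c₀)
    (hH : ∀ k < m, ∀ s : Finset ℕ, s ⊆ range k →
      4 / (n.choose (⌊γ k * n⌋₊ + 1) : ℝ) *
        ∏ j ∈ s, (∑ q ∈ range (⌊γ j * n⌋₊ + 1), (n.choose q : ℝ)) ≤ H)
    {Q : ℕ} (hQ : 1 ≤ Q) :
    GB (V := Ev n) g (fun _ x y => φ ((x : W n) + y)) ((g.card + 1) * (n *
      max ((4 ^ g.card * Real.exp 1) ^ Q * ρ ^ g.card) ((4 ^ g.card * Real.exp 1 * Q / n) ^ Q) +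
        g.card * H)) := by
  have hn0 : 0 < n := by omega
  have hnR : (0 : ℝ) < n := by exact_mod_cast hn0
  set idx : Fin a × Fin b → ℕ := fun e => (finProdFinEquiv e : ℕ) with hidx
  have hinj : Function.Injective idx := fun x y hxy => finProdFinEquiv.injective (Fin.ext hxy)
  have hlt : ∀ e, idx e < m := fun e => lt_of_lt_of_le (finProdFinEquiv e).2 hab
  have hgc : g.card ≤ m := by
    refine (card_le_univ g).trans ?_
    rw [Fintype.card_prod, Fintype.card_fin, Fintype.card_fin]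
    exact hab
  set c : ℕ → ℕ := fun k => ⌊γ k * n⌋₊ with hcdef
  have hcle : ∀ k, (c k : ℝ) ≤ c₀ * n := fun k =>
    (Nat.floor_le (mul_nonneg (hγ k).1.le hnR.le)).trans
      (mul_le_mul_of_nonneg_right (hγ k).2 hnR.le)
  have hsum : ((2 * ∑ e ∈ g, c (idx e) : ℕ) : ℝ) ≤ 2 * m * c₀ * n := by
    push_cast
    have e1 : ∑ e ∈ g, (c (idx e) : ℝ) ≤ g.card • (c₀ * n) :=
      sum_le_card_nsmul _ _ _ fun e _ => hcle _
    rw [nsmul_eq_mul] at e1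
    have e2 : (g.card : ℝ) * (c₀ * n) ≤ m * (c₀ * n) :=
      mul_le_mul_of_nonneg_right (by exact_mod_cast hgc) (by positivity)
    linarith
  have hexp : (1 : ℝ) < Real.exp 2 := by
    have := Real.add_one_le_exp (2 : ℝ)
    linarith
  have h4 : (1 : ℝ) ≤ 4 ^ m := one_le_pow₀ (by norm_num)
  have hbig : ((2 * ∑ e ∈ g, c (idx e) : ℕ) : ℝ) * (4 ^ g.card * Real.exp 2) ≤ n := by
    have e1 : (4 : ℝ) ^ g.card ≤ 4 ^ m := pow_le_pow_right₀ (by norm_num) hgc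
    calc ((2 * ∑ e ∈ g, c (idx e) : ℕ) : ℝ) * (4 ^ g.card * Real.exp 2)
        ≤ (2 * m * c₀ * n) * (4 ^ m * Real.exp 2) := by gcongr
      _ = (2 * m * c₀ * (4 ^ m * Real.exp 2)) * n := by ring
      _ ≤ 1 * n := mul_le_mul_of_nonneg_right hcm hnR.le
      _ = n := one_mul _
  have hc : 2 * ∑ e ∈ g, c (idx e) < n := by
    rcases Nat.eq_zero_or_pos (2 * ∑ e ∈ g, c (idx e)) with h | h
    · omega
    · have e1 : ((2 * ∑ e ∈ g, c (idx e) : ℕ) : ℝ) < n := by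
        have e2 : (0 : ℝ) < ((2 * ∑ e ∈ g, c (idx e) : ℕ) : ℝ) := by exact_mod_cast h
        have e3 : (1 : ℝ) < 4 ^ g.card * Real.exp 2 := by
          have : (1 : ℝ) ≤ 4 ^ g.card := one_le_pow₀ (by norm_num)
          nlinarith
        nlinarith
      exact_mod_cast e1
  have hc2 : ∀ e ∈ g, 2 * c (idx e) + 2 ≤ n := by
    intro e _
    have e1 := hcle (idx e)
    have e2 : (4 : ℝ) ≤ n := by exact_mod_cast hn
    have e3 : c₀ * n ≤ 1 / 4 * n := mul_le_mul_of_nonneg_right hc1 hnR.le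
    have e4 : ((2 * c (idx e) + 2 : ℕ) : ℝ) ≤ n := by
      push_cast
      linarith
    exact_mod_cast e4
  have hE : EW (fun x => φ x ^ 2) ≤ 1 := by
    have e1 : EW (fun x => φ x ^ 2) ≤ EW (fun _ : W n => (1 : ℝ)) := by
      apply Lin.EW_mono
      intro x hx
      have := h1 x hx
      rw [← sq_abs]
      exact pow_le_one₀ (abs_nonneg _) this
    refine e1.trans ?_
    unfold EW
    rw [sum_const, nsmul_eq_mul, mul_one]
    have e2 := card_Ev hn0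
    rw [Fintype.card_coe] at e2
    rw [e2, div_self (by positivity)]
  refine tel_bound hn0 hs h1 idx hinj.injOn hc hc2 (fun ξ => ?_) (fun e he => ?_)
  · exact fin_Fs hn0 hs hE hρ0 hρ1 hρ hc hQ hbig ξ
  · have e1 := hH (idx e) (hlt e) ((g.filter (fun e' => idx e' < idx e)).image idx) ?_
    · rw [prod_image (fun x _ y _ h => hinj h)] at e1
      exact e1
    · intro k hk
      rw [mem_image] at hk
      obtain ⟨e', he', rfl⟩ := hk
      rw [mem_filter] at he'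
      exact mem_range.2 he'.2

/-- the numbers for one graph -/
theorem fin_num {S R R₀ c nn : ℝ} {a b i E : ℕ} (hi : 2 * (a + b) ≤ 4 * i + 3 * E)
    (ha : 1 ≤ a) (hS : 0 ≤ S) (hn : 0 ≤ nn) (hR₀ : 0 < R₀)
    (h1 : Real.exp (nn * S) * Real.exp (-(nn * R)) ≤ min R₀ 1) (hE0 : E = 0 → c = 1)
    (hE : 1 ≤ E → Real.exp (nn * ((3 / 2) * E * S)) * c ≤ R₀ ^ 2) (hc : 0 ≤ c) :
    (Real.exp (-(nn * R)) ^ 2) ^ i * c ≤ R₀ ^ 2 / Real.exp (nn * S) ^ (a + b) := by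
  rw [le_div_iff₀ (by positivity)]
  obtain ⟨x, hx⟩ : ∃ x, x = Real.exp (nn * S) * Real.exp (-(nn * R)) := ⟨_, rfl⟩
  rw [← hx] at h1
  have hx0 : 0 ≤ x := by rw [hx]; positivity
  have hx1 : x ≤ 1 := h1.trans (min_le_right _ _)
  have hx2 : x ≤ R₀ := h1.trans (min_le_left _ _)
  have e1 : Real.exp (nn * S) ^ (a + b) ≤ Real.exp (nn * S) ^ (2 * i) *
      Real.exp (nn * ((3 / 2) * E * S)) := by
    rw [← Real.exp_nat_mul, ← Real.exp_nat_mul, ← Real.exp_add]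
    apply Real.exp_le_exp.2
    have e2 : ((2 * (a + b) : ℕ) : ℝ) ≤ ((4 * i + 3 * E : ℕ) : ℝ) := by exact_mod_cast hi
    push_cast at e2 ⊢
    have e3 : 0 ≤ nn * S := mul_nonneg hn hS
    nlinarith
  have e4 : (Real.exp (-(nn * R)) ^ 2) ^ i * Real.exp (nn * S) ^ (2 * i) = x ^ (2 * i) := by
    rw [hx, mul_pow, ← pow_mul]
    ring
  have e5 : (Real.exp (-(nn * R)) ^ 2) ^ i * c * Real.exp (nn * S) ^ (a + b) ≤
      x ^ (2 * i) * (Real.exp (nn * ((3 / 2) * E * S)) * c) := by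
    calc (Real.exp (-(nn * R)) ^ 2) ^ i * c * Real.exp (nn * S) ^ (a + b)
        ≤ (Real.exp (-(nn * R)) ^ 2) ^ i * c * (Real.exp (nn * S) ^ (2 * i) *
          Real.exp (nn * ((3 / 2) * E * S))) :=
          mul_le_mul_of_nonneg_left e1 (mul_nonneg (by positivity) hc)
      _ = ((Real.exp (-(nn * R)) ^ 2) ^ i * Real.exp (nn * S) ^ (2 * i)) *
          (Real.exp (nn * ((3 / 2) * E * S)) * c) := by ring
      _ = _ := by rw [e4]
  refine e5.trans ?_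
  rcases Nat.eq_zero_or_pos E with h | h
  · have hi1 : 1 ≤ i := by omega
    rw [hE0 h, h]
    have e6 : Real.exp (nn * ((3 / 2) * ((0 : ℕ) : ℝ) * S)) * 1 = 1 := by simp
    rw [e6, mul_one]
    calc x ^ (2 * i) ≤ x ^ 2 := pow_le_pow_of_le_one hx0 hx1 (by omega)
      _ ≤ R₀ ^ 2 := by gcongr
  · have e7 : x ^ (2 * i) ≤ 1 := pow_le_one₀ hx0 hx1
    have e8 : 0 ≤ Real.exp (nn * ((3 / 2) * E * S)) * c := mul_nonneg (by positivity) hc
    calc x ^ (2 * i) * (Real.exp (nn * ((3 / 2) * E * S)) * c)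
        ≤ 1 * (Real.exp (nn * ((3 / 2) * E * S)) * c) := mul_le_mul_of_nonneg_right e7 e8
      _ ≤ R₀ ^ 2 := by rw [one_mul]; exact hE h

theorem las_near_aux {t : ℕ} (ht : 1 ≤ t) {ζ : ℝ} (hζ : 0 < ζ) (hζ1 : ζ ≤ 1 / 3) :
    ∃ δ₀ : ℝ, 0 < δ₀ ∧ δ₀ < 1 / 2 ∧ ∀ δ : ℝ, δ₀ < δ → δ < 1 / 2 → ∀ᶠ n : ℕ in atTop,
      (2 : ℝ) ^ ((n : ℝ) * ((2 / 3 - ζ) * Tensor.ell δ)) ≤ Las.las t n ⌈δ * n⌉₊ := by
  obtain ⟨m, hm⟩ : ∃ m, m = t ^ 2 := ⟨_, rfl⟩
  have hm1 : 1 ≤ m := by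
    rw [hm]
    exact Nat.one_le_pow _ _ ht
  have hmR : (1 : ℝ) ≤ m := by exact_mod_cast hm1
  obtain ⟨c₀, hc₀d⟩ : ∃ c₀ : ℝ, c₀ = 1 / (4 * m * (4 ^ m * Real.exp 2)) := ⟨_, rfl⟩
  have hexp : (1 : ℝ) < Real.exp 2 := by
    have := Real.add_one_le_exp (2 : ℝ)
    linarith
  have h4 : (1 : ℝ) ≤ 4 ^ m := one_le_pow₀ (by norm_num)
  have hc₀ : 0 < c₀ := by
    rw [hc₀d]
    positivity
  have hD : (1 : ℝ) ≤ 4 ^ m * Real.exp 2 := by nlinarith
  have hc1 : c₀ ≤ 1 / 4 := by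
    rw [hc₀d]
    apply one_div_le_one_div_of_le (by norm_num)
    nlinarith
  have hcm : 2 * m * c₀ * (4 ^ m * Real.exp 2) ≤ 1 := by
    rw [hc₀d]
    have e1 : 2 * (m : ℝ) * (1 / (4 * m * (4 ^ m * Real.exp 2))) * (4 ^ m * Real.exp 2) = 1 / 2 := by
      field_simp
      norm_num
    rw [e1]
    norm_num
  obtain ⟨γ, μ, hμ, hγ, hγμ⟩ := numb_gamma m hc₀ (by linarith)
  obtain ⟨R₀, hR₀d⟩ : ∃ R₀ : ℝ, R₀ = 1 / (t * 2 ^ (t + t ^ 2) * 2 ^ (t ^ 2)) := ⟨_, rfl⟩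
  have htR : (1 : ℝ) ≤ t := by exact_mod_cast ht
  have hR₀ : 0 < R₀ := by
    rw [hR₀d]
    positivity
  obtain ⟨ε₀, hε₀, hε₀1, hmain⟩ := numc_main hm1 hζ hζ1 hμ hR₀
  obtain ⟨ε₁, hε₁, hε₁1, hnear⟩ := Lin.ell_near
  refine ⟨1 / 2 - min ε₀ ε₁, ?_, ?_, fun δ hδ1 hδ2 => ?_⟩
  · have := min_le_left ε₀ ε₁
    linarith
  · have := lt_min hε₀ hε₁
    linarith
  obtain ⟨ε, hε⟩ : ∃ ε, ε = 1 / 2 - δ := ⟨_, rfl⟩
  have hδε : 1 / 2 - ε = δ := by linarith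
  have hδ0 : 0 < δ := by
    have := min_le_left ε₀ ε₁
    linarith
  have hεpos : 0 < ε := by linarith
  have hεlt0 : ε < ε₀ := by
    have := min_le_left ε₀ ε₁
    linarith
  have hεlt1 : ε < ε₁ := by
    have := min_le_right ε₀ ε₁
    linarith
  have hmain' := hmain ε hεpos hεlt0
  have hnear' := (hnear ε hεpos hεlt1).1
  rw [hδε] at hmain' hnear'
  obtain ⟨L, hL⟩ : ∃ L, L = Tensor.ell δ * Real.log 2 := ⟨_, rfl⟩
  rw [← hL] at hmain' hnear'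
  have hL0 : 0 < L := by
    refine lt_of_lt_of_le (mul_pos (by positivity) (Real.log_pos ?_)) hnear'
    rw [lt_div_iff₀ hεpos]
    linarith
  have hRL : (1 - ζ / 2) * L < Tensor.ell δ * Real.log 2 := by
    rw [← hL]
    nlinarith
  obtain ⟨ε', hε', hlev⟩ := Lin.level1 hδ0 hδ2 hRL
  have hnumb := numb_ev (by linarith) hμ hγ hγμ
  filter_upwards [hlev, hnumb, hmain', numc_one hζ hζ1 hL0 hR₀, eventually_ge_atTop 4] with
    n ⟨a, ha1, ha2, ha3⟩ hb ⟨Q, hQ, hQm⟩ hone hn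
  have hn0 : 0 < n := by omega
  have hnR : (0 : ℝ) < n := by exact_mod_cast hn0
  have hd1 : 1 ≤ ⌈δ * n⌉₊ := Nat.one_le_iff_ne_zero.2 (Nat.ceil_pos.2 (by positivity)).ne'
  have hκ1 : Real.exp (-(n * ε')) ≤ 1 := Real.exp_le_one_iff.2 (by
    have : 0 ≤ n * ε' := by positivity
    linarith)
  have hR0 : 0 ≤ (1 - ζ / 2) * L := mul_nonneg (by linarith) hL0.le
  have hρ1 : Real.exp (-(n * ((1 - ζ / 2) * L))) ≤ 1 := Real.exp_le_one_iff.2 (by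
    have : 0 ≤ n * ((1 - ζ / 2) * L) := by positivity
    linarith)
  have hs : SymW (fun x : W n => a (wt x)) := fun p x => by
    simp only [Lin.wt_comp]
  have h1 : ∀ x ∈ evW n, |(fun x : W n => a (wt x)) x| ≤ 1 := by
    intro x _
    rcases lt_or_ge (wt x) ⌈δ * n⌉₊ with h | h
    · simp only [ha1 _ h, abs_neg, abs_one, le_refl]
    · exact (ha2 _ h).trans hκ1
  have hop := op_of_al hn0 (fun x : W n => a (wt x)) ha3
  have hker := ker_ev (n := n) hd1 (Real.exp_pos _).le hκ1 (Real.exp_pos _).le hρ1 ha1 ha2 hop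
  have hEvne : Nonempty (Ev n) := ⟨⟨0, by
    unfold evW
    simp⟩⟩
  have hfun : ∀ {a' b' : ℕ}, (fun (_ : Fin a' × Fin b') (x y : Ev n) =>
      (1 + a (wt ((x : W n) + (y : W n)))) - 1) =
      fun (_ : Fin a' × Fin b') (x y : Ev n) => (fun x : W n => a (wt x)) ((x : W n) + y) := by
    intro a' b'
    funext _ x y
    simp only
    ring
  have hG : ∀ a' b' : ℕ, 1 ≤ a' → a' ≤ t → 1 ≤ b' → b' ≤ t → ∀ g ∈ Las.full a' b',
      GB (V := Ev n) g (fun _ x y => (1 + a (wt ((x : W n) + (y : W n)))) - 1)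
        (R₀ ^ 2 / Real.exp (n * ((2 / 3 - ζ) * L)) ^ (a' + b')) := by
    intro a' b' ha' hat hb' hbt g hg
    unfold Las.full at hg
    obtain ⟨hl, hr⟩ := (mem_filter.1 hg).2
    have hpc := peel_count hl hr
    rw [Fintype.card_fin, Fintype.card_fin] at hpc
    have hab : a' * b' ≤ m := by
      rw [hm, sq]
      exact Nat.mul_le_mul hat hbt
    obtain ⟨E, hE⟩ : ∃ E, E = (g \ iso g).card := ⟨_, rfl⟩
    rw [← hE] at hpc
    have hEm : E ≤ m := by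
      rw [hE]
      refine (card_le_univ _).trans ?_
      rw [Fintype.card_prod, Fintype.card_fin, Fintype.card_fin]
      exact hab
    rcases Nat.eq_zero_or_pos E with h0 | h0
    · have he : g \ iso g = ∅ := card_eq_zero.1 (hE ▸ h0)
      have h5 := peel hker (g := g) zero_le_one (by rw [he]; exact gb_empty _)
      refine gb_mono h5 (fin_num (E := E) hpc ha' ?_ hnR.le hR₀ hone (fun _ => rfl) ?_
        zero_le_one)
      · exact mul_nonneg (by linarith) hL0.le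
      · intro h6
        omega
    · have h6 := fin_graph hn hab (g \ iso g) hs h1 (Real.exp_pos _).le hρ1 ha3 hc₀ hcm hc1 hγ
        hb hQ
      rw [← hE, ← hfun] at h6
      have hc' : 0 ≤ ((E : ℝ) + 1) * (n * max ((4 ^ E * Real.exp 1) ^ Q *
          Real.exp (-(n * ((1 - ζ / 2) * L))) ^ E) ((4 ^ E * Real.exp 1 * Q / n) ^ Q) +
            E * Real.exp (-(n * (μ / 2)))) := by
        have : 0 ≤ max ((4 ^ E * Real.exp 1) ^ Q *
          Real.exp (-(n * ((1 - ζ / 2) * L))) ^ E) ((4 ^ E * Real.exp 1 * Q / n) ^ Q) :=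
          le_max_of_le_left (by positivity)
        positivity
      have h5 := peel hker (g := g) hc' h6
      refine gb_mono h5 (fin_num (E := E) hpc ha' ?_ hnR.le hR₀ hone ?_ ?_ hc')
      · exact mul_nonneg (by linarith) hL0.le
      · intro h7
        omega
      · intro h7
        exact hQm E h7 hEm
  have hpsd := momPos_graph hker ht (Real.exp_pos (n * ((2 / 3 - ζ) * L))) hR₀.le hG ?_
  · have hN : (0 : ℝ) < Fintype.card (Ev n) := by exact_mod_cast Fintype.card_pos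
    have hlas := las_ge_ev (d := ⌈δ * n⌉₊) ht _ ?_ ?_ hpsd
    · have e1 : (2 : ℝ) ^ ((n : ℝ) * ((2 / 3 - ζ) * Tensor.ell δ)) =
          Real.exp (n * ((2 / 3 - ζ) * L)) := by
        rw [Real.rpow_def_of_pos (by norm_num), hL]
        congr 1
        ring
      rw [e1]
      refine le_trans (le_of_eq ?_) hlas
      simp only [card_singleton, pow_one, Las.wgt_singleton, mul_one, sum_const, card_univ,
        nsmul_eq_mul]
      field_simp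
    · simp only [card_empty, pow_zero, Las.wgt_empty, mul_one]
    · rintro S ⟨u, hu, v, hv, huv, hw⟩
      rw [Las.wgt_eq_zero hker.symm hker.nonneg hu hv huv, mul_zero]
      rw [ha1 _ hw]
      ring
  · have e1 : (1 + Real.exp (-(n * ε'))) ^ (t ^ 2) ≤ 2 ^ (t ^ 2) := by
      apply pow_le_pow_left₀ (by positivity)
      linarith
    calc (t : ℝ) * 2 ^ (t + t ^ 2) * (1 + Real.exp (-(n * ε'))) ^ (t ^ 2) * R₀
        ≤ t * 2 ^ (t + t ^ 2) * 2 ^ (t ^ 2) * R₀ := by gcongr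
      _ = 1 := by
        rw [hR₀d]
        field_simp

theorem las_near {t : ℕ} (ht : 1 ≤ t) {ζ : ℝ} (hζ : 0 < ζ) :
    ∃ δ₀ : ℝ, 0 < δ₀ ∧ δ₀ < 1 / 2 ∧ ∀ δ : ℝ, δ₀ < δ → δ < 1 / 2 → ∀ᶠ n : ℕ in atTop,
      (2 : ℝ) ^ ((n : ℝ) * ((2 / 3 - ζ) * Tensor.ell δ)) ≤ Las.las t n ⌈δ * n⌉₊ := by
  obtain ⟨δ₀, h0, h1, h⟩ := las_near_aux ht (lt_min hζ (by norm_num : (0 : ℝ) < 1 / 3))
    (min_le_right _ _)
  refine ⟨δ₀, h0, h1, fun δ hδ hδ2 => ?_⟩
  filter_upwards [h δ hδ hδ2] with n hn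
  refine le_trans ?_ hn
  apply Real.rpow_le_rpow_of_exponent_le (by norm_num)
  have e1 : 0 ≤ Tensor.ell δ := Tensor.ell_nonneg (by linarith)
  have e2 : 2 / 3 - ζ ≤ 2 / 3 - min ζ (1 / 3) := by
    have := min_le_left ζ (1 / 3)
    linarith
  gcongr

end Pool.Agent.Lib.MP_0430e4_lc.L2
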