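import Pool.Agent.Lib.MP_0430e4_lc.L2.FIN
import Pool.Agent.Lib.MP_0430e4_lc.Exact.INP

/-!
# LPC: comparison with the value of the linear program
-/

set_option autoImplicit false

namespace Pool.Agent.Lib.MP_0430e4_lc.L2

open Finset Filter Topology

theorem las_ge_lp {t : ℕ} (ht : 1 ≤ t) {ζ : ℝ} (hζ : 0 < ζ) :
    ∃ δ₀ : ℝ, δ₀ < 1 / 2 ∧ ∀ δ : ℝ, δ₀ < δ → δ < 1 / 2 → ∃ n0 : ℕ, ∀ n ≥ n0,
      Impr.lpBound n ⌈δ * n⌉₊ ^ (2 / 3 - ζ) ≤ Las.las t n ⌈δ * n⌉₊ := by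
  obtain ⟨z, hz⟩ : ∃ z, z = min ζ (1 / 3) := ⟨_, rfl⟩
  have hz0 : 0 < z := by
    rw [hz]
    exact lt_min hζ (by norm_num)
  have hz1 : z ≤ 1 / 3 := by
    rw [hz]
    exact min_le_right _ _
  have hz2 : z ≤ ζ := by
    rw [hz]
    exact min_le_left _ _
  obtain ⟨δ₀, h0, h1, hmain⟩ := las_near ht (half_pos hz0)
  obtain ⟨ε₁, hε₁, hε₁1, hnear⟩ := Lin.ell_near
  refine ⟨max δ₀ (1 / 2 - ε₁), max_lt h1 (by linarith), fun δ hδ1 hδ2 => ?_⟩
  have hδ3 : δ₀ < δ := lt_of_le_of_lt (le_max_left _ _) hδ1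
  have hδ4 : 1 / 2 - ε₁ < δ := lt_of_le_of_lt (le_max_right _ _) hδ1
  have hδ0 : 0 < δ := by linarith
  have hell : 0 < Tensor.ell δ := by
    have e1 := (hnear (1 / 2 - δ) (by linarith) (by linarith)).1
    rw [sub_sub_cancel] at e1
    have e2 : 0 < (1 / 2 - δ) ^ 2 * Real.log (1 / (1 / 2 - δ)) := by
      apply mul_pos (pow_pos (by linarith) 2)
      apply Real.log_pos
      rw [lt_div_iff₀ (by linarith)]
      linarith
    have e3 : 0 < Real.log 2 := Real.log_pos (by norm_num)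
    have e4 := lt_of_lt_of_le e2 e1
    exact pos_of_mul_pos_left e4 e3.le
  have hten := Exact.fin_tendsto Exact.inputs hδ0 hδ2
  have hev : ∀ᶠ n : ℕ in atTop, Exact.lpRate δ n < Tensor.ell δ + z / 2 * Tensor.ell δ :=
    hten.eventually (gt_mem_nhds (by
      have := mul_pos (half_pos hz0) hell
      linarith))
  rw [← eventually_atTop]
  filter_upwards [hev, hmain δ hδ3 hδ2, eventually_ge_atTop 1] with n hn1 hn2 hn3
  have hnR : (0 : ℝ) < n := by exact_mod_cast hn3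
  have hLP := Impr.one_le_lpBound n ⌈δ * n⌉₊
  have hLP0 : 0 < Impr.lpBound n ⌈δ * n⌉₊ := by linarith
  refine le_trans ?_ hn2
  have e1 : Impr.lpBound n ⌈δ * n⌉₊ ^ (2 / 3 - ζ) ≤ Impr.lpBound n ⌈δ * n⌉₊ ^ (2 / 3 - z) :=
    Real.rpow_le_rpow_of_exponent_le hLP (by linarith)
  refine e1.trans ?_
  unfold Exact.lpRate at hn1
  rw [div_lt_iff₀ hnR] at hn1
  have e2 : Impr.lpBound n ⌈δ * n⌉₊ ≤
      (2 : ℝ) ^ ((Tensor.ell δ + z / 2 * Tensor.ell δ) * n) := by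
    rw [← Real.logb_le_iff_le_rpow (by norm_num) hLP0]
    exact hn1.le
  calc Impr.lpBound n ⌈δ * n⌉₊ ^ (2 / 3 - z)
      ≤ ((2 : ℝ) ^ ((Tensor.ell δ + z / 2 * Tensor.ell δ) * n)) ^ (2 / 3 - z) :=
        Real.rpow_le_rpow hLP0.le e2 (by linarith)
    _ = (2 : ℝ) ^ ((Tensor.ell δ + z / 2 * Tensor.ell δ) * n * (2 / 3 - z)) := by
        rw [← Real.rpow_mul (by norm_num)]
    _ ≤ (2 : ℝ) ^ ((n : ℝ) * ((2 / 3 - z / 2) * Tensor.ell δ)) := by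
        apply Real.rpow_le_rpow_of_exponent_le (by norm_num)
        have e3 : (1 + z / 2) * (2 / 3 - z) ≤ 2 / 3 - z / 2 := by nlinarith
        have e4 : 0 ≤ (n : ℝ) * Tensor.ell δ := by positivity
        nlinarith

end Pool.Agent.Lib.MP_0430e4_lc.L2
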