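import Pool.Agent.Lib.MP_0430e4_lc.L2.Defs
import Pool.Agent.Lib.MP_0430e4_lc.Las.PSD

/-!
# PSDG: the moment matrix is positive semidefinite if the graph forms are small

PROOF: exactly `Las.set_bound` (file SETB), `Las.inner_bound` and `Las.momPos` (file PSD) with the hypothesis `hG` in the place of
`Las.graph_bound` (`form g (fun _ x y => Φ x y - 1) p r` is the sum bounded there). In `inner_bound` the constant `2 ^ (t ^ 2) * R`
comes from the number of graphs `γ ∈ Las.full a b` (at most `2 ^ (a b)`) and from `hG`: with `u = M / N`, `N = card V`,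
`R ^ 2 * (N ^ (a+b) / M ^ (a+b)) * (u ^ a Y a) (u ^ b Y b) = R ^ 2 Y a Y b`. All lemmas of PSD.lean can be imported and used
(`sum_graphs`, `sum_disjoint`, `abs_le_of_sq_le_mul`, `setb_enum`, `setb_bij`, `setbP_sq`, `setbP_sum`).
-/

set_option autoImplicit false

namespace Pool.Agent.Lib.MP_0430e4_lc.L2

open Finset

variable {V : Type*} [Fintype V] [DecidableEq V]

theorem psdg_set_bound [Nonempty V] {Φ : V → V → ℝ} {a b : ℕ} {c : ℝ} (hc : 0 ≤ c)
    (hG : ∀ g ∈ Las.full a b, GB g (fun _ x y => Φ x y - 1) c)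
    (F G : Finset V → ℝ) :
    (∑ g ∈ univ.filter (fun g : Finset (V × V) => (Las.lft g).card = a ∧ (Las.rgt g).card = b),
      Las.edg Φ g * F (Las.lft g) * G (Las.rgt g)) ^ 2 ≤
    ((2 : ℝ) ^ (a * b)) ^ 2 * (c * (Fintype.card V : ℝ) ^ (a + b) *
      ((∑ A ∈ powersetCard a univ, F A ^ 2) * ∑ B ∈ powersetCard b univ, G B ^ 2)) := by
  classical
  obtain ⟨e, he⟩ := Las.setb_enum (V := V) a
  obtain ⟨e', he'⟩ := Las.setb_enum (V := V) b
  rw [Las.setb_bij he he', sum_product]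
  set X : ℝ := c * (Fintype.card V : ℝ) ^ (a + b) *
      ((∑ A ∈ powersetCard a univ, F A ^ 2) * ∑ B ∈ powersetCard b univ, G B ^ 2) with hX
  have hX0 : 0 ≤ X := mul_nonneg (by positivity)
    (mul_nonneg (sum_nonneg fun _ _ => sq_nonneg _) (sum_nonneg fun _ _ => sq_nonneg _))
  have hterm : ∀ γ ∈ Las.full a b,
      (∑ y ∈ powersetCard a (univ : Finset V) ×ˢ powersetCard b (univ : Finset V),
        (∏ c ∈ γ, (Φ (e y.1 c.1) (e' y.2 c.2) - 1)) * F y.1 * G y.2) ^ 2 ≤ X := by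
    intro γ hγ
    have h4 := hG γ hγ (Las.setbP e F) (Las.setbP e' G)
    unfold form at h4
    rw [Fintype.card_fin, Fintype.card_fin, Las.setbP_sq he, Las.setbP_sq he'] at h4
    have h5 : ∑ y ∈ powersetCard a (univ : Finset V) ×ˢ powersetCard b (univ : Finset V),
        (∏ c ∈ γ, (Φ (e y.1 c.1) (e' y.2 c.2) - 1)) * F y.1 * G y.2
        = ∑ α, ∑ β, (∏ c ∈ γ, (Φ (α c.1) (β c.2) - 1)) * Las.setbP e F α * Las.setbP e' G β := by
      rw [sum_product]
      have h6 : ∀ α : Fin a → V, ∑ β, (∏ c ∈ γ, (Φ (α c.1) (β c.2) - 1)) * Las.setbP e F α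
          * Las.setbP e' G β = (∑ B ∈ powersetCard b (univ : Finset V),
            (∏ c ∈ γ, (Φ (α c.1) (e' B c.2) - 1)) * G B) * Las.setbP e F α := by
        intro α
        rw [Las.setbP_sum e' G (fun β => (∏ c ∈ γ, (Φ (α c.1) (β c.2) - 1))) |>.symm, sum_mul]
        exact sum_congr rfl fun β _ => by ring
      rw [sum_congr rfl fun α _ => h6 α]
      rw [Las.setbP_sum e F (fun α => ∑ B ∈ powersetCard b (univ : Finset V),
            (∏ c ∈ γ, (Φ (α c.1) (e' B c.2) - 1)) * G B)]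
      refine sum_congr rfl fun A _ => ?_
      rw [sum_mul]
      exact sum_congr rfl fun B _ => by ring
    rw [h5]
    exact h4
  have hcard : ((Las.full a b).card : ℝ) ≤ 2 ^ (a * b) := by
    have : (Las.full a b).card ≤ 2 ^ (a * b) := by
      refine (card_filter_le _ _).trans ?_
      rw [card_univ, Fintype.card_finset, Fintype.card_prod, Fintype.card_fin, Fintype.card_fin]
    exact_mod_cast this
  have hcs := sq_sum_le_card_mul_sum_sq (s := Las.full a b)
    (f := fun γ => ∑ y ∈ powersetCard a (univ : Finset V) ×ˢ powersetCard b (univ : Finset V),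
        (∏ c ∈ γ, (Φ (e y.1 c.1) (e' y.2 c.2) - 1)) * F y.1 * G y.2)
  refine hcs.trans ?_
  calc ((Las.full a b).card : ℝ) * ∑ γ ∈ Las.full a b, (∑ y ∈ powersetCard a (univ : Finset V) ×ˢ
          powersetCard b (univ : Finset V),
        (∏ c ∈ γ, (Φ (e y.1 c.1) (e' y.2 c.2) - 1)) * F y.1 * G y.2) ^ 2
      ≤ ((Las.full a b).card : ℝ) * ∑ γ ∈ Las.full a b, X :=
        mul_le_mul_of_nonneg_left (sum_le_sum hterm) (by positivity)
    _ = ((Las.full a b).card : ℝ) ^ 2 * X := by rw [sum_const, nsmul_eq_mul]; ring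
    _ ≤ ((2 : ℝ) ^ (a * b)) ^ 2 * X := by
        apply mul_le_mul_of_nonneg_right _ hX0
        exact pow_le_pow_left₀ (by positivity) hcard 2

/-- The bound at one conditioning set. -/
theorem psdg_inner_bound [Nonempty V] {Φ : V → V → ℝ} {t : ℕ} {M R : ℝ} (hM : 0 < M)
    (hR0 : 0 ≤ R)
    (hG : ∀ a b : ℕ, 1 ≤ a → a ≤ t → 1 ≤ b → b ≤ t → ∀ g ∈ Las.full a b,
      GB g (fun _ x y => Φ x y - 1) (R ^ 2 / M ^ (a + b)))
    {u : ℝ} (hu : u = M / Fintype.card V) (I : Finset V) (S : Finset V → ℝ)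
    (hS : ∀ J, t < J.card → S J = 0) :
    S I ^ 2 - t * 2 ^ (t ^ 2) * R *
        ∑ A ∈ univ.filter (fun A : Finset V => Disjoint I A), u ^ A.card * S (I ∪ A) ^ 2 ≤
      ∑ g ∈ univ.filter (fun g : Finset (V × V) => Disjoint I (Las.lft g) ∧
          Disjoint I (Las.rgt g)),
        Las.edg Φ g * (u ^ (Las.lft g).card * S (I ∪ Las.lft g)) *
          (u ^ (Las.rgt g).card * S (I ∪ Las.rgt g)) := by
  classical
  have hN : (0 : ℝ) < Fintype.card V := by exact_mod_cast Fintype.card_pos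
  have hu0 : 0 < u := by
    rw [hu]
    positivity
  have hNu : (Fintype.card V : ℝ) * u = M := by
    rw [hu]
    field_simp
  set P : Finset V → ℝ := fun A => if Disjoint I A then u ^ A.card * S (I ∪ A) else 0 with hPd
  have hP : ∀ A, t < A.card → P A = 0 := by
    intro A hA
    rw [hPd]
    by_cases hd : Disjoint I A
    · simp only [if_pos hd]
      rw [hS _ (lt_of_lt_of_le hA (card_le_card subset_union_right)), mul_zero]
    · simp only [if_neg hd]
  have e1 : ∑ g ∈ univ.filter (fun g : Finset (V × V) => Disjoint I (Las.lft g) ∧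
        Disjoint I (Las.rgt g)),
      Las.edg Φ g * (u ^ (Las.lft g).card * S (I ∪ Las.lft g)) *
        (u ^ (Las.rgt g).card * S (I ∪ Las.rgt g)) =
      ∑ g : Finset (V × V), Las.edg Φ g * P (Las.lft g) * P (Las.rgt g) := by
    rw [sum_filter]
    refine sum_congr rfl fun g _ => ?_
    by_cases h1 : Disjoint I (Las.lft g)
    · by_cases h2 : Disjoint I (Las.rgt g)
      · rw [if_pos ⟨h1, h2⟩]
        simp only [hPd, if_pos h1, if_pos h2]
      · rw [if_neg (fun hh => h2 hh.2)]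
        simp only [hPd, if_neg h2, mul_zero]
    · rw [if_neg (fun hh => h1 hh.1)]
      simp only [hPd, if_neg h1, mul_zero, zero_mul]
  rw [e1, Las.sum_graphs t P hP]
  set Y : ℕ → ℝ := fun a => ∑ A ∈ univ.filter (fun A : Finset V => Disjoint I A ∧ A.card = a),
    u ^ A.card * S (I ∪ A) ^ 2 with hY
  have hY0 : ∀ a, 0 ≤ Y a := by
    intro a
    rw [hY]
    exact sum_nonneg fun A _ => by positivity
  have hX : ∀ a, ∑ A ∈ powersetCard a univ, P A ^ 2 = u ^ a * Y a := by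
    intro a
    have e2 : ∑ A ∈ powersetCard a univ, P A ^ 2 =
        ∑ A ∈ (powersetCard a univ).filter (fun A : Finset V => Disjoint I A),
          (u ^ A.card * S (I ∪ A)) ^ 2 := by
      rw [sum_filter]
      refine sum_congr rfl fun A _ => ?_
      by_cases hd : Disjoint I A
      · simp only [hPd, if_pos hd]
      · simp only [hPd, if_neg hd]
        ring
    rw [e2, hY, mul_sum]
    refine sum_congr ?_ fun A hA => ?_
    · ext A
      rw [mem_filter, mem_filter, mem_powersetCard]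
      constructor
      · rintro ⟨⟨_, h1⟩, h2⟩
        exact ⟨mem_univ _, h2, h1⟩
      · rintro ⟨_, h1, h2⟩
        exact ⟨⟨subset_univ _, h2⟩, h1⟩
    · rw [mem_filter] at hA
      rw [hA.2.2]
      ring
  have hT : ∀ a ∈ Icc 1 t, ∀ b ∈ Icc 1 t, -(2 ^ (t ^ 2) * R * ((Y a + Y b) / 2)) ≤
      ∑ g ∈ univ.filter (fun g : Finset (V × V) => (Las.lft g).card = a ∧ (Las.rgt g).card = b),
          Las.edg Φ g * P (Las.lft g) * P (Las.rgt g) := by
    intro a ha b hb
    rw [mem_Icc] at ha hb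
    refine Las.abs_le_of_sq_le_mul (by positivity) (hY0 a) (hY0 b) ?_
    refine (psdg_set_bound (by positivity) (hG a b ha.1 ha.2 hb.1 hb.2) P P).trans ?_
    rw [hX, hX]
    have h5 : ((2 : ℝ) ^ (a * b)) ^ 2 ≤ ((2 : ℝ) ^ (t ^ 2)) ^ 2 := by
      refine pow_le_pow_left₀ (by positivity) ?_ 2
      refine pow_le_pow_right₀ (by norm_num) ?_
      rw [sq]
      exact Nat.mul_le_mul ha.2 hb.2
    have h6 : R ^ 2 / M ^ (a + b) * (Fintype.card V : ℝ) ^ (a + b) *
        (u ^ a * Y a * (u ^ b * Y b)) = R ^ 2 * (Y a * Y b) := by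
      have h7 : (Fintype.card V : ℝ) ^ (a + b) * (u ^ a * u ^ b) = M ^ (a + b) := by
        rw [← pow_add, ← mul_pow, hNu]
      calc R ^ 2 / M ^ (a + b) * (Fintype.card V : ℝ) ^ (a + b) * (u ^ a * Y a * (u ^ b * Y b))
          = R ^ 2 / M ^ (a + b) * ((Fintype.card V : ℝ) ^ (a + b) * (u ^ a * u ^ b)) *
            (Y a * Y b) := by ring
        _ = R ^ 2 / M ^ (a + b) * M ^ (a + b) * (Y a * Y b) := by rw [h7]
        _ = _ := by rw [div_mul_cancel₀ _ (by positivity)]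
    rw [h6]
    calc ((2 : ℝ) ^ (a * b)) ^ 2 * (R ^ 2 * (Y a * Y b))
        ≤ ((2 : ℝ) ^ (t ^ 2)) ^ 2 * (R ^ 2 * (Y a * Y b)) :=
          mul_le_mul_of_nonneg_right h5 (mul_nonneg (sq_nonneg _) (mul_nonneg (hY0 a) (hY0 b)))
      _ = (2 ^ (t ^ 2) * R) ^ 2 * (Y a * Y b) := by ring
  have hsum : -(t * 2 ^ (t ^ 2) * R * ∑ a ∈ Icc 1 t, Y a) ≤ ∑ a ∈ Icc 1 t, ∑ b ∈ Icc 1 t,
        ∑ g ∈ univ.filter (fun g : Finset (V × V) => (Las.lft g).card = a ∧
            (Las.rgt g).card = b),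
          Las.edg Φ g * P (Las.lft g) * P (Las.rgt g) := by
    refine le_trans (le_of_eq ?_) (sum_le_sum fun a ha => sum_le_sum fun b hb => hT a ha b hb)
    have hcard : ((Icc 1 t).card : ℝ) = t := by
      rw [Nat.card_Icc]
      simp
    simp only [sum_neg_distrib, ← mul_sum, ← sum_div, sum_add_distrib, sum_const, nsmul_eq_mul,
      hcard]
    ring
  have hle : ∑ a ∈ Icc 1 t, Y a ≤
      ∑ A ∈ univ.filter (fun A : Finset V => Disjoint I A), u ^ A.card * S (I ∪ A) ^ 2 := by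
    have e3 : ∑ a ∈ Icc 1 t, Y a = ∑ A ∈ univ.filter (fun A : Finset V => Disjoint I A ∧
        A.card ∈ Icc 1 t), u ^ A.card * S (I ∪ A) ^ 2 := by
      rw [← sum_fiberwise_of_maps_to (s := univ.filter (fun A : Finset V => Disjoint I A ∧
        A.card ∈ Icc 1 t)) (t := Icc 1 t) (g := fun A => A.card)]
      · refine sum_congr rfl fun a ha => ?_
        rw [hY]
        refine sum_congr ?_ fun _ _ => rfl
        ext A
        rw [mem_filter, mem_filter, mem_filter]
        constructor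
        · rintro ⟨_, h1, h2⟩
          exact ⟨⟨mem_univ _, h1, h2 ▸ ha⟩, h2⟩
        · rintro ⟨⟨_, h1, _⟩, h2⟩
          exact ⟨mem_univ _, h1, h2⟩
      · intro A hA
        rw [mem_filter] at hA
        exact hA.2.2
    rw [e3]
    refine sum_le_sum_of_subset_of_nonneg ?_ fun A _ _ => by positivity
    intro A hA
    rw [mem_filter] at hA ⊢
    exact ⟨mem_univ _, hA.2.1⟩
  have hP0 : P ∅ = S I := by
    simp only [hPd, disjoint_empty_right, if_true, card_empty, pow_zero, one_mul, union_empty]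
  rw [hP0]
  have h6 : t * 2 ^ (t ^ 2) * R * ∑ a ∈ Icc 1 t, Y a ≤ t * 2 ^ (t ^ 2) * R *
      ∑ A ∈ univ.filter (fun A : Finset V => Disjoint I A), u ^ A.card * S (I ∪ A) ^ 2 :=
    mul_le_mul_of_nonneg_left hle (by positivity)
  linarith

theorem momPos_graph [Nonempty V] {Φ : V → V → ℝ} {θ σ ρ : ℝ} (h : Las.Ker Φ θ σ ρ) {t : ℕ}
    (ht : 1 ≤ t) {M R : ℝ} (hM : 0 < M) (hR : 0 ≤ R)
    (hG : ∀ a b : ℕ, 1 ≤ a → a ≤ t → 1 ≤ b → b ≤ t → ∀ g ∈ Las.full a b,
      GB g (fun _ x y => Φ x y - 1) (R ^ 2 / M ^ (a + b)))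
    (hc : t * 2 ^ (t + t ^ 2) * (1 + θ) ^ (t ^ 2) * R ≤ 1) :
    Las.MomPos t (fun S : Finset V => (M / Fintype.card V) ^ S.card * Las.wgt Φ S) := by
  classical
  have _ := ht
  intro f
  have hN : (0 : ℝ) < Fintype.card V := by exact_mod_cast Fintype.card_pos
  set u : ℝ := M / Fintype.card V with hu
  have hu0 : 0 < u := by positivity
  set f' : Finset V → ℝ := fun A => if A.card ≤ t then f A else 0 with hf'
  have hfz : ∀ A : Finset V, t < A.card → f' A = 0 := by
    intro A hA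
    simp only [hf', if_neg (not_le.mpr hA)]
  have e0 : ∑ A ∈ Las.small V t, ∑ B ∈ Las.small V t,
      f A * f B * (u ^ (A ∪ B).card * Las.wgt Φ (A ∪ B)) =
      ∑ A, ∑ B, f' A * f' B * (u ^ (A ∪ B).card * Las.wgt Φ (A ∪ B)) := by
    unfold Las.small
    rw [sum_filter]
    refine sum_congr rfl fun A _ => ?_
    by_cases hA : A.card ≤ t
    · rw [if_pos hA, sum_filter]
      refine sum_congr rfl fun B _ => ?_
      by_cases hB : B.card ≤ t
      · simp only [hf', if_pos hA, if_pos hB]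
      · simp only [hf', if_neg hB, mul_zero, zero_mul]
    · rw [if_neg hA]
      symm
      refine sum_eq_zero fun B _ => ?_
      simp only [hf', if_neg hA, zero_mul]
  rw [e0, Las.expansion h.symm h.nonneg h.diag u f']
  set S : Finset V → ℝ := Las.cnd Φ u f' with hSd
  have hS : ∀ J, t < J.card → S J = 0 := fun J hJ => Las.cnd_eq_zero_of_card u hfz hJ
  have hS2 : ∀ J, Las.wgt Φ J = 0 → S J = 0 := fun J hJ =>
    Las.cnd_eq_zero h.symm h.nonneg u f' hJ
  have hw : ∀ I : Finset V, 0 ≤ (Las.wgt Φ I)⁻¹ := fun I => inv_nonneg.mpr (Las.wgt_nonneg I)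
  set c0 : ℝ := t * 2 ^ (t ^ 2) * R with hc0
  have hc00 : 0 ≤ c0 := by positivity
  have hinner : ∀ I : Finset V, u ^ I.card * (Las.wgt Φ I)⁻¹ * (S I ^ 2 - c0 *
        ∑ A ∈ univ.filter (fun A : Finset V => Disjoint I A), u ^ A.card * S (I ∪ A) ^ 2) ≤
      u ^ I.card * (Las.wgt Φ I)⁻¹ *
      ∑ g ∈ univ.filter (fun g : Finset (V × V) => Disjoint I (Las.lft g) ∧
          Disjoint I (Las.rgt g)),
        Las.edg Φ g * (u ^ (Las.lft g).card * S (I ∪ Las.lft g)) *
          (u ^ (Las.rgt g).card * S (I ∪ Las.rgt g)) := by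
    intro I
    refine mul_le_mul_of_nonneg_left (psdg_inner_bound hM hR hG hu I S hS) ?_
    exact mul_nonneg (by positivity) (hw I)
  refine le_trans ?_ (sum_le_sum fun I _ => hinner I)
  -- the error term
  have e1 : ∀ I : Finset V, u ^ I.card * (Las.wgt Φ I)⁻¹ * (S I ^ 2 - c0 *
        ∑ A ∈ univ.filter (fun A : Finset V => Disjoint I A), u ^ A.card * S (I ∪ A) ^ 2) =
      u ^ I.card * (Las.wgt Φ I)⁻¹ * S I ^ 2 - c0 * ((Las.wgt Φ I)⁻¹ *
        ∑ J ∈ univ.filter (fun J : Finset V => I ⊆ J), u ^ J.card * S J ^ 2) := by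
    intro I
    have e2 : u ^ I.card * ∑ A ∈ univ.filter (fun A : Finset V => Disjoint I A),
        u ^ A.card * S (I ∪ A) ^ 2 =
        ∑ J ∈ univ.filter (fun J : Finset V => I ⊆ J), u ^ J.card * S J ^ 2 := by
      rw [← Las.sum_disjoint I (fun J => u ^ J.card * S J ^ 2), mul_sum]
      refine sum_congr rfl fun A hA => ?_
      rw [mem_filter] at hA
      rw [card_union_of_disjoint hA.2, pow_add]
      ring
    rw [← e2]
    ring
  rw [sum_congr rfl fun I _ => e1 I, sum_sub_distrib, ← mul_sum]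
  have e3 : ∑ I : Finset V, (Las.wgt Φ I)⁻¹ *
        ∑ J ∈ univ.filter (fun J : Finset V => I ⊆ J), u ^ J.card * S J ^ 2 =
      ∑ J : Finset V, (∑ I ∈ J.powerset, (Las.wgt Φ I)⁻¹) * (u ^ J.card * S J ^ 2) := by
    simp only [mul_sum, sum_mul, sum_filter]
    rw [sum_comm]
    refine sum_congr rfl fun J _ => ?_
    have e4 : J.powerset = univ.filter (fun I : Finset V => I ⊆ J) := by
      ext I
      simp
    rw [e4, sum_filter]
    refine sum_congr rfl fun I _ => ?_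
    split_ifs <;> simp
  rw [e3]
  have h7 : ∑ J : Finset V, (∑ I ∈ J.powerset, (Las.wgt Φ I)⁻¹) * (u ^ J.card * S J ^ 2) ≤
      ∑ J : Finset V, 2 ^ t * (1 + θ) ^ (t ^ 2) * (u ^ J.card * (Las.wgt Φ J)⁻¹ * S J ^ 2) := by
    refine sum_le_sum fun J _ => ?_
    by_cases hJ : S J = 0
    · simp [hJ]
    · have h8 : J.card ≤ t := by
        by_contra h9
        exact hJ (hS J (not_le.mp h9))
      have h9 : Las.wgt Φ J ≠ 0 := fun h10 => hJ (hS2 J h10)
      have h10 : ∑ I ∈ J.powerset, (Las.wgt Φ I)⁻¹ ≤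
          ∑ I ∈ J.powerset, (1 + θ) ^ (t ^ 2) * (Las.wgt Φ J)⁻¹ := by
        refine sum_le_sum fun I hI => ?_
        exact Las.wgt_inv_le h.symm h.nonneg h.θ0 h.le (mem_powerset.mp hI) h8 h9
      rw [sum_const, card_powerset, nsmul_eq_mul] at h10
      have h11 : ((2 ^ J.card : ℕ) : ℝ) ≤ 2 ^ t := by
        push_cast
        exact pow_le_pow_right₀ (by norm_num) h8
      have hθ := h.θ0
      have h12 : ∑ I ∈ J.powerset, (Las.wgt Φ I)⁻¹ ≤
          2 ^ t * ((1 + θ) ^ (t ^ 2) * (Las.wgt Φ J)⁻¹) := by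
        refine h10.trans (mul_le_mul_of_nonneg_right h11 ?_)
        exact mul_nonneg (by positivity) (hw J)
      calc (∑ I ∈ J.powerset, (Las.wgt Φ I)⁻¹) * (u ^ J.card * S J ^ 2)
          ≤ 2 ^ t * ((1 + θ) ^ (t ^ 2) * (Las.wgt Φ J)⁻¹) * (u ^ J.card * S J ^ 2) :=
            mul_le_mul_of_nonneg_right h12 (by positivity)
        _ = _ := by ring
  rw [← mul_sum] at h7
  set D : ℝ := ∑ J : Finset V, u ^ J.card * (Las.wgt Φ J)⁻¹ * S J ^ 2 with hD
  have hD0 : 0 ≤ D := sum_nonneg fun J _ =>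
    mul_nonneg (mul_nonneg (by positivity) (hw J)) (sq_nonneg _)
  have h13 : c0 * ∑ J : Finset V, (∑ I ∈ J.powerset, (Las.wgt Φ I)⁻¹) *
      (u ^ J.card * S J ^ 2) ≤ D := by
    calc _ ≤ c0 * (2 ^ t * (1 + θ) ^ (t ^ 2) * D) := mul_le_mul_of_nonneg_left h7 hc00
      _ = t * 2 ^ (t + t ^ 2) * (1 + θ) ^ (t ^ 2) * R * D := by
          rw [hc0, pow_add]
          ring
      _ ≤ 1 * D := mul_le_mul_of_nonneg_right hc hD0
      _ = D := one_mul D
  linarith

end Pool.Agent.Lib.MP_0430e4_lc.L2
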